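import Pool.Agent.Lib.MP_7f581e_Z.BR.Res

/-!
# Values of functions at places
-/

namespace MP7Z

variable {𝕜 E : Type} [Field 𝕜] [IsAlgClosed 𝕜] [Field E] [Algebra 𝕜 E] [IsCurveField 𝕜 E]

/-- The value of `f` at the place `v` (meaningful if `f` has no pole at `v`). -/
noncomputable def Place.ev (v : Place 𝕜 E) (f : E) : 𝕜 :=
  open Classical in if h : 0 ≤ v.ord f then (exists_const v h).choose else 0

theorem Place.ev_spec (v : Place 𝕜 E) {f : E} (h : 0 ≤ v.ord f) :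
    0 < v.ord (f - algebraMap 𝕜 E (v.ev f)) := by
  unfold Place.ev
  rw [dif_pos h]
  exact (exists_const v h).choose_spec

theorem Place.ev_unique (v : Place 𝕜 E) {f : E} {c : 𝕜} (h : 0 < v.ord (f - algebraMap 𝕜 E c)) :
    v.ev f = c := by
  have h0 : 0 ≤ v.ord f := by
    have h1 : f = (f - algebraMap 𝕜 E c) + algebraMap 𝕜 E c := by ring
    rw [h1]
    exact le_trans (le_min h.le (v.const c)) (v.ord.map_add _ _)
  have h1 := v.ev_spec h0
  by_contra hne
  have h2 : 0 < v.ord ((f - algebraMap 𝕜 E c) - (f - algebraMap 𝕜 E (v.ev f))) :=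
    lt_of_lt_of_le (lt_min h h1) (AddValuation.map_sub _ _ _)
  have h3 : (f - algebraMap 𝕜 E c) - (f - algebraMap 𝕜 E (v.ev f)) =
      algebraMap 𝕜 E (v.ev f - c) := by rw [map_sub]; ring
  rw [h3, v.ord_const (sub_ne_zero.2 hne)] at h2
  exact lt_irrefl _ h2

theorem Place.nonneg_of_ev {v : Place 𝕜 E} {f : E} {c : 𝕜} (h : 0 < v.ord (f - algebraMap 𝕜 E c)) :
    0 ≤ v.ord f := by
  have h1 : f = (f - algebraMap 𝕜 E c) + algebraMap 𝕜 E c := by ring
  rw [h1]
  exact le_trans (le_min h.le (v.const c)) (v.ord.map_add _ _)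

theorem Place.ev_const (v : Place 𝕜 E) (c : 𝕜) : v.ev (algebraMap 𝕜 E c) = c := by
  apply v.ev_unique
  rw [sub_self, AddValuation.map_zero]
  exact WithTop.coe_lt_top 0

theorem Place.ev_zero (v : Place 𝕜 E) : v.ev 0 = 0 := by
  rw [← map_zero (algebraMap 𝕜 E), v.ev_const]

theorem Place.ev_one (v : Place 𝕜 E) : v.ev 1 = 1 := by
  rw [← map_one (algebraMap 𝕜 E), v.ev_const]

theorem Place.ev_eq_zero_iff (v : Place 𝕜 E) {f : E} (h : 0 ≤ v.ord f) :
    v.ev f = 0 ↔ 0 < v.ord f := by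
  constructor
  · intro h0
    have := v.ev_spec h
    rwa [h0, map_zero, sub_zero] at this
  · intro h0
    apply v.ev_unique
    rwa [map_zero, sub_zero]

theorem Place.ev_add (v : Place 𝕜 E) {f g : E} (hf : 0 ≤ v.ord f) (hg : 0 ≤ v.ord g) :
    v.ev (f + g) = v.ev f + v.ev g := by
  apply v.ev_unique
  have h3 : f + g - algebraMap 𝕜 E (v.ev f + v.ev g) =
    (f - algebraMap 𝕜 E (v.ev f)) + (g - algebraMap 𝕜 E (v.ev g)) := by rw [map_add]; ring
  rw [h3]
  exact lt_of_lt_of_le (lt_min (v.ev_spec hf) (v.ev_spec hg)) (v.ord.map_add _ _)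

theorem Place.ev_mul (v : Place 𝕜 E) {f g : E} (hf : 0 ≤ v.ord f) (hg : 0 ≤ v.ord g) :
    v.ev (f * g) = v.ev f * v.ev g := by
  apply v.ev_unique
  have h3 : f * g - algebraMap 𝕜 E (v.ev f * v.ev g) =
    (f - algebraMap 𝕜 E (v.ev f)) * g + algebraMap 𝕜 E (v.ev f) * (g - algebraMap 𝕜 E (v.ev g)) := by
    rw [map_mul]; ring
  rw [h3]
  refine lt_of_lt_of_le (lt_min ?_ ?_) (v.ord.map_add _ _)
  · rw [AddValuation.map_mul]
    exact lt_of_lt_of_le (v.ev_spec hf) (by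
      calc v.ord (f - algebraMap 𝕜 E (v.ev f)) = v.ord (f - algebraMap 𝕜 E (v.ev f)) + 0 :=
            (add_zero _).symm
        _ ≤ _ := by gcongr)
  · rw [AddValuation.map_mul]
    exact lt_of_lt_of_le (v.ev_spec hg) (by
      calc v.ord (g - algebraMap 𝕜 E (v.ev g)) = 0 + v.ord (g - algebraMap 𝕜 E (v.ev g)) :=
            (zero_add _).symm
        _ ≤ _ := by gcongr; exact v.const _)

/-- The value map as a ring homomorphism on the valuation ring. -/
noncomputable def Place.evR (v : Place 𝕜 E) : v.ring →+* 𝕜 where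
  toFun f := v.ev (f : E)
  map_one' := v.ev_one
  map_zero' := v.ev_zero
  map_mul' a b := v.ev_mul a.2 b.2
  map_add' a b := v.ev_add a.2 b.2

theorem Place.ev_pow (v : Place 𝕜 E) {f : E} (hf : 0 ≤ v.ord f) (n : ℕ) :
    v.ev (f ^ n) = v.ev f ^ n :=
  map_pow v.evR ⟨f, hf⟩ n

/-- Values and automorphisms which induce `c ↦ c ^ q` on the constants. -/
theorem Place.ev_comap (v : Place 𝕜 E) (σ : E ≃+* E) {q : ℕ}
    (hσ : ∀ c : 𝕜, σ (algebraMap 𝕜 E c) = algebraMap 𝕜 E (c ^ q)) {f : E}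
    (hf : 0 ≤ (v.comap σ).ord f) : v.ev (σ f) = (v.comap σ).ev f ^ q := by
  apply v.ev_unique
  rw [← hσ, ← map_sub]
  exact (v.comap σ).ev_spec hf

/-- Values and `𝕜`-automorphisms. -/
theorem Place.ev_comap_alg (v : Place 𝕜 E) (σ : E ≃ₐ[𝕜] E) {f : E}
    (hf : 0 ≤ (v.comap (σ : E ≃+* E)).ord f) : v.ev (σ f) = (v.comap (σ : E ≃+* E)).ev f := by
  apply v.ev_unique
  rw [← σ.commutes ((v.comap (σ : E ≃+* E)).ev f), ← map_sub]
  exact (v.comap (σ : E ≃+* E)).ev_spec hf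

end MP7Z
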