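import Pool.Agent.Lib.MP_7f581e_Z.Interface
import Pool.Agent.Lib.MP_7f581e_Z.BR.Val

/-!
# Package BR: bridge between `Ω` (separable closure of `𝔽_p(x)`) and places of curve fields

Each `def XStmt : Prop` below is one Lean task: file `BR/X.lean`, import only this file (and files
named in the task), `theorem tX : XStmt`; statements listed under *Uses* are hypotheses
`(h : YStmt)`.  Complete proofs are in the docstrings.

Notation of the docstrings: `𝔽 = Cst p Ω`; `Γ_K = Fx p K` (it fixes `K` pointwise, so also `𝔽` if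
`K ⊇ 𝔽`); `D_V = Dec p V`.
-/

namespace MP7Z

section

variable {p : ℕ} [Fact p.Prime] {Ω : Type} [Field Ω] [Algebra (ZMod p) Ω]

/-- A *level*: a subfield of `Ω` which contains the constants and `x`, and is finitely generated
over the constants.  (These are the finite extensions of `𝔽(x)` in `Ω`.) -/
structure IsLevel (p : ℕ) [Fact p.Prime] {Ω : Type} [Field Ω] [Algebra (ZMod p) Ω] (x : Ω)
    (K : IntermediateField (Cst p Ω) Ω) : Prop where
  mem : x ∈ K
  fg : K.FG

/-- The place `v` of `K` lies below the valuation ring `V` of `Ω`. -/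
def Below {K : IntermediateField (Cst p Ω) Ω} (v : Place (Cst p Ω) K) (V : ValuationSubring Ω) :
    Prop :=
  ∀ f : K, 0 ≤ v.ord f ↔ (f : Ω) ∈ V

end

/-- **Cst.** The constants are algebraically closed.

*Proof.*  Let `P` be a monic irreducible polynomial over `𝔽 = Cst p Ω`.  `𝔽` is algebraic over the
finite field `ZMod p`, hence perfect (`Algebra.IsAlgebraic.perfectField` or: every element of `𝔽` lies
in a finite field and so is a `p`-th power), so `P` is separable; `Ω` is separably closed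
(`IsStage.sepClosed`), so `P` has a root `a` in `Ω` (`IsSepClosed.exists_root` for the image of `P`).
`a` is algebraic over `𝔽`, hence over `ZMod p` (`IsAlgebraic` transitivity), hence
`a ∈ algebraicClosure (ZMod p) Ω = 𝔽`.  Conclude with `IsAlgClosed.of_exists_root`. -/
def CstStmt : Prop :=
  ∀ (p : ℕ) [Fact p.Prime] (Ω : Type) [Field Ω] [Algebra (ZMod p) Ω] (x : Ω), IsStage p x →
    IsAlgClosed (Cst p Ω)

/-- **Lvl.** Levels are function fields of curves over the constants, and `x` is a separating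
element.  Every finite set is contained in a level.

*Proof.*  `x` is transcendental over `ZMod p` and `𝔽` is algebraic over `ZMod p`, so `x` is transcendental
over `𝔽` (`Transcendental` and towers: if `x` were algebraic over `𝔽`, it would be algebraic over
`ZMod p`).  Every element of `Ω` is separable over `adjoin (ZMod p) {x}`, hence (the minimal polynomial
over a larger field divides it) over the subfield `𝔽(x)` of `K` (elements of `K` considered).  `K` is
finitely generated by `S`, all elements of `S` are algebraic over `𝔽(x)`, so `K` is finite over `𝔽(x)`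
(`finite_of_essFiniteType_of_isAlgebraic` as in `Crv/Places.finite_adjoin`, or
`IntermediateField.finiteDimensional_adjoin`).  For the last claim take
`K = adjoin (Cst p Ω) (insert x S)`. -/
def LvlStmt : Prop :=
  ∀ (p : ℕ) [Fact p.Prime] (Ω : Type) [Field Ω] [Algebra (ZMod p) Ω] (x : Ω), IsStage p x →
    (∀ (K : IntermediateField (Cst p Ω) Ω) (hK : IsLevel p x K), IsCurveField (Cst p Ω) K ∧
      Transcendental (Cst p Ω) (⟨x, hK.mem⟩ : K) ∧
      Algebra.IsSeparable (IntermediateField.adjoin (Cst p Ω) {(⟨x, hK.mem⟩ : K)}) K) ∧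
    ∀ S : Finset Ω, ∃ K : IntermediateField (Cst p Ω) Ω, IsLevel p x K ∧ ∀ s ∈ S, s ∈ K

/-- **Bel.** Existence and uniqueness of the place below `V`.

*Proof.*  Existence: `W = V ∩ K` as a valuation subring of `K` (`V.comap (algebraMap K Ω)`).  It contains
the constants: a constant `c ≠ 0` is algebraic over the finite field `ZMod p`, so `c` is a root of
unity, and roots of unity lie in every valuation ring (`c` or `c⁻¹` lies in `V`, and each is a power of
the other).  `W ≠ ⊤`: otherwise `K ⊆ V`, every element of `Ω` is integral over `K`, and `V` is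
integrally closed, so `V = ⊤`.  Apply `exists_place_of_valuationSubring` (`Crv/Places`), with the
instances from *Lvl* and *Cst*.  Uniqueness: `place_eq`.  Third claim: for `f ≠ 0`, `V.valuation f < 1`
iff `f⁻¹ ∉ V` iff not `0 ≤ v.ord f⁻¹` iff `0 < v.ord f`; for `f = 0` both hold.
*Uses*: Cst, Lvl. -/
def BelStmt : Prop :=
  ∀ (p : ℕ) [Fact p.Prime] (Ω : Type) [Field Ω] [Algebra (ZMod p) Ω] (x : Ω), IsStage p x →
    ∀ (K : IntermediateField (Cst p Ω) Ω), IsLevel p x K → ∀ V : ValuationSubring Ω, V ≠ ⊤ →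
      ∃ v : Place (Cst p Ω) K, Below v V ∧ (∀ w : Place (Cst p Ω) K, Below w V → w = v) ∧
        ∀ f : K, 0 < v.ord f ↔ V.valuation (f : Ω) < 1

/-- **Abv.** Every place of a level is below some valuation ring of `Ω`.

*Proof.*  Let `A ⊂ K` be the valuation ring of `v` (`Place.ring`), a local subring of `K`, hence of `Ω`
(map it into `Ω`).  By Zorn (Mathlib: `LocalSubring.exists_le_valuationSubring` or
`LocalSubring.isMax_iff` with `exists_valuationRing_of_isMax`) there is a valuation subring `V` of `Ω`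
dominating it: `A ⊆ V` and the maximal ideal of `A` is mapped into the maximal ideal of `V`.  If
`f ∈ K`, `f ∈ V`, `f ∉ A` then `f⁻¹` is in the maximal ideal of `A`, so `V.valuation f⁻¹ < 1`, so
`f ∉ V`, contradiction; hence `Below v V`.  `V ≠ ⊤` because `K` contains an `f` with `v.ord f < 0`. -/
def AbvStmt : Prop :=
  ∀ (p : ℕ) [Fact p.Prime] (Ω : Type) [Field Ω] [Algebra (ZMod p) Ω] (x : Ω), IsStage p x →
    ∀ (K : IntermediateField (Cst p Ω) Ω), IsLevel p x K → ∀ v : Place (Cst p Ω) K,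
      ∃ V : ValuationSubring Ω, V ≠ ⊤ ∧ Below v V

/-- **Fin.** Conjugacy at finite level: `N / K` a finite Galois extension of curve fields; places of
`N` with the same restriction to `K` are conjugate.

*Proof.*  Let `w, w'` be places of `N` with the same restriction `v` to `K` and suppose that `w'` is not
of the form `w.comap σ`, `σ ∈ Gal(N/K)`.  By weak approximation (`places_approx'` / `strong_approx`; for
finitely many places: those over `v`, finitely many by `exists_places_over_aux`) there is `f ∈ N` with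
`w'.ord f > 0`, `u.ord (f - 1) > 0` for the finitely many places `u = w.comap σ`, and
`0 ≤ u.ord f` for the other places `u` over `v`.  Let `a = ∏_σ σ f = norm ∈ K`.  Then `w'.ord a > 0`
(all factors `σ f` satisfy `w'.ord (σ f) = (w'.comap σ).ord f ≥ 0`, the factor `σ = 1` is `> 0`), so
`v.ord a > 0`; but `w.ord a = Σ_σ (w.comap σ).ord f = 0`, so `v.ord a = 0`, contradiction.  (To obtain
`f` from `places_approx`: it gives for a place `v₀` and a finite set `S ∌ v₀` an element close to 1 at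
`v₀` and of positive order at `S`; products and sums give what is needed: for each `u₀ = w.comap σ`
choose `f_{u₀}` close to `1` at `u₀` and with positive order at all the other places over `v`; let `f` be
the sum of the `f_{u₀}` over the distinct `u₀`.) -/
def FinStmt : Prop :=
  ∀ (𝕜 K N : Type) [Field 𝕜] [IsAlgClosed 𝕜] [Field K] [Algebra 𝕜 K] [IsCurveField 𝕜 K]
    [Field N] [Algebra 𝕜 N] [IsCurveField 𝕜 N] [Algebra K N] [IsScalarTower 𝕜 K N]
    [Module.Finite K N] [IsGalois K N] (w w' : Place 𝕜 N), w.res K = w'.res K →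
    ∃ σ : N ≃ₐ[K] N, w' = w.comap (σ : N ≃+* N)

/-- **FinRam.** Inertia groups at finite level: the number of `σ ∈ Gal(N/K)` which preserve `w` is
the ramification index of `w`.

*Proof.*  Let `v = w.res K`, `G = Gal(N/K)`, `S` the set of places over `v`.  By *Fin* `G` acts
transitively on `S`, all `u ∈ S` have the same ramification index `e` (`Place.res_comap`), and
`Σ_{u ∈ S} e = [N:K] = |G|` (`exists_places_over_aux`, whose set contains all places over `v`, with
`Place.res_eq`).  So `|S| e = |G|` and `|S| = |G| / |Stab w|`, whence `e = |Stab w|`.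
*Uses*: Fin. -/
def FinRamStmt : Prop :=
  ∀ (𝕜 K N : Type) [Field 𝕜] [IsAlgClosed 𝕜] [Field K] [Algebra 𝕜 K] [IsCurveField 𝕜 K]
    [Field N] [Algebra 𝕜 N] [IsCurveField 𝕜 N] [Algebra K N] [IsScalarTower 𝕜 K N]
    [Module.Finite K N] [IsGalois K N] (w : Place 𝕜 N),
    Nat.card {σ : N ≃ₐ[K] N // w.comap (σ : N ≃+* N) = w} = w.ram K

/-- **Conj.** Conjugacy of valuation rings of `Ω` with the same trace on a level.

*Proof.*  `Ω / K` is Galois (algebraic, separable, and normal because `Ω` is separably closed).  For a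
finite Galois subextension `N / K` of `Ω` (also a level) let `C_N ⊂ Gal(Ω/K)` be the set of `γ` with
`γ f ∈ V' ↔ f ∈ V` for all `f ∈ N`.  `C_N` is not empty by *Fin* (the places of `N` below `V` and `V'`
have the same restriction to `K`, so they are conjugate under `Gal(N/K)`; lift `σ` to `Ω`), it is closed
(a union of cosets of the open subgroup `Gal(Ω/N)`), and the family is directed (`C_{N N'} ⊆ C_N ∩ C_N'`).
`Gal(Ω/K)` is compact in the Krull topology, so some `γ` lies in all `C_N`; every `f ∈ Ω` lies in some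
`N`.  (Mathlib: `IsCompact.nonempty_iInter_of_directed_nonempty_isCompact_isClosed`, and
`Gal(Ω/K)` is profinite: `krullTopology`, `InfiniteGalois`.  Alternatively apply Zorn / the profinite
version in `Mathlib.RingTheory.Invariant.Profinite`.)
*Uses*: Cst, Lvl, Bel, Fin. -/
def ConjStmt : Prop :=
  ∀ (p : ℕ) [Fact p.Prime] (Ω : Type) [Field Ω] [Algebra (ZMod p) Ω] (x : Ω), IsStage p x →
    ∀ (K : IntermediateField (Cst p Ω) Ω), IsLevel p x K → ∀ V V' : ValuationSubring Ω, V ≠ ⊤ →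
      V' ≠ ⊤ → (∀ f ∈ K, f ∈ V ↔ f ∈ V') →
      ∃ γ ∈ Fx p (K : Set Ω), ∀ f, γ f ∈ V' ↔ f ∈ V

/-- **Res.** Values at `V`: constants are units, every element of `V` has a unique residue in the
constants, and an automorphism in `D_V` which acts on the constants as `c ↦ c ^ Q` acts on the residues
in the same way (`Q = 1` for inertia).

*Proof.*  Constants: as in *Bel* (roots of unity).  Residue of `u ∈ V`: take a level `K ∋ u` (*Lvl*), its
place `v` below `V` (*Bel*), and `exists_const`; translate with the third claim of *Bel*; uniqueness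
because nonzero constants have valuation `1`.  Last claim: `u = c + m`, `V.valuation m < 1`,
`γ u - u ^ Q = (γ c - c ^ Q) + γ m - (u ^ Q - c ^ Q)`; `γ c = c ^ Q`; `V.valuation (γ m) < 1` because
`m⁻¹ ∉ V` (or `m = 0`) gives `γ m⁻¹ ∉ V`; and `u ^ Q - c ^ Q` is divisible by `u - c = m` in `V`.
*Uses*: Cst, Lvl, Bel. -/
def ResStmt : Prop :=
  ∀ (p : ℕ) [Fact p.Prime] (Ω : Type) [Field Ω] [Algebra (ZMod p) Ω] (x : Ω), IsStage p x →
    ∀ V : ValuationSubring Ω, V ≠ ⊤ →
      (∀ c ∈ Cst p Ω, c ∈ V) ∧ (∀ c ∈ Cst p Ω, c ≠ 0 → V.valuation c = 1) ∧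
      (∀ u ∈ V, ∃ c ∈ Cst p Ω, V.valuation (u - c) < 1 ∧
        ∀ c' ∈ Cst p Ω, V.valuation (u - c') < 1 → c' = c) ∧
      ∀ (Q : ℕ) (γ : Ω ≃ₐ[ZMod p] Ω), γ ∈ Dec p V → (∀ c ∈ Cst p Ω, γ c = c ^ Q) →
        ∀ u ∈ V, V.valuation (γ u - u ^ Q) < 1

/-- **KumU.** Kummer elements with order divisible by `n` are fixed by inertia.

*Proof.*  Let `π ∈ K` have `v.pord π = 1`, `v.pord z = n k`, `y = Z / π ^ k` (`zpow`), `y ^ n = z π^{-nk}` has
order `0`, so `y` and `y⁻¹` lie in `V` (`V.valuation (y ^ n) = 1` implies `V.valuation y = 1`).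
`γ y = ξ y` with `ξ ^ n = 1`, since `γ` fixes `y ^ n ∈ K`; `ξ` is algebraic over `ZMod p`, a constant.
By *Res* (`Q = 1`; `γ` fixes `K ⊇ 𝔽`) `V.valuation (γ y - y) < 1`, so `V.valuation (ξ - 1) < 1`, and so
`ξ = 1` (constants).  Hence `γ Z = γ (y π ^ k) = Z`.
*Uses*: Cst, Lvl, Bel, Res. -/
def KumUStmt : Prop :=
  ∀ (p : ℕ) [Fact p.Prime] (Ω : Type) [Field Ω] [Algebra (ZMod p) Ω] (x : Ω), IsStage p x →
    ∀ (K : IntermediateField (Cst p Ω) Ω), IsLevel p x K → ∀ V : ValuationSubring Ω, V ≠ ⊤ →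
    ∀ v : Place (Cst p Ω) K, Below v V → ∀ (n : ℕ), 0 < n → ∀ (z : K), z ≠ 0 →
      (n : ℤ) ∣ v.pord z → ∀ Z : Ω, Z ^ n = (z : Ω) →
      ∀ γ ∈ Fx p (K : Set Ω) ⊓ Dec p V, γ Z = Z

/-- **KumR.** Kummer elements of order prime to `ℓ` are moved by inertia, by every `ℓ`-th root of unity.

*Proof.*  Let `K' = K(Z)`, a level.  `[K':K] = ℓ` and more precisely: every element of `K'` is
`Σ_{i<ℓ} a_i Z^i`, `a_i ∈ K`.  For any valuation ring `V'` of `Ω` with the same trace on `K` as `V`, with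
the valuation normalized to extend `v` (work with the place `w` of `K'` below `V'` and its ramification
index `e` over `K`): `ℓ · w.pord Z = e · v.pord z`, so `ℓ ∣ e`; the orders `e v.pord a_i + i w.pord Z`
(`a_i ≠ 0`) are pairwise distinct (if equal for `i, j` then `e ∣ (i - j) w.pord Z`, multiply by `ℓ`: `e ℓ ∣
(i-j) e v.pord z`, `ℓ ∣ i - j`), so `w.ord (Σ a_i Z^i)` is the minimum, and its sign is determined by
`v`: `0 ≤ w.ord (Σ a_i Z^i)` iff for all `i`: `0 ≤ ℓ v.pord a_i + i v.pord z`.  Hence `V` and `V'` have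
the same trace on `K'`.  Let `ζ ∈ 𝔽` be an `ℓ`-th root of unity.  `X^ℓ - z` is irreducible over `K`
(otherwise `z` would be an `ℓ`-th power in `K`, `ℓ ∣ v.pord z`; Mathlib: `X_pow_sub_C_irreducible_of_prime`), so
there is `σ ∈ Gal(K'/K)` with `σ Z = ζ Z`; lift `σ` to `γ ∈ Γ_K` (`Ω/K` normal).  `V' = γ V`
(`{γ f | f ∈ V}`) has the same trace on `K` as `V`, hence on `K'`; by *Conj* for `K'` there is
`γ' ∈ Γ_{K'}` with `γ' V' = V`.  Then `γ' γ ∈ Γ_K ∩ D_V` and `γ' γ Z = γ' (ζ Z) = ζ Z`.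
*Uses*: Cst, Lvl, Bel, Conj. -/
def KumRStmt : Prop :=
  ∀ (p : ℕ) [Fact p.Prime] (Ω : Type) [Field Ω] [Algebra (ZMod p) Ω] (x : Ω), IsStage p x →
    ∀ (K : IntermediateField (Cst p Ω) Ω), IsLevel p x K → ∀ V : ValuationSubring Ω, V ≠ ⊤ →
    ∀ v : Place (Cst p Ω) K, Below v V → ∀ (ℓ : ℕ), ℓ.Prime → ℓ ≠ p → ∀ (z : K), z ≠ 0 →
      ¬ (ℓ : ℤ) ∣ v.pord z → ∀ Z : Ω, Z ^ ℓ = (z : Ω) →
      ∀ ζ : Ω, ζ ^ ℓ = 1 → ∃ γ ∈ Fx p (K : Set Ω) ⊓ Dec p V, γ Z = ζ * Z

/-- **Cyc.** Tame cyclicity: the image of inertia in a finite group of order prime to `p` is cyclic.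

*Proof.*  Let `D = Γ_K ∩ D_V`; `ρ` is trivial on the elements fixing the finite set `S`.  Let `N ⊂ Ω` be
the normal closure of `K(S)` over `K`, a level, finite Galois over `K`, stable under `Γ_K`; `w` its
place below `V`, `Π ∈ N` with `w.pord Π = 1`.  For `γ ∈ D`: `w.pord (γ Π) = 1`, and let `θ(γ) ∈ 𝔽` be the
residue (*Res*) of `γ Π / Π`; `θ : D → 𝔽^*` is a homomorphism because `γ` acts trivially on residues.
CLAIM: if `θ(γ) = 1` then `ρ(γ) = 1`.  Let `m` be the order of `ρ(γ)`, prime to `p`; `γ|N` has finite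
order `p^a m'`, `p ∤ m'`; replace `γ` by `γ^{p^b}` with `b ≥ a` and `p^b ≡ 1 mod m` (this does not
change `ρ(γ)` and keeps `θ(γ) = 1`); then the order `m'` of `γ|N` is prime to `p`.  Suppose `γ y ≠ y` for
some `y ∈ N`; multiplying with a power of `Π`... choose instead: `y₁ = m' y - Σ_{i<m'} γ^i y`; since the
sum is fixed by `γ` and `m' ≠ 0` in `Ω`, `γ y₁ ≠ y₁`, so `y₁ ≠ 0`, and `Σ_{i<m'} γ^i y₁ = 0`.  Let
`k = w.pord y₁`, `y₁ = Π^k u`, `w.pord u = 0`.  `γ^i y₁ / y₁ = (γ^i Π/Π)^k · (γ^i u / u)` has residue `1`.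
So `0 = Σ_i γ^i y₁ / y₁` has residue `m' ≠ 0`, contradiction.  So `γ` is trivial on `N ⊇ S` and
`ρ(γ) = 1`.  CONCLUSION: `θ(D)` is a finite (it factors through the finite group `D|N`) subgroup of
`𝔽^*`, hence cyclic, generated by `θ(g₀)`; for `γ ∈ D` there is `a ∈ ℕ` with `θ(γ) = θ(g₀)^a`, so
`θ(γ g₀^{-a}) = 1`, `ρ(γ) = ρ(g₀)^a`.
*Uses*: Cst, Lvl, Bel, Res. -/
def CycStmt : Prop :=
  ∀ (p : ℕ) [Fact p.Prime] (Ω : Type) [Field Ω] [Algebra (ZMod p) Ω] (x : Ω), IsStage p x →
    ∀ (K : IntermediateField (Cst p Ω) Ω), IsLevel p x K → ∀ V : ValuationSubring Ω, V ≠ ⊤ →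
    ∀ (A : Type) [Group A] [Finite A], (Nat.card A).Coprime p →
    ∀ ρ : (Fx p (K : Set Ω) ⊓ Dec p V : Subgroup (Ω ≃ₐ[ZMod p] Ω)) →* A, FinLevel ρ →
      ∃ g₀, ∀ γ, ∃ a : ℕ, ρ γ = ρ g₀ ^ a

/-- **Frb.** There is a Frobenius element in the absolute Galois group of `𝔽_p(x)`: it fixes `x` and
induces `c ↦ c ^ p` on the constants.  For every finite set `S` some positive power of any such element
fixes `S`.

*Proof.*  `F₀ = adjoin (ZMod p) {x}`; `Ω / F₀` is Galois.  Consider `L = F₀(𝔽) = 𝔽(x) ⊂ Ω`.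
`𝔽(x)` is the fraction field of `𝔽[x]`, a polynomial ring; `Σ c_i x^i ↦ Σ c_i^p x^i` is an automorphism
of it over `F₀` (the Frobenius of the perfect field `𝔽` is bijective), so it extends to an `F₀`-algebra
automorphism of the fraction field `L`; extend to `Ω` (`AlgEquiv.liftNormal` / `IsAlgClosed`-type
lifting for normal extensions).  Alternatively (no polynomial rings): `𝔽` and `F₀` are linearly
disjoint over `ZMod p`, so the restriction `Gal(L/F₀) → Gal(𝔽/ZMod p)` is an isomorphism; or by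
compactness.  Second claim: each `s ∈ S` is algebraic over `F₀`, `φ` permutes the finite set of roots of
its minimal polynomial in `Ω`, so `φ^{n!} s = s`, `n` the degree; multiply these exponents.
*Uses*: Cst. -/
def FrbStmt : Prop :=
  ∀ (p : ℕ) [Fact p.Prime] (Ω : Type) [Field Ω] [Algebra (ZMod p) Ω] (x : Ω), IsStage p x →
    (∃ φ ∈ Gx p x, ∀ c ∈ Cst p Ω, φ c = c ^ p) ∧
    ∀ φ ∈ Gx p x, ∀ S : Finset Ω, ∃ n : ℕ, 0 < n ∧ ∀ s ∈ S, (φ ^ n) s = s

/-- **FrbK.** A Frobenius lift which preserves a level induces a Frobenius structure on it.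

*Proof.*  `φ` is the restriction of `φ'` (bijective on `K` by the two inclusions).  `IsFrob`: `q = p^a` is a
prime power and is `0` in `Cst p Ω` (characteristic `p`); `frob`: by hypothesis; `fin`: second part of
*Frb* with `S = {f}`; `sep`: the element `⟨x, _⟩` and *Lvl*.
*Uses*: Cst, Lvl, Frb. -/
def FrbKStmt : Prop :=
  ∀ (p : ℕ) [Fact p.Prime] (Ω : Type) [Field Ω] [Algebra (ZMod p) Ω] (x : Ω), IsStage p x →
    ∀ (K : IntermediateField (Cst p Ω) Ω), IsLevel p x K → ∀ (a : ℕ), 0 < a →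
    ∀ φ' ∈ Gx p x, (∀ c ∈ Cst p Ω, φ' c = c ^ (p ^ a)) → (∀ f ∈ K, φ' f ∈ K) →
      (∀ f ∈ K, φ'⁻¹ f ∈ K) →
      ∃ φ : K ≃+* K, (∀ f : K, ((φ f : K) : Ω) = φ' (f : Ω)) ∧ IsFrob (Cst p Ω) (p ^ a) φ

/-- **Spl.** Totally split places: for every `ψ` of finite level on `Gal(𝔽_p(x))` with finite target and
every finite set `T` of nonzero elements of `Ω` there is a finite place `V` at which all elements of `T`
are units and whose decomposition group in `Gal(𝔽_p(x))` is killed by `ψ`.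

*Proof.*  Let `F₀ = 𝔽_p(x) ⊂ Ω`, `F` the fixed field of `ker ψ`, a finite Galois extension of `F₀` (`ψ` has
finite level).  `F = F₀(α)`, `α` integral over `R = 𝔽_p[x]` (multiply by a denominator), with monic
minimal polynomial `f(Y) ∈ R[Y]` of degree `n` (`R` is integrally closed), roots `α = α_1, …, α_n ∈ F`,
distinct.  If `n = 1` the condition on `ψ` is empty: only `T` matters; treat `n = 1` with `f = Y - 0`,
that is `α = 0`, in the same way, or separately: choose a prime polynomial not dividing finitely many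
nonzero elements.  For `n ≥ 2`, `f(0) ≠ 0`.  For each `t ∈ T` let `P_t(Y) = Σ b_i Y^i ∈ R[Y]` be a polynomial
of degree `d` with `P_t(t) = 0`, `b_0 ≠ 0`, `b_d ≠ 0` (minimal polynomial over `F₀`, denominators cleared).
Let `D ∈ R` be the product of `x`, `f(0)`, `disc f = ∏_{i≠j}(α_i - α_j)`, and of all `b_0 b_d` for `t ∈ T`:
`D ≠ 0`.  For `g ∈ R` put `h = f(0) D g`; `f(h) = f(0)(1 + D s)` with `s ∈ R`; for `deg g` large `deg f(h) =
n deg h > deg f(0)`, so `1 + D s` is not constant and has a monic irreducible factor `π`, prime to `D`.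
`f(h) = ∏ (h - α_i)`.  Let `V` be a valuation ring of `Ω` dominating the localization of `R` at `π`
(existence as in *Abv*): `x ∈ V`, `V.valuation π < 1`, `V.valuation D = 1`.  All `α_i ∈ V` (integral);
`V.valuation (∏ (h - α_i)) < 1`, so `V.valuation (h - α_i) < 1` for some `i`.  Let `γ ∈ Gx ∩ D_V`: `γ h = h`
(`h ∈ R`), so `V.valuation (h - γ α_i) < 1`, `V.valuation (α_i - γ α_i) < 1`; if `γ α_i ≠ α_i` this
contradicts `V.valuation (disc f) = 1`.  So `γ α_i = α_i`, and `F = F₀(α_i)` is fixed by `γ`, so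
`γ ∈ ker ψ` (Galois correspondence: `ker ψ` is closed in `Gal(Ω/F₀)`).  For `t ∈ T`: `Σ b_i t^i = 0` with
`b_0, b_d` units of `V`, all `b_i ∈ V`, implies `V.valuation t = 1`.
*Uses*: Cst (not really), general facts on `ValuationSubring`. -/
def SplStmt : Prop :=
  ∀ (p : ℕ) [Fact p.Prime] (Ω : Type) [Field Ω] [Algebra (ZMod p) Ω] (x : Ω), IsStage p x →
    ∀ (G : Type) [Group G] [Finite G] (ψ : Gx p x →* G), FinLevel ψ →
    ∀ T : Finset Ω, (∀ t ∈ T, t ≠ 0) →
      ∃ V : ValuationSubring Ω, V ≠ ⊤ ∧ x ∈ V ∧ (∀ t ∈ T, V.valuation t = 1) ∧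
        ∀ γ : Gx p x, (γ : Ω ≃ₐ[ZMod p] Ω) ∈ Dec p V → ψ γ = 1

/-- **BC.** Base change `x = x' ^ n`, `p ∤ n`: everything is preserved.

*Proof.*  `IsStage p x'`: `x'` is transcendental (`x` is algebraic over `ZMod p (x')`); `Ω` is separable
over `adjoin {x} ⊆ adjoin {x'}`.  `Gx x' ≤ Gx x`.  Finite level: the same set.  (S): if `V` is `r`-bad for
`x'` it is `r`-bad for `x` (`V.valuation x = V.valuation x' ^ n < 1`; `x ^ m - 1` is divisible by
`x' ^ m - 1` in `V`).  REGULARITY: let `g ∈ G`, `γ ∈ Gx ∩ Γ_𝔽` with `ψ γ = g`.  Let `V` be a zero of `x`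
(*Abv* for the level `𝔽(x)` and its place at `0`, `exists_ord_pos` with `c = 0`).  Put
`D = Γ_{𝔽(x)} ∩ D_V`.  STEP 1: for every `ζ` with `ζ ^ n = 1` some `δ ∈ D` has `δ x' = ζ x'`: this is
*KumR* with `ℓ` replaced by `n`: by induction on `n` over the prime factors, or directly: `K = 𝔽(x)`,
`K' = 𝔽(x')`, the only place of `𝔽(x')` over `x = 0` is `x' = 0`, so for `γ₁ ∈ Γ_{𝔽(x)}` with
`γ₁ x' = ζ x'` (exists, `X^n - x` is irreducible over `𝔽(x)`) `V` and `γ₁ V` have the same trace on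
`𝔽(x')` (both are zeros of `x'`, and `𝔽(x')` has only one place with `x' = 0`); *Conj* gives
`γ₂ ∈ Γ_{𝔽(x')}` with `γ₂ γ₁ ∈ D_V`.  STEP 2: `ψ(δ)` has order a power of `p`, for all `δ ∈ D`, by (S)
(`V` is `r`-bad for all `r`).  STEP 3: `γ x' = ζ x'` for some `ζ`, `ζ ^ n = 1`; `δ` as in step 1; let `p^s`
be the order of `ψ(δ)`, choose `k` with `k ≡ 1 mod n`, `k ≡ 0 mod p^s` (`n` prime to `p`); `δ^k x' = ζ^k x'
= ζ x'` (`δ` fixes constants), `ψ(δ^k) = 1`.  Then `γ' = γ δ^{-k}`: `γ' x' = γ (ζ^{-1} x') = x'`, `γ'`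
fixes `𝔽`, `ψ(γ') = g`.
*Uses*: Cst, Lvl, Bel, Abv, Conj, Res. -/
def BCStmt : Prop :=
  ∀ (p : ℕ) [Fact p.Prime] (Ω : Type) [Field Ω] [Algebra (ZMod p) Ω] (x : Ω), IsStage p x →
    ∀ (x' : Ω) (n : ℕ), n.Coprime p → x' ^ n = x →
      IsStage p x' ∧ ∃ hle : Gx p x' ≤ Gx p x,
      (∀ (ℓ : ℕ) (V : ValuationSubring Ω), BadV ℓ x' V → BadV ℓ x V) ∧
      ∀ (G : Type) [Group G] [Finite G] (ψ : Gx p x →* G), GoodR p x ψ →
        GoodR p x' (ψ.comp (Subgroup.inclusion hle))

/-- **Gal.** Galois correspondence for levels: a subgroup of `Γ_{𝔽(x)}` which contains the pointwise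
stabilizer of a finite set (and the constants, and `x`) is `Γ_K` for a level `K`, namely for its fixed
field; an automorphism normalizing the subgroup preserves `K`.

*Proof.*  Let `K₀ = 𝔽(x)`, `N ⊂ Ω` the normal closure of `K₀(S)`, finite Galois over `K₀`, a level, and
`H ⊇ Γ_N`.  `K` = elements of `Ω` fixed by `H`.  `K ⊆ N` because `Ω^{Γ_N} = N` (`Ω/N` is Galois).  So `K` is
finitely generated over `𝔽` (it is finite over `K₀`).  `Γ_K = H`: finite Galois theory in `N / K₀`: the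
image `H_N` of `H` in `Gal(N/K₀)` is a subgroup with fixed field `K`, so `H_N = Gal(N/K)`
(`IntermediateField.fixingSubgroup_fixedField`); `γ ∈ Γ_K` restricts to `N` as some `h ∈ H`,
`h⁻¹ γ ∈ Γ_N ⊆ H`.  (Or directly Mathlib's infinite Galois correspondence: an open subgroup is closed.)
Last claim: `f ∈ K`, `h (τ f) = τ (τ⁻¹ h τ) f = τ f`.
*Uses*: Cst, Lvl. -/
def GalStmt : Prop :=
  ∀ (p : ℕ) [Fact p.Prime] (Ω : Type) [Field Ω] [Algebra (ZMod p) Ω] (x : Ω), IsStage p x →
    ∀ (H : Subgroup (Ω ≃ₐ[ZMod p] Ω)) (S : Finset Ω), H ≤ Fx p (insert x (Cst p Ω : Set Ω)) →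
      Fx p (insert x (Cst p Ω : Set Ω) ∪ S) ≤ H →
      ∃ K : IntermediateField (Cst p Ω) Ω, IsLevel p x K ∧ Fx p (K : Set Ω) = H ∧
        (∀ f : Ω, f ∈ K ↔ ∀ γ ∈ H, γ f = f) ∧
        ∀ τ : Ω ≃ₐ[ZMod p] Ω, (∀ h, h ∈ H ↔ τ * h * τ⁻¹ ∈ H) → ∀ f, f ∈ K ↔ τ f ∈ K

/-- **Ram.** Ramification indices between levels: `K ≤ K'`, `v, v'` below the same `V`; the index is `1` if
inertia over `K` fixes `K'`.

*Proof.*  `K'` is a finite extension of `K`; restriction of `v'` to `K` is `v` (*Bel*, uniqueness), so the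
first claim is `Place.res_eq` / `Place.pord_algebraMap_eq` of `BR/Res` for the algebra `K → K'`
(`IntermediateField.inclusion`; or repeat the 20 lines of `exists_ram`).  Second claim: let `N ⊇ K'` be a
level, finite Galois over `K`, `w` its place below `V`.  `e(w/v) = |Stab_{Gal(N/K)}(w)|` and
`e(w/v') = |Stab_{Gal(N/K')}(w)|` by *FinRam*.  Every `σ ∈ Gal(N/K)` with `w ∘ σ = w` is induced by an
element of `Γ_K ∩ D_V` (lift `σ` to `γ`, then `γ V` and `V` have the same trace on `N`, correct `γ` by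
*Conj* for `N`), which fixes `K'`; so `σ ∈ Gal(N/K')` and the two stabilizers are equal.  The indices are
multiplicative (compare on a uniformizer of `K`), so `e(v'/v) = 1`.
*Uses*: Cst, Lvl, Bel, Conj, FinRam. -/
def RamStmt : Prop :=
  ∀ (p : ℕ) [Fact p.Prime] (Ω : Type) [Field Ω] [Algebra (ZMod p) Ω] (x : Ω), IsStage p x →
    ∀ (K K' : IntermediateField (Cst p Ω) Ω) (hKK : K ≤ K'), IsLevel p x K → IsLevel p x K' →
    ∀ V : ValuationSubring Ω, V ≠ ⊤ → ∀ (v : Place (Cst p Ω) K) (v' : Place (Cst p Ω) K'),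
      Below v V → Below v' V →
      (∃ e : ℕ, 0 < e ∧ ∀ f : K, v'.pord ⟨(f : Ω), hKK f.2⟩ = e * v.pord f) ∧
      ((∀ γ ∈ Fx p (K : Set Ω) ⊓ Dec p V, γ ∈ Fx p (K' : Set Ω)) →
        ∀ f : K, v'.pord ⟨(f : Ω), hKK f.2⟩ = v.pord f)

end MP7Z
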