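import Pool.Agent.Lib.MP_7f581e_Z.BR.Spec

set_option autoImplicit false

/-! Base change `x = x' ^ n` with `n` prime to `p`. -/

namespace MP7Z

open Polynomial

theorem BC_inv {Ω : Type} [Field Ω] (V : ValuationSubring Ω) {a : Ω} (ha : a ≠ 0) :
    V.valuation a < 1 ↔ a⁻¹ ∉ V := by
  rw [← V.valuation_le_one_iff, map_inv₀, not_le]
  have h0 : 0 < V.valuation a := by
    rw [zero_lt_iff]
    exact (Valuation.ne_zero_iff _).2 ha
  rw [one_lt_inv₀ h0]

/-- The trace on `𝕜(t)` of a valuation ring with `v(t) < 1`. -/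
theorem BC_trace {𝕜 Ω : Type} [Field 𝕜] [IsAlgClosed 𝕜] [Field Ω] [Algebra 𝕜 Ω]
    (V V' : ValuationSubring Ω) (hC : ∀ c : 𝕜, c ≠ 0 → V.valuation (algebraMap 𝕜 Ω c) = 1)
    (hC' : ∀ c : 𝕜, c ≠ 0 → V'.valuation (algebraMap 𝕜 Ω c) = 1) {t : Ω} (ht0 : t ≠ 0)
    (ht : V.valuation t < 1) (ht' : V'.valuation t < 1)
    (f : Ω) (hf : f ∈ IntermediateField.adjoin 𝕜 {t}) : f ∈ V ↔ f ∈ V' := by
  obtain ⟨r, s, rfl⟩ := (IntermediateField.mem_adjoin_simple_iff 𝕜 _).1 hf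
  by_cases hr : aeval t r = 0
  · rw [hr, zero_div]
    exact ⟨fun _ => V'.zero_mem, fun _ => V.zero_mem⟩
  by_cases hs : aeval t s = 0
  · rw [hs, div_zero]
    exact ⟨fun _ => V'.zero_mem, fun _ => V.zero_mem⟩
  have hr0 : r ≠ 0 := by
    rintro rfl
    exact hr (map_zero _)
  have hs0 : s ≠ 0 := by
    rintro rfl
    exact hs (map_zero _)
  have key : ∀ W : ValuationSubring Ω,
      (∀ c : 𝕜, c ≠ 0 → W.valuation (algebraMap 𝕜 Ω c) = 1) → W.valuation t < 1 →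
      (aeval t r / aeval t s ∈ W ↔ s.natTrailingDegree ≤ r.natTrailingDegree) := by
    intro W hW hWt
    have h0 : 0 < W.valuation t := by
      rw [zero_lt_iff]
      exact (Valuation.ne_zero_iff _).2 ht0
    rw [← W.valuation_le_one_iff, map_div₀, places_val_aeval W.valuation hW ht0 hWt hr0,
      places_val_aeval W.valuation hW ht0 hWt hs0, div_le_one₀ (pow_pos h0 _)]
    exact pow_le_pow_iff_right_of_lt_one₀ h0 hWt
  rw [key V hC ht, key V' hC' ht']

variable {p : ℕ} [Fact p.Prime] {Ω : Type} [Field Ω] [Algebra (ZMod p) Ω]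

theorem BC_fix (γ : Ω ≃ₐ[ZMod p] Ω) (hγ : ∀ c ∈ Cst p Ω, γ c = c) {t : Ω} (ht : γ t = t)
    (f : Ω) (hf : f ∈ IntermediateField.adjoin (Cst p Ω) {t}) : γ f = f := by
  induction hf using IntermediateField.adjoin_induction with
  | mem x hx =>
    rw [Set.mem_singleton_iff] at hx
    rw [hx, ht]
  | algebraMap c => exact hγ _ c.2
  | add x y _ _ hx hy => rw [map_add, hx, hy]
  | inv x _ hx => rw [map_inv₀, hx]
  | mul x y _ _ hx hy => rw [map_mul, hx, hy]

theorem BC_isLevel (x x' : Ω) (n : ℕ) (h : x' ^ n = x) :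
    IsLevel p x (IntermediateField.adjoin (Cst p Ω) {x'}) where
  mem := by
    rw [← h]
    exact pow_mem (IntermediateField.mem_adjoin_simple_self _ _) n
  fg := IntermediateField.fg_adjoin_of_finite (Set.finite_singleton _)

theorem BC_bad {ℓ n : ℕ} (hn : n ≠ 0) {x x' : Ω} (h : x' ^ n = x) (V : ValuationSubring Ω)
    (hb : BadV ℓ x' V) : BadV ℓ x V := by
  rcases hb with h1 | ⟨m, hm, hml, h1⟩
  · left
    rw [← h, map_pow]
    exact pow_lt_one₀ zero_le' h1 hn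
  · right
    refine ⟨m, hm, hml, ?_⟩
    have hy : x' ^ m ∈ V := by
      have h2 : x' ^ m = (x' ^ m - 1) + 1 := by ring
      rw [h2]
      exact add_mem ((V.valuation_le_one_iff _).1 h1.le) V.one_mem
    have h3 : x ^ m - 1 = (∑ i ∈ Finset.range n, (x' ^ m) ^ i) * (x' ^ m - 1) := by
      rw [geom_sum_mul, ← h, ← pow_mul, ← pow_mul, mul_comm]
    have h4 : V.valuation (∑ i ∈ Finset.range n, (x' ^ m) ^ i) ≤ 1 := by
      rw [V.valuation_le_one_iff]
      exact sum_mem fun i _ => pow_mem hy i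
    rw [h3, map_mul]
    exact mul_lt_one_of_nonneg_of_lt_one_right h4 zero_le' h1

theorem BC_stage {x : Ω} (hst : IsStage p x) {x' : Ω} {n : ℕ} (h : x' ^ n = x) :
    IsStage p x' where
  sepClosed := hst.sepClosed
  transc := by
    intro ha
    apply hst.transc
    rw [← h]
    exact ha.pow n
  sep := by
    have hle : IntermediateField.adjoin (ZMod p) {x} ≤ IntermediateField.adjoin (ZMod p) {x'} := by
      rw [IntermediateField.adjoin_simple_le_iff, ← h]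
      exact pow_mem (IntermediateField.mem_adjoin_simple_self _ _) n
    letI : Algebra (IntermediateField.adjoin (ZMod p) {x})
        (IntermediateField.adjoin (ZMod p) {x'}) := (IntermediateField.inclusion hle).toAlgebra
    haveI : IsScalarTower (IntermediateField.adjoin (ZMod p) {x})
        (IntermediateField.adjoin (ZMod p) {x'}) Ω := IsScalarTower.of_algebraMap_eq fun _ => rfl
    haveI := hst.sep
    exact Algebra.isSeparable_tower_top_of_isSeparable (IntermediateField.adjoin (ZMod p) {x})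
      (IntermediateField.adjoin (ZMod p) {x'}) Ω

theorem tBC (hCst : CstStmt) (hLvl : LvlStmt) (hBel : BelStmt) (hAbv : AbvStmt)
    (hConj : ConjStmt) (hRes : ResStmt) : BCStmt := by
  intro p _ Ω _ _ x hst x' n hnp hx
  have hp : p.Prime := Fact.out
  have hn0 : n ≠ 0 := by
    rintro rfl
    rw [Nat.coprime_zero_left] at hnp
    exact hp.one_lt.ne' hnp
  have hst' := BC_stage hst hx
  have hle : Gx p x' ≤ Gx p x := by
    intro γ hγ
    rw [mem_Gx] at hγ ⊢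
    rw [← hx, map_pow, hγ]
  refine ⟨hst', hle, fun ℓ V hb => BC_bad hn0 hx V hb, ?_⟩
  intro G _ _ ψ hψ
  refine ⟨hst', ?_, ?_, ?_⟩
  · obtain ⟨S, hS⟩ := hψ.fin
    exact ⟨S, fun γ hγ => hS _ hγ⟩
  · -- regularity
    intro g
    obtain ⟨γ, hγC, hγg⟩ := hψ.reg g
    haveI : IsAlgClosed (Cst p Ω) := hCst p Ω x hst
    have hx0 : x ≠ 0 := by
      rintro rfl
      exact hst.transc isAlgebraic_zero
    have hx'0 : x' ≠ 0 := by
      rintro rfl
      exact hst'.transc isAlgebraic_zero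
    -- a zero of `x`
    obtain ⟨V, hVT, hVx⟩ : ∃ V : ValuationSubring Ω, V ≠ ⊤ ∧ V.valuation x < 1 := by
      have hK := BC_isLevel (p := p) x x 1 (pow_one x)
      obtain ⟨hcf, htr, hsep⟩ := (hLvl p Ω x hst).1 _ hK
      obtain ⟨v, hv⟩ := exists_ord_pos htr (0 : Cst p Ω)
      rw [map_zero, sub_zero] at hv
      obtain ⟨V, hV, hb⟩ := hAbv p Ω x hst _ hK v
      obtain ⟨v₀, _, h2, h3⟩ := hBel p Ω x hst _ hK V hV
      rw [h2 v hb] at hv
      exact ⟨V, hV, (h3 _).1 hv⟩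
    have hVx' : V.valuation x' < 1 := by
      by_contra hcon
      rw [not_lt] at hcon
      have h1 := one_le_pow₀ (n := n) hcon
      rw [← map_pow, hx] at h1
      exact absurd hVx (not_lt.2 h1)
    have hγx : (γ : Ω ≃ₐ[ZMod p] Ω) x = x := mem_Gx.1 γ.2
    -- the transported valuation ring
    set V₁ : ValuationSubring Ω := V.comap ((γ : Ω ≃ₐ[ZMod p] Ω).symm : Ω →+* Ω) with hV₁
    have hmem : ∀ f, f ∈ V₁ ↔ (γ : Ω ≃ₐ[ZMod p] Ω).symm f ∈ V := fun f => Iff.rfl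
    have hV₁T : V₁ ≠ ⊤ := by
      intro hT
      apply hVT
      rw [eq_top_iff]
      intro z _
      have h1 : (γ : Ω ≃ₐ[ZMod p] Ω) z ∈ V₁ := by
        rw [hT]
        trivial
      rw [hmem, AlgEquiv.symm_apply_apply] at h1
      exact h1
    have hV₁x' : V₁.valuation x' < 1 := by
      rw [BC_inv V₁ hx'0, hmem]
      intro h1
      have h2 := pow_mem h1 n
      rw [← map_pow, inv_pow, hx, map_inv₀] at h2
      have h3 : (γ : Ω ≃ₐ[ZMod p] Ω).symm x = x := by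
        rw [AlgEquiv.symm_apply_eq]
        exact hγx.symm
      rw [h3] at h2
      exact (BC_inv V hx0).1 hVx h2
    have hKl := BC_isLevel (p := p) x x' n hx
    have hR := hRes p Ω x hst V hVT
    have hR₁ := hRes p Ω x hst V₁ hV₁T
    have htrace : ∀ f ∈ IntermediateField.adjoin (Cst p Ω) {x'}, f ∈ V₁ ↔ f ∈ V := by
      intro f hf
      refine BC_trace (𝕜 := Cst p Ω) V₁ V ?_ ?_ hx'0 hV₁x' hVx' f hf
      · intro c hc
        exact hR₁.2.1 c c.2 fun h => hc (Subtype.ext h)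
      · intro c hc
        exact hR.2.1 c c.2 fun h => hc (Subtype.ext h)
    obtain ⟨γ₂, hγ₂, hγ₂V⟩ := hConj p Ω x hst _ hKl V₁ V hV₁T hVT htrace
    have hγ₂K : ∀ f ∈ IntermediateField.adjoin (Cst p Ω) {x'}, γ₂ f = f := fun f hf => hγ₂ f hf
    have hx'K : x' ∈ IntermediateField.adjoin (Cst p Ω) {x'} :=
      IntermediateField.mem_adjoin_simple_self _ _
    have hxK : x ∈ IntermediateField.adjoin (Cst p Ω) {x'} := hKl.mem
    have hCK : ∀ c ∈ Cst p Ω, c ∈ IntermediateField.adjoin (Cst p Ω) {x'} := fun c hc =>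
      (IntermediateField.adjoin (Cst p Ω) {x'}).algebraMap_mem (⟨c, hc⟩ : Cst p Ω)
    let δ : Gx p x := ⟨γ₂ * γ, by
      rw [mem_Gx]
      show γ₂ ((γ : Ω ≃ₐ[ZMod p] Ω) x) = x
      rw [hγx]
      exact hγ₂K x hxK⟩
    have hδ : ∀ f, (δ : Ω ≃ₐ[ZMod p] Ω) f = γ₂ ((γ : Ω ≃ₐ[ZMod p] Ω) f) := fun f => rfl
    have hδC : ∀ c ∈ Cst p Ω, (δ : Ω ≃ₐ[ZMod p] Ω) c = c := by
      intro c hc
      rw [hδ, hγC c hc]
      exact hγ₂K c (hCK c hc)
    have hδD : (δ : Ω ≃ₐ[ZMod p] Ω) ∈ Inert p V := by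
      refine ⟨hδC, ?_⟩
      intro f
      rw [hδ, hγ₂V, hmem, AlgEquiv.symm_apply_apply]
    -- the root of unity
    set ζ : Ω := (γ : Ω ≃ₐ[ZMod p] Ω) x' / x' with hζ
    have hζx : (γ : Ω ≃ₐ[ZMod p] Ω) x' = ζ * x' := by
      rw [hζ, div_mul_cancel₀ _ hx'0]
    have hζn : ζ ^ n = 1 := by
      rw [hζ, div_pow, ← map_pow, hx, hγx, div_self hx0]
    have hζC : ζ ∈ Cst p Ω := by
      show ζ ∈ algebraicClosure (ZMod p) Ω
      rw [mem_algebraicClosure_iff]
      refine IsAlgebraic.of_pow (Nat.pos_of_ne_zero hn0) ?_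
      rw [hζn]
      exact isAlgebraic_one
    have hδx' : (δ : Ω ≃ₐ[ZMod p] Ω) x' = ζ * x' := by
      rw [hδ, hζx]
      exact hγ₂K _ (mul_mem (hCK ζ hζC) hx'K)
    have hδk : ∀ k : ℕ, ((δ ^ k : Gx p x) : Ω ≃ₐ[ZMod p] Ω) x' = ζ ^ k * x' := by
      intro k
      induction k with
      | zero => simp
      | succ k ih =>
        rw [pow_succ']
        show (δ : Ω ≃ₐ[ZMod p] Ω) (((δ ^ k : Gx p x) : Ω ≃ₐ[ZMod p] Ω) x') = _
        rw [ih, map_mul, map_pow, hδC ζ hζC, hδx', pow_succ]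
        ring
    -- the order
    have hcop : n.Coprime (orderOf (ψ δ)) := by
      by_contra hcon
      rw [Nat.Prime.not_coprime_iff_dvd] at hcon
      obtain ⟨q, hq, hqn, hqm⟩ := hcon
      by_cases hqp : q = p
      · rw [hqp] at hqn
        have h1 := Nat.dvd_gcd hqn dvd_rfl
        rw [hnp] at h1
        exact hp.one_lt.ne' (Nat.dvd_one.1 h1)
      · exact hψ.inv q hq hqp V hVT (Or.inl hVx) δ hδD hqm
    obtain ⟨k, hk1, hk0⟩ := Nat.chineseRemainder hcop 1 0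
    have hζk : ζ ^ k = ζ := by
      have h1 : ζ ^ k = ζ ^ 1 := by
        rw [pow_eq_pow_mod k hζn, pow_eq_pow_mod 1 hζn]
        have h2 : k % n = 1 % n := hk1
        rw [h2]
      rw [h1, pow_one]
    have hψk : ψ (δ ^ k) = 1 := by
      rw [map_pow]
      exact orderOf_dvd_iff_pow_eq_one.1 ((Nat.modEq_zero_iff_dvd).1 hk0)
    have hΓ : (((δ ^ k)⁻¹ * γ : Gx p x) : Ω ≃ₐ[ZMod p] Ω) ∈ Gx p x' := by
      rw [mem_Gx]
      show ((δ ^ k : Gx p x) : Ω ≃ₐ[ZMod p] Ω).symm ((γ : Ω ≃ₐ[ZMod p] Ω) x') = x'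
      rw [AlgEquiv.symm_apply_eq, hδk, hζk, hζx]
    refine ⟨⟨_, hΓ⟩, ?_, ?_⟩
    · intro c hc
      show ((δ ^ k : Gx p x) : Ω ≃ₐ[ZMod p] Ω).symm ((γ : Ω ≃ₐ[ZMod p] Ω) c) = c
      rw [AlgEquiv.symm_apply_eq, hγC c hc]
      have h1 : ∀ k : ℕ, ((δ ^ k : Gx p x) : Ω ≃ₐ[ZMod p] Ω) c = c := by
        intro k
        induction k with
        | zero => simp
        | succ k ih =>
          rw [pow_succ']
          show (δ : Ω ≃ₐ[ZMod p] Ω) (((δ ^ k : Gx p x) : Ω ≃ₐ[ZMod p] Ω) c) = _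
          rw [ih, hδC c hc]
      exact (h1 k).symm
    · show ψ ((δ ^ k)⁻¹ * γ) = g
      rw [map_mul, map_inv, hψk, inv_one, one_mul, hγg]
  · intro ℓ hℓ hne V hV hb γ hγ
    exact hψ.inv ℓ hℓ hne V hV (BC_bad hn0 hx V hb) (Subgroup.inclusion hle γ) hγ

end MP7Z
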