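import Pool.Agent.Lib.MP_7f581e_Z.BR.Spec

/-!
# Task BR/Res: values and residues at valuation rings of `Ω`
-/

namespace MP7Z

namespace ResAux

variable {p : ℕ} [Fact p.Prime] {Ω : Type} [Field Ω] [Algebra (ZMod p) Ω]

/-- Nonzero constants are roots of unity. -/
theorem exists_pow_eq_one {c : Ω} (hc : c ∈ Cst p Ω) (h0 : c ≠ 0) : ∃ k : ℕ, k ≠ 0 ∧ c ^ k = 1 := by
  have hint : IsIntegral (ZMod p) c := (mem_algebraicClosure_iff.1 hc).isIntegral
  have : FiniteDimensional (ZMod p) (IntermediateField.adjoin (ZMod p) {c}) :=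
    IntermediateField.adjoin.finiteDimensional hint
  have : Finite (IntermediateField.adjoin (ZMod p) {c}) := Module.finite_of_finite (ZMod p)
  let c' : IntermediateField.adjoin (ZMod p) {c} :=
    ⟨c, IntermediateField.subset_adjoin _ _ (Set.mem_singleton c)⟩
  have hc' : c' ≠ 0 := by
    intro h
    exact h0 (congrArg Subtype.val h)
  have h1 : IsOfFinOrder (Units.mk0 c' hc') := isOfFinOrder_of_finite _
  obtain ⟨k, hk, hk'⟩ := h1.exists_pow_eq_one
  refine ⟨k, hk.ne', ?_⟩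
  have h2 := congrArg (fun u : (IntermediateField.adjoin (ZMod p) {c})ˣ =>
    ((u : IntermediateField.adjoin (ZMod p) {c}) : Ω)) hk'
  simpa using h2

theorem val_const {c : Ω} (hc : c ∈ Cst p Ω) (h0 : c ≠ 0) (V : ValuationSubring Ω) :
    V.valuation c = 1 := by
  obtain ⟨k, hk, h⟩ := exists_pow_eq_one hc h0
  have h1 : V.valuation c ^ k = 1 := by rw [← map_pow, h, map_one]
  exact (pow_eq_one_iff_of_nonneg zero_le (n := k) hk).1 h1

theorem val_le {c : Ω} (hc : c ∈ Cst p Ω) (V : ValuationSubring Ω) : c ∈ V := by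
  rw [← V.valuation_le_one_iff]
  by_cases h0 : c = 0
  · rw [h0, map_zero]; exact zero_le_one
  · rw [val_const hc h0 V]

theorem val_lt_iff (V : ValuationSubring Ω) {f : Ω} (hf : f ≠ 0) :
    V.valuation f < 1 ↔ f⁻¹ ∉ V := by
  rw [← V.valuation_le_one_iff, map_inv₀, not_le]
  have h0 : V.valuation f ≠ 0 := (Valuation.ne_zero_iff _).2 hf
  exact (one_lt_inv₀ (zero_lt_iff.2 h0)).symm

theorem dec_val {V : ValuationSubring Ω} {γ : Ω ≃ₐ[ZMod p] Ω} (hγ : γ ∈ Dec p V) {m : Ω}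
    (hm : V.valuation m < 1) : V.valuation (γ m) < 1 := by
  by_cases h0 : m = 0
  · rw [h0, map_zero, map_zero]; exact zero_lt_one
  · rw [val_lt_iff V ((map_ne_zero γ).2 h0), ← map_inv₀]
    intro h
    exact (val_lt_iff V h0).1 hm ((hγ m⁻¹).1 h)

end ResAux

open ResAux in
theorem tRes (_hCst : CstStmt) (hLvl : LvlStmt) (hBel : BelStmt) : ResStmt := by
  intro p _ Ω _ _ x hx V hV
  have : IsAlgClosed (Cst p Ω) := _hCst p Ω x hx
  have hun : ∀ (u c : Ω), c ∈ Cst p Ω → V.valuation (u - c) < 1 →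
      ∀ c' ∈ Cst p Ω, V.valuation (u - c') < 1 → c' = c := by
    intro u c hc h1 c' hc' h2
    by_contra hne
    have h3 : V.valuation (c' - c) = 1 := val_const ((Cst p Ω).sub_mem hc' hc) (sub_ne_zero.2 hne) V
    have h4 : c' - c = (u - c) - (u - c') := by ring
    rw [h4] at h3
    exact (lt_of_le_of_lt (V.valuation.map_sub _ _) (max_lt h1 h2)).ne h3
  have hres : ∀ u ∈ V, ∃ c ∈ Cst p Ω, V.valuation (u - c) < 1 := by
    intro u hu
    obtain ⟨K, hK, hS⟩ := (hLvl p Ω x hx).2 {u}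
    have huK : u ∈ K := hS u (Finset.mem_singleton_self u)
    have : IsCurveField (Cst p Ω) K := ((hLvl p Ω x hx).1 K hK).1
    obtain ⟨v, hv, -, hv'⟩ := hBel p Ω x hx K hK V hV
    obtain ⟨c, hc⟩ := exists_const v (f := (⟨u, huK⟩ : K)) ((hv ⟨u, huK⟩).2 hu)
    refine ⟨(c : Ω), c.2, ?_⟩
    have h1 := (hv' _).1 hc
    exact h1
  refine ⟨fun c hc => val_le hc V, fun c hc h0 => val_const hc h0 V, ?_, ?_⟩
  · intro u hu
    obtain ⟨c, hc, h⟩ := hres u hu
    exact ⟨c, hc, h, hun u c hc h⟩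
  · intro Q γ hγ hQ u hu
    obtain ⟨c, hc, h⟩ := hres u hu
    have h1 : V.valuation (γ (u - c)) < 1 := dec_val hγ h
    have h2 : V.valuation (u ^ Q - c ^ Q) < 1 := by
      obtain ⟨s, hs⟩ := sub_dvd_pow_sub_pow (⟨u, hu⟩ : V) ⟨c, val_le hc V⟩ Q
      have hs' : u ^ Q - c ^ Q = (u - c) * (s : Ω) := by
        have := congrArg (Subtype.val : V → Ω) hs
        simpa using this
      rw [hs', map_mul]
      exact mul_lt_one_of_lt_of_le h ((V.valuation_le_one_iff _).2 s.2)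
    have h3 : γ u - u ^ Q = γ (u - c) - (u ^ Q - c ^ Q) := by
      rw [map_sub, hQ c hc]; ring
    rw [h3]
    exact lt_of_le_of_lt (V.valuation.map_sub _ _) (max_lt h1 h2)

end MP7Z
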