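import Pool.Agent.Lib.MP_7f581e_Z.BR.Spec

/-!
# Totally split places
-/

namespace MP7Z.SplM

open Polynomial
open scoped IntermediateField.algebraAdjoinAdjoin

variable {p : ℕ} [Fact p.Prime] {Ω : Type} [Field Ω] [Algebra (ZMod p) Ω]

/-! ### The ring `𝔽_p[x]` -/

theorem isIntegrallyClosed {x : Ω} (hx : Transcendental (ZMod p) x) :
    IsIntegrallyClosed (Algebra.adjoin (ZMod p) {x}) := by
  have e := Polynomial.algEquivOfTranscendental (ZMod p) x hx
  have : IsPrincipalIdealRing (Algebra.adjoin (ZMod p) {x}) :=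
    IsPrincipalIdealRing.of_surjective e.toRingEquiv.toRingHom e.surjective
  infer_instance

theorem finite_units {x : Ω} (hx : Transcendental (ZMod p) x) :
    {u : Algebra.adjoin (ZMod p) {x} | IsUnit u}.Finite := by
  have e := Polynomial.algEquivOfTranscendental (ZMod p) x hx
  refine (Set.finite_range (algebraMap (ZMod p) (Algebra.adjoin (ZMod p) {x}))).subset ?_
  intro u hu
  have h1 : IsUnit (e.symm u) := (MulEquiv.isUnit_map e.symm).2 hu
  obtain ⟨r, _, hr⟩ := Polynomial.isUnit_iff.1 h1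
  refine ⟨r, ?_⟩
  have h2 : u = e (C r) := by rw [hr, AlgEquiv.apply_symm_apply]
  rw [h2, ← Polynomial.algebraMap_eq, AlgEquiv.commutes]

theorem infinite_ring {x : Ω} (hx : Transcendental (ZMod p) x) :
    Infinite (Algebra.adjoin (ZMod p) {x}) := by
  have e := Polynomial.algEquivOfTranscendental (ZMod p) x hx
  exact Infinite.of_injective e e.injective

theorem exists_value {R : Type} [CommRing R] [IsDomain R] [Infinite R]
    (hfin : {u : R | IsUnit u}.Finite) (f : R[X]) (hdeg : 0 < f.natDegree)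
    (hf0 : f.coeff 0 ≠ 0) {D : R} (hD : D ≠ 0) :
    ∃ h s : R, f.eval h = f.coeff 0 * (1 + D * s) ∧ ¬ IsUnit (1 + D * s) ∧ 1 + D * s ≠ 0 := by
  have hne : ∀ c : R, f - C c ≠ 0 := by
    intro c hc
    rw [sub_eq_zero] at hc
    rw [hc, natDegree_C] at hdeg
    exact lt_irrefl _ hdeg
  have hB : ({u : R | IsUnit u} ∪ {0}).Finite := hfin.union (Set.finite_singleton 0)
  have hbad : (⋃ u ∈ ({u : R | IsUnit u} ∪ {0}), {h : R | f.eval h = f.coeff 0 * u}).Finite := by
    refine hB.biUnion fun u _ => ?_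
    refine ((f - C (f.coeff 0 * u)).rootSet_finite R).subset ?_
    intro h hh
    rw [mem_rootSet]
    refine ⟨hne _, ?_⟩
    simp only [coe_aeval_eq_eval, eval_sub, eval_C]
    rw [show f.eval h = f.coeff 0 * u from hh, sub_self]
  have hinj : Function.Injective (fun g : R => f.coeff 0 * D * g) :=
    mul_right_injective₀ (mul_ne_zero hf0 hD)
  have hinf := Set.infinite_range_of_injective hinj
  obtain ⟨h, ⟨g, rfl⟩, hg⟩ := hinf.exists_notMem_finite hbad
  simp only [Set.mem_iUnion, not_exists] at hg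
  have heq : f.eval (f.coeff 0 * D * g) =
      f.coeff 0 * (1 + D * (g * f.divX.eval (f.coeff 0 * D * g))) := by
    have h1 : ∀ h : R, f.eval h = f.divX.eval h * h + f.coeff 0 := by
      intro h
      conv_lhs => rw [← divX_mul_X_add f]
      simp only [eval_add, eval_mul, eval_X, eval_C]
    rw [h1]
    ring
  refine ⟨f.coeff 0 * D * g, g * f.divX.eval (f.coeff 0 * D * g), heq, ?_, ?_⟩
  · intro hu
    exact hg _ (Or.inl hu) heq
  · intro h0
    refine hg 0 (Or.inr rfl) ?_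
    rw [h0] at heq
    exact heq

/-! ### Valuation rings -/

theorem exists_val {x : Ω} {w : Algebra.adjoin (ZMod p) {x}} (hw : ¬ IsUnit w) (hw0 : w ≠ 0) :
    ∃ V : ValuationSubring Ω, V ≠ ⊤ ∧ (∀ r : Algebra.adjoin (ZMod p) {x}, (r : Ω) ∈ V) ∧
      V.valuation (w : Ω) < 1 := by
  have hI : (Ideal.span {w} : Ideal (Algebra.adjoin (ZMod p) {x})) ≠ ⊤ := by
    rw [Ne, Ideal.span_singleton_eq_top]
    exact hw
  obtain ⟨V, hV1, hV2⟩ := Ideal.image_subset_nonunits_valuationSubring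
    (A := (Algebra.adjoin (ZMod p) {x}).toSubring) _ hI
  have h1 : V.valuation (w : Ω) < 1 := by
    rw [← ValuationSubring.mem_nonunits_iff]
    exact hV2 ⟨w, Ideal.mem_span_singleton_self w, rfl⟩
  refine ⟨V, ?_, fun r => hV1 r.2, h1⟩
  rintro rfl
  have h2 : ((w : Ω))⁻¹ ∈ (⊤ : ValuationSubring Ω) := ValuationSubring.mem_top _
  have h3 : ((w : Ω)) ≠ 0 := fun h => hw0 (Subtype.ext h)
  rw [← ValuationSubring.valuation_le_one_iff, map_inv₀] at h2
  have h4 : (⊤ : ValuationSubring Ω).valuation (w : Ω) ≠ 0 := (Valuation.ne_zero_iff _).2 h3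
  exact absurd h1 (not_lt.2 ((inv_le_one₀ (zero_lt_iff.2 h4)).1 h2))

theorem mem_of_isIntegral {x : Ω} {V : ValuationSubring Ω}
    (hV : ∀ r : Algebra.adjoin (ZMod p) {x}, (r : Ω) ∈ V) {y : Ω}
    (hy : IsIntegral (Algebra.adjoin (ZMod p) {x}) y) : y ∈ V := by
  let φ : Algebra.adjoin (ZMod p) {x} →+* V :=
    (algebraMap (Algebra.adjoin (ZMod p) {x}) Ω).codRestrict V.toSubring hV
  have h1 : IsIntegral V y :=
    hy.map_of_comp_eq φ (RingHom.id Ω) (by ext x; rfl)
  obtain ⟨z, hz⟩ := (IsIntegrallyClosed.isIntegral_iff (R := V) (K := Ω)).1 h1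
  rw [← hz]
  exact z.2

theorem isAlgebraic_adjoin {x : Ω} (hst : IsStage p x) (t : Ω) :
    IsAlgebraic (Algebra.adjoin (ZMod p) {x}) t := by
  have := hst.sep
  have h1 : IsAlgebraic (IntermediateField.adjoin (ZMod p) {x}) t :=
    Algebra.IsAlgebraic.isAlgebraic t
  exact h1.restrictScalars (Algebra.adjoin (ZMod p) {x})

theorem exists_unit_one {x : Ω} (hst : IsStage p x) {t : Ω} (ht : t ≠ 0) :
    ∃ c : Algebra.adjoin (ZMod p) {x}, c ≠ 0 ∧ ∀ V : ValuationSubring Ω,
      (∀ r : Algebra.adjoin (ZMod p) {x}, (r : Ω) ∈ V) → V.valuation (c : Ω) = 1 →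
        V.valuation t = 1 := by
  obtain ⟨a, ha, hai⟩ := (isAlgebraic_adjoin hst t).exists_integral_multiple
  obtain ⟨b, hb, hbi⟩ := (isAlgebraic_adjoin hst t⁻¹).exists_integral_multiple
  refine ⟨a * b, mul_ne_zero ha hb, fun V hV hc => ?_⟩
  have hle : ∀ r : Algebra.adjoin (ZMod p) {x}, V.valuation (r : Ω) ≤ 1 := fun r =>
    (V.valuation_le_one_iff _).2 (hV r)
  have hab : V.valuation (a : Ω) * V.valuation (b : Ω) = 1 := by
    rw [← map_mul]
    exact hc
  have ha1 : V.valuation (a : Ω) = 1 := by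
    apply le_antisymm (hle a)
    rw [← hab]
    exact mul_le_of_le_one_right' (hle b)
  have hb1 : V.valuation (b : Ω) = 1 := by
    rw [ha1, one_mul] at hab
    exact hab
  have h1 := (V.valuation_le_one_iff _).2 (mem_of_isIntegral hV hai)
  have h2 := (V.valuation_le_one_iff _).2 (mem_of_isIntegral hV hbi)
  rw [Algebra.smul_def, map_mul] at h1 h2
  change V.valuation (a : Ω) * _ ≤ 1 at h1
  change V.valuation (b : Ω) * _ ≤ 1 at h2
  rw [ha1, one_mul] at h1
  rw [hb1, one_mul, map_inv₀] at h2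
  apply le_antisymm h1
  exact (inv_le_one₀ (zero_lt_iff.2 ((Valuation.ne_zero_iff _).2 ht))).1 h2

theorem exists_unit_all {x : Ω} (hst : IsStage p x) (T : Finset Ω) (hT : ∀ t ∈ T, t ≠ 0) :
    ∃ D : Algebra.adjoin (ZMod p) {x}, D ≠ 0 ∧ ∀ V : ValuationSubring Ω,
      (∀ r : Algebra.adjoin (ZMod p) {x}, (r : Ω) ∈ V) → V.valuation (D : Ω) = 1 →
        ∀ t ∈ T, V.valuation t = 1 := by
  classical
  induction T using Finset.induction_on with
  | empty => exact ⟨1, one_ne_zero, fun V _ _ t ht => absurd ht (Finset.notMem_empty t)⟩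
  | insert t T _ ih =>
    obtain ⟨D, hD, hD'⟩ := ih fun s hs => hT s (Finset.mem_insert_of_mem hs)
    obtain ⟨c, hc, hc'⟩ := exists_unit_one hst (hT t (Finset.mem_insert_self t T))
    refine ⟨c * D, mul_ne_zero hc hD, fun V hV h => ?_⟩
    have hle : ∀ r : Algebra.adjoin (ZMod p) {x}, V.valuation (r : Ω) ≤ 1 := fun r =>
      (V.valuation_le_one_iff _).2 (hV r)
    have hab : V.valuation (c : Ω) * V.valuation (D : Ω) = 1 := by
      rw [← map_mul]
      exact h
    have ha1 : V.valuation (c : Ω) = 1 := by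
      apply le_antisymm (hle c)
      rw [← hab]
      exact mul_le_of_le_one_right' (hle D)
    have hb1 : V.valuation (D : Ω) = 1 := by
      rw [ha1, one_mul] at hab
      exact hab
    intro s hs
    rcases Finset.mem_insert.1 hs with rfl | hs
    · exact hc' V hV ha1
    · exact hD' V hV hb1 s hs

/-! ### Galois theory -/

theorem toFix {x : Ω} {γ : Ω ≃ₐ[ZMod p] Ω} (hγ : γ ∈ Gx p x) {y : Ω}
    (hy : y ∈ IntermediateField.adjoin (ZMod p) {x}) : γ y = y := by
  induction hy using IntermediateField.adjoin_induction with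
  | mem z hz =>
    rw [Set.mem_singleton_iff] at hz
    rw [hz]
    exact mem_Gx.1 hγ
  | algebraMap c => exact γ.commutes c
  | add a b _ _ ha hb => rw [map_add, ha, hb]
  | inv a _ ha => rw [map_inv₀, ha]
  | mul a b _ _ ha hb => rw [map_mul, ha, hb]

/-- an element of `Gx` as automorphism over `𝔽_p(x)` -/
noncomputable def toGal {x : Ω} (γ : Gx p x) : Ω ≃ₐ[IntermediateField.adjoin (ZMod p) {x}] Ω :=
  { (γ : Ω ≃ₐ[ZMod p] Ω).toRingEquiv with
    commutes' := fun r => toFix γ.2 r.2 }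

theorem toGal_apply {x : Ω} (γ : Gx p x) (y : Ω) : toGal γ y = (γ : Ω ≃ₐ[ZMod p] Ω) y := rfl

/-- an automorphism over `𝔽_p(x)` as an element of `Gx` -/
noncomputable def ofGal {x : Ω} (τ : Ω ≃ₐ[IntermediateField.adjoin (ZMod p) {x}] Ω) : Gx p x :=
  ⟨τ.restrictScalars (ZMod p), by
    rw [mem_Gx]
    exact τ.commutes ⟨x, IntermediateField.mem_adjoin_simple_self (ZMod p) x⟩⟩

theorem ofGal_apply {x : Ω} (τ : Ω ≃ₐ[IntermediateField.adjoin (ZMod p) {x}] Ω) (y : Ω) :
    ((ofGal τ : Gx p x) : Ω ≃ₐ[ZMod p] Ω) y = τ y := rfl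

theorem exists_prim {x : Ω} (hst : IsStage p x) (S : Finset Ω) :
    ∃ α : Ω, ∀ γ : Gx p x, (γ : Ω ≃ₐ[ZMod p] Ω) α = α →
      ∀ s ∈ S, (γ : Ω ≃ₐ[ZMod p] Ω) s = s := by
  have := hst.sep
  let F := IntermediateField.adjoin (ZMod p) {x}
  let E := IntermediateField.adjoin F (S : Set Ω)
  have hfd : FiniteDimensional F E :=
    IntermediateField.finiteDimensional_adjoin fun s _ => Algebra.IsIntegral.isIntegral s
  obtain ⟨a, ha⟩ := Field.exists_primitive_element F E
  refine ⟨(a : Ω), fun γ hγ s hs => ?_⟩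
  have hsE : s ∈ E := IntermediateField.subset_adjoin F _ hs
  have h1 : (⟨s, hsE⟩ : E) ∈ IntermediateField.adjoin F {a} := by rw [ha]; trivial
  have h2 : ∀ e : E, e ∈ IntermediateField.adjoin F {a} → toGal γ (e : Ω) = (e : Ω) := by
    intro e he
    induction he using IntermediateField.adjoin_induction with
    | mem z hz =>
      rw [Set.mem_singleton_iff] at hz
      rw [hz]
      exact hγ
    | algebraMap c => exact (toGal γ).commutes c
    | add a b _ _ ha hb =>
      rw [IntermediateField.coe_add, map_add, ha, hb]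
    | inv a _ ha => rw [IntermediateField.coe_inv, map_inv₀, ha]
    | mul a b _ _ ha hb => rw [IntermediateField.coe_mul, map_mul, ha, hb]
  exact h2 ⟨s, hsE⟩ h1

theorem exists_elem {x : Ω} (hst : IsStage p x) {G : Type} [Group G] (ψ : Gx p x →* G)
    (hψ : FinLevel ψ) : ∃ α : Ω, α ≠ 0 ∧ IsIntegral (Algebra.adjoin (ZMod p) {x}) α ∧
      ∀ γ : Gx p x, (γ : Ω ≃ₐ[ZMod p] Ω) α = α → ψ γ = 1 := by
  obtain ⟨S, hS⟩ := hψ
  obtain ⟨a, ha⟩ := exists_prim hst S
  by_cases ha0 : a = 0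
  · exact ⟨1, one_ne_zero, isIntegral_one, fun γ _ => hS γ (ha γ (by rw [ha0, map_zero]))⟩
  · obtain ⟨c, hc, hci⟩ := (isAlgebraic_adjoin hst a).exists_integral_multiple
    have hc' : (c : Ω) ≠ 0 := fun h => hc (Subtype.ext h)
    refine ⟨c • a, ?_, hci, fun γ hγ => hS γ (ha γ ?_)⟩
    · rw [Algebra.smul_def]
      exact mul_ne_zero hc' ha0
    · rw [Algebra.smul_def] at hγ
      change (γ : Ω ≃ₐ[ZMod p] Ω) ((c : Ω) * a) = (c : Ω) * a at hγ
      rw [map_mul, toFix γ.2 (IntermediateField.algebra_adjoin_le_adjoin _ _ c.2)] at hγ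
      exact mul_left_cancel₀ hc' hγ

theorem dec_lt {V : ValuationSubring Ω} {γ : Ω ≃ₐ[ZMod p] Ω} (hγ : γ ∈ Dec p V) {y : Ω}
    (hy : V.valuation y < 1) : V.valuation (γ y) < 1 := by
  by_cases hy0 : y = 0
  · rw [hy0, map_zero, map_zero]
    exact zero_lt_one
  · have h1 : y⁻¹ ∉ V := by
      intro h
      rw [← V.valuation_le_one_iff, map_inv₀] at h
      exact absurd hy (not_lt.2 ((inv_le_one₀ (zero_lt_iff.2
        ((Valuation.ne_zero_iff _).2 hy0))).1 h))
    have h2 : (γ y)⁻¹ ∉ V := by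
      rw [← map_inv₀]
      intro h
      exact h1 ((hγ _).1 h)
    rw [← V.valuation_le_one_iff, map_inv₀] at h2
    by_contra h3
    apply h2
    exact inv_le_one_of_one_le₀ (not_lt.1 h3)

end MP7Z.SplM

namespace MP7Z

open SplM Polynomial
open scoped IntermediateField.algebraAdjoinAdjoin

theorem tSpl : SplStmt := by
  classical
  intro p _ Ω _ _ x hst G _ _ ψ hψ T hT
  have hsep := hst.sep
  have hsc := hst.sepClosed
  have hIC := isIntegrallyClosed hst.transc
  have hInf := infinite_ring hst.transc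
  let R := Algebra.adjoin (ZMod p) {x}
  let F := IntermediateField.adjoin (ZMod p) {x}
  have hclos : IsSepClosure F Ω := ⟨hsc, hsep⟩
  have hgal : IsGalois F Ω := inferInstance
  obtain ⟨α, hα0, hαi, hα⟩ := exists_elem hst ψ hψ
  have hmin : minpoly F α = (minpoly R α).map (algebraMap R F) :=
    minpoly.isIntegrallyClosed_eq_field_fractions' F hαi
  set f := minpoly R α with hf
  have hfm : f.Monic := minpoly.monic hαi
  have hfO : f.map (algebraMap R Ω) = (minpoly F α).map (algebraMap F Ω) := by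
    rw [hmin, Polynomial.map_map]
    rfl
  have hspl : (f.map (algebraMap R Ω)).Splits := by
    rw [hfO]
    exact Normal.splits inferInstance α
  have hdeg : 0 < f.natDegree := minpoly.natDegree_pos hαi
  have hf0 : f.coeff 0 ≠ 0 := by
    intro h0
    have h1 : (minpoly F α).coeff 0 ≠ 0 :=
      minpoly.coeff_zero_ne_zero (Algebra.IsIntegral.isIntegral α) hα0
    rw [hmin, coeff_map, h0, map_zero] at h1
    exact h1 rfl
  -- the finite set
  set B : Finset Ω := (f.aroots Ω).toFinset with hB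
  set T' : Finset Ω := T ∪ ((B ×ˢ B).filter (fun q => q.1 ≠ q.2)).image (fun q => q.1 - q.2) with hT'
  have hT'0 : ∀ t ∈ T', t ≠ 0 := by
    intro t ht
    rw [hT', Finset.mem_union] at ht
    rcases ht with ht | ht
    · exact hT t ht
    · obtain ⟨q, hq, rfl⟩ := Finset.mem_image.1 ht
      exact sub_ne_zero.2 (Finset.mem_filter.1 hq).2
  obtain ⟨D, hD0, hD⟩ := exists_unit_all hst T' hT'0
  obtain ⟨h, s, hhs, hnu, hne⟩ := exists_value (finite_units hst.transc) f hdeg hf0 hD0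
  obtain ⟨V, hVt, hVR, hVw⟩ := exists_val hnu hne
  have hle : ∀ r : R, V.valuation (r : Ω) ≤ 1 := fun r => (V.valuation_le_one_iff _).2 (hVR r)
  have hVD : V.valuation (D : Ω) = 1 := by
    have h1 : V.valuation ((D : Ω) * (s : Ω)) = 1 := by
      have h2 : (D : Ω) * (s : Ω) = ((1 + D * s : R) : Ω) - 1 := by
        push_cast
        ring
      rw [h2, Valuation.map_sub_eq_of_lt_right _ (by rw [map_one]; exact hVw), map_one]
    rw [map_mul] at h1
    apply le_antisymm (hle D)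
    rw [← h1]
    exact mul_le_of_le_one_right' (hle s)
  have hVT := hD V hVR hVD
  refine ⟨V, hVt, hVR ⟨x, Algebra.self_mem_adjoin_singleton _ x⟩,
    fun t ht => hVT t (Finset.mem_union_left _ ht), ?_⟩
  -- a root congruent to `h`
  obtain ⟨β, hβ, hβlt⟩ : ∃ β ∈ f.aroots Ω, V.valuation ((h : Ω) - β) < 1 := by
    by_contra hcon
    push Not at hcon
    have h1 : V.valuation (aeval (h : Ω) f) < 1 := by
      have h2 : aeval (h : Ω) f = ((f.eval h : R) : Ω) := by
        rw [show (h : Ω) = algebraMap R Ω h from rfl, aeval_algebraMap_apply_eq_algebraMap_eval]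
        rfl
      rw [h2, hhs]
      have h3 : (((f.coeff 0 * (1 + D * s) : R)) : Ω) = (f.coeff 0 : Ω) * ((1 + D * s : R) : Ω) := rfl
      rw [h3, map_mul]
      calc _ ≤ V.valuation ((1 + D * s : R) : Ω) := mul_le_of_le_one_left' (hle _)
        _ < 1 := hVw
    rw [Splits.aeval_eq_prod_aroots_of_monic hspl hfm, map_multiset_prod] at h1
    refine absurd h1 (not_lt.2 (Multiset.one_le_prod_of_one_le ?_))
    intro y hy
    rw [Multiset.map_map, Multiset.mem_map] at hy
    obtain ⟨β, hβ, rfl⟩ := hy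
    exact hcon β hβ
  intro γ hγ
  -- `γ` fixes `β`
  have hroot : ∀ β : Ω, β ∈ f.aroots Ω ↔ aeval β (minpoly F α) = 0 := by
    intro β
    rw [mem_aroots, hmin, aeval_map_algebraMap]
    exact ⟨fun h => h.2, fun h => ⟨hfm.ne_zero, h⟩⟩
  have hγβ : (γ : Ω ≃ₐ[ZMod p] Ω) β = β := by
    by_contra hne'
    have h1 : (γ : Ω ≃ₐ[ZMod p] Ω) β ∈ f.aroots Ω := by
      rw [hroot]
      have h2 : toGal γ β = (γ : Ω ≃ₐ[ZMod p] Ω) β := rfl
      rw [← h2]
      have h3 := (hroot β).1 hβ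
      have h4 : aeval (toGal γ β) (minpoly F α) = toGal γ (aeval β (minpoly F α)) :=
        Polynomial.aeval_algHom_apply (toGal γ : Ω →ₐ[F] Ω) β (minpoly F α)
      rw [h4, h3, map_zero]
    have h5 : β - (γ : Ω ≃ₐ[ZMod p] Ω) β ∈ T' := by
      apply Finset.mem_union_right
      refine Finset.mem_image.2 ⟨(β, (γ : Ω ≃ₐ[ZMod p] Ω) β), ?_, rfl⟩
      rw [Finset.mem_filter, Finset.mem_product]
      exact ⟨⟨Multiset.mem_toFinset.2 hβ, Multiset.mem_toFinset.2 h1⟩, Ne.symm hne'⟩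
    have h6 := hVT _ h5
    have h7 := dec_lt hγ hβlt
    rw [map_sub, toFix γ.2 (IntermediateField.algebra_adjoin_le_adjoin _ _ h.2)] at h7
    have h8 : β - (γ : Ω ≃ₐ[ZMod p] Ω) β =
        ((h : Ω) - (γ : Ω ≃ₐ[ZMod p] Ω) β) - ((h : Ω) - β) := by ring
    have h9 : V.valuation (β - (γ : Ω ≃ₐ[ZMod p] Ω) β) < 1 := by
      rw [h8]
      exact lt_of_le_of_lt (Valuation.map_sub _ _ _) (max_lt h7 hβlt)
    exact absurd h6 h9.ne
  -- conjugate
  obtain ⟨τ, hτ⟩ := minpoly.exists_algEquiv_of_root' (K := F) (x := β) (y := α)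
    (Algebra.IsAlgebraic.isAlgebraic _) ((hroot β).1 hβ)
  have h1 : ((((ofGal τ)⁻¹ * γ * ofGal τ : Gx p x)) : Ω ≃ₐ[ZMod p] Ω) α = α := by
    have h2 : ((((ofGal τ)⁻¹ * γ * ofGal τ : Gx p x)) : Ω ≃ₐ[ZMod p] Ω) α =
        τ.symm ((γ : Ω ≃ₐ[ZMod p] Ω) (τ α)) := rfl
    rw [h2, hτ, hγβ, ← hτ, AlgEquiv.symm_apply_apply]
  have h3 := hα _ h1
  rw [map_mul, map_mul, map_inv] at h3
  have h4 : ψ γ = ψ (ofGal τ) * ((ψ (ofGal τ))⁻¹ * ψ γ * ψ (ofGal τ)) * (ψ (ofGal τ))⁻¹ := by
    group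
  rw [h4, h3, mul_one, mul_inv_cancel]

end MP7Z
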