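import Pool.Agent.Lib.MP_7f581e_Z.BR.Spec

/-!
# Levels: finite Galois levels, lifting and restriction of automorphisms
-/

namespace MP7Z

namespace LevAux

variable {p : ℕ} [Fact p.Prime] {Ω : Type} [Field Ω] [Algebra (ZMod p) Ω] {x : Ω}

/-- The algebra structure of the larger of two levels over the smaller one. -/
@[reducible] noncomputable def incAlg {K N : IntermediateField (Cst p Ω) Ω} (h : K ≤ N) :
    Algebra K N :=
  (IntermediateField.inclusion h).toRingHom.toAlgebra

theorem incAlg_apply {K N : IntermediateField (Cst p Ω) Ω} (h : K ≤ N) (a : K) :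
    ((@algebraMap K N _ _ (incAlg h) a : N) : Ω) = a := rfl

theorem incAlg_mk {K N : IntermediateField (Cst p Ω) Ω} (h : K ≤ N) (a : K) :
    @algebraMap K N _ _ (incAlg h) a = ⟨(a : Ω), h a.2⟩ := rfl

theorem tower_inc {K N : IntermediateField (Cst p Ω) Ω} (h : K ≤ N) :
    @IsScalarTower (Cst p Ω) K N _ (incAlg h).toSMul _ := by
  let := incAlg h
  exact IsScalarTower.of_algebraMap_eq fun a => rfl

theorem tower_top {K N : IntermediateField (Cst p Ω) Ω} (h : K ≤ N) :
    @IsScalarTower K N Ω (incAlg h).toSMul _ _ := by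
  let := incAlg h
  exact IsScalarTower.of_algebraMap_eq fun a => rfl

theorem tower_three {K K' N : IntermediateField (Cst p Ω) Ω} (h : K ≤ K') (h' : K' ≤ N) :
    @IsScalarTower K K' N (incAlg h).toSMul (incAlg h').toSMul (incAlg (h.trans h')).toSMul := by
  let := incAlg h
  let := incAlg h'
  let := incAlg (h.trans h')
  exact IsScalarTower.of_algebraMap_eq fun a => rfl

theorem isSepClosure (hst : IsStage p x) {K : IntermediateField (Cst p Ω) Ω} (hx : x ∈ K) :
    IsSepClosure K Ω := by
  have := hst.sepClosed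
  have := hst.sep
  have hle : IntermediateField.adjoin (ZMod p) {x} ≤ K.restrictScalars (ZMod p) := by
    rw [IntermediateField.adjoin_le_iff]
    intro a ha
    rw [Set.mem_singleton_iff.1 ha]
    exact hx
  let ι : IntermediateField.adjoin (ZMod p) {x} →+* K :=
    { toFun := fun a => ⟨(a : Ω), hle a.2⟩
      map_one' := rfl
      map_mul' := fun _ _ => rfl
      map_zero' := rfl
      map_add' := fun _ _ => rfl }
  let : Algebra (IntermediateField.adjoin (ZMod p) {x}) K := ι.toAlgebra
  have : IsScalarTower (IntermediateField.adjoin (ZMod p) {x}) K Ω :=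
    IsScalarTower.of_algebraMap_eq fun a => rfl
  exact ⟨hst.sepClosed,
    Algebra.isSeparable_tower_top_of_isSeparable (IntermediateField.adjoin (ZMod p) {x}) K Ω⟩

theorem isGalois_top (hst : IsStage p x) {K : IntermediateField (Cst p Ω) Ω} (hx : x ∈ K) :
    IsGalois K Ω := by
  have := isSepClosure hst hx
  infer_instance

/-- Every finite set is contained in a level which is finite Galois over a given level. -/
theorem exists_galois_level (hst : IsStage p x) {K : IntermediateField (Cst p Ω) Ω}
    (hK : IsLevel p x K) (S : Finset Ω) :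
    ∃ (N : IntermediateField (Cst p Ω) Ω) (h : K ≤ N), IsLevel p x N ∧ (∀ s ∈ S, s ∈ N) ∧
      @Module.Finite K N _ _ (incAlg h).toModule ∧ @IsGalois K _ N _ (incAlg h) := by
  have := isGalois_top hst hK.mem
  let A : IntermediateField K Ω := IntermediateField.adjoin K (S : Set Ω)
  have : FiniteDimensional K A :=
    IntermediateField.finiteDimensional_adjoin fun s _ => Algebra.IsIntegral.isIntegral s
  let M : IntermediateField K Ω := IntermediateField.normalClosure K A Ω
  have hAM : A ≤ M := IntermediateField.le_normalClosure A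
  let N : IntermediateField (Cst p Ω) Ω := M.restrictScalars (Cst p Ω)
  have hKN : K ≤ N := fun a ha => M.algebraMap_mem ⟨a, ha⟩
  let := incAlg hKN
  have := tower_inc hKN
  let e : M ≃ₐ[K] N :=
    { toFun := fun a => ⟨(a : Ω), a.2⟩
      invFun := fun a => ⟨(a : Ω), a.2⟩
      left_inv := fun _ => rfl
      right_inv := fun _ => rfl
      map_mul' := fun _ _ => rfl
      map_add' := fun _ _ => rfl
      commutes' := fun _ => rfl }
  have hfin : Module.Finite K N := Module.Finite.equiv e.toLinearEquiv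
  have : Algebra.IsSeparable K M := Algebra.isSeparable_tower_bot_of_isSeparable K M Ω
  have : IsGalois K M := ⟨⟩
  have hgal : IsGalois K N := IsGalois.of_algEquiv e
  refine ⟨N, hKN, ⟨hKN hK.mem, ?_⟩, ?_, hfin, hgal⟩
  · rw [← IntermediateField.essFiniteType_iff]
    have : Algebra.EssFiniteType (Cst p Ω) K := IntermediateField.essFiniteType_iff.2 hK.fg
    exact Algebra.EssFiniteType.comp (Cst p Ω) K N
  · intro s hs
    exact hAM (IntermediateField.subset_adjoin K _ hs)

/-- An extension of levels is finite. -/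
theorem finite_of_level (hst : IsStage p x) {K N : IntermediateField (Cst p Ω) Ω}
    (hK : IsLevel p x K) (hN : IsLevel p x N) (h : K ≤ N) :
    @Module.Finite K N _ _ (incAlg h).toModule := by
  have := isGalois_top hst hK.mem
  let := incAlg h
  have := tower_inc h
  have := tower_top h
  have : Algebra.EssFiniteType (Cst p Ω) N := IntermediateField.essFiniteType_iff.2 hN.fg
  have : Algebra.EssFiniteType K N := Algebra.EssFiniteType.of_comp (Cst p Ω) K N
  have : Algebra.IsAlgebraic K N := Algebra.IsAlgebraic.tower_bot K N Ω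
  exact Algebra.finite_of_essFiniteType_of_isAlgebraic

/-- An automorphism which fixes `K` as an automorphism over `K`. -/
def overK {K : IntermediateField (Cst p Ω) Ω} (γ : Ω ≃ₐ[ZMod p] Ω) (hγ : γ ∈ Fx p (K : Set Ω)) :
    Ω ≃ₐ[K] Ω :=
  { γ.toRingEquiv with commutes' := fun a => hγ a a.2 }

@[simp] theorem overK_apply {K : IntermediateField (Cst p Ω) Ω} (γ : Ω ≃ₐ[ZMod p] Ω)
    (hγ : γ ∈ Fx p (K : Set Ω)) (f : Ω) : overK γ hγ f = γ f := rfl

/-- An automorphism over `K` as an automorphism over the prime field. -/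
noncomputable def ofK {K : IntermediateField (Cst p Ω) Ω} (γ : Ω ≃ₐ[K] Ω) : Ω ≃ₐ[ZMod p] Ω :=
  AlgEquiv.ofRingEquiv (f := γ.toRingEquiv) (by
    intro r
    have h1 : algebraMap (ZMod p) Ω r ∈ K :=
      K.algebraMap_mem (algebraMap (ZMod p) (Cst p Ω) r)
    exact γ.commutes ⟨_, h1⟩)

@[simp] theorem ofK_apply {K : IntermediateField (Cst p Ω) Ω} (γ : Ω ≃ₐ[K] Ω) (f : Ω) :
    ofK γ f = γ f := rfl

theorem ofK_mem {K : IntermediateField (Cst p Ω) Ω} (γ : Ω ≃ₐ[K] Ω) :
    ofK γ ∈ Fx p (K : Set Ω) := fun a ha => γ.commutes ⟨a, ha⟩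

/-- Automorphisms of a level over a smaller one extend to `Ω`. -/
theorem exists_lift (hst : IsStage p x) {K N : IntermediateField (Cst p Ω) Ω} (hx : x ∈ K)
    (h : K ≤ N) (σ : @AlgEquiv K N N _ _ _ (incAlg h) (incAlg h)) :
    ∃ γ ∈ Fx p (K : Set Ω), ∀ f : N, γ (f : Ω) = ((@DFunLike.coe _ _ _ _ σ f : N) : Ω) := by
  have := isGalois_top hst hx
  let := incAlg h
  have := tower_top h
  refine ⟨ofK (σ.liftNormal Ω), ofK_mem _, fun f => ?_⟩
  exact σ.liftNormal_commutes Ω f

/-- Automorphisms of `Ω` over `K` induce automorphisms of a normal level. -/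
theorem exists_restrict (hst : IsStage p x) {K N : IntermediateField (Cst p Ω) Ω} (h : K ≤ N)
    (hG : @IsGalois K _ N _ (incAlg h)) (γ : Ω ≃ₐ[ZMod p] Ω) (hγ : γ ∈ Fx p (K : Set Ω)) :
    ∃ σ : @AlgEquiv K N N _ _ _ (incAlg h) (incAlg h),
      ∀ f : N, ((@DFunLike.coe _ _ _ _ σ f : N) : Ω) = γ (f : Ω) := by
  let := incAlg h
  have := tower_top h
  exact ⟨(overK γ hγ).restrictNormal N, fun f => (overK γ hγ).restrictNormal_commutes N f⟩

/-- The places below the same valuation ring restrict to each other. -/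
theorem res_below (hst : IsStage p x) {K N : IntermediateField (Cst p Ω) Ω}
    [IsAlgClosed (Cst p Ω)] [IsCurveField (Cst p Ω) K] [IsCurveField (Cst p Ω) N] (h : K ≤ N)
    (hfin : @Module.Finite K N _ _ (incAlg h).toModule) {V : ValuationSubring Ω}
    {v : Place (Cst p Ω) K} {w : Place (Cst p Ω) N} (hv : Below v V) (hw : Below w V) :
    @Place.res (Cst p Ω) N _ _ _ _ K _ _ _ (incAlg h) (tower_inc h) hfin w = v := by
  let := incAlg h
  have := tower_inc h
  apply place_eq
  intro f hf
  rw [Place.res_nonneg] at hf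
  rw [hv f]
  exact (hw _).1 hf

end LevAux

end MP7Z
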