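import Pool.Agent.Lib.MP_7f581e_Z.BR.Spec

/-!
# Package BR: every place of a level is below some valuation ring of `Ω`
-/

set_option autoImplicit false

namespace MP7Z

theorem Abv_main {𝕜 k Ω : Type} [Field 𝕜] [IsAlgClosed 𝕜] [Field k] [Algebra 𝕜 k] [Field Ω] (v : Place 𝕜 k)
    (φ : k →+* Ω) : ∃ V : ValuationSubring Ω, V ≠ ⊤ ∧ ∀ f : k, 0 ≤ v.ord f ↔ φ f ∈ V := by
  obtain ⟨V, hV, hloc⟩ := IsLocalRing.exists_factor_valuationRing
    (φ.comp v.ring.subtype)
  have hB : ∀ f : k, 0 ≤ v.ord f ↔ φ f ∈ V := by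
    intro f
    constructor
    · intro hf
      exact hV ⟨f, hf⟩
    · intro hf
      by_contra hcon
      have hf0 : f ≠ 0 := by
        rintro rfl
        rw [AddValuation.map_zero] at hcon
        exact hcon le_top
      have hinv : 0 ≤ v.ord f⁻¹ := by
        rw [v.nonneg_iff hf0] at hcon
        rw [v.nonneg_iff (inv_ne_zero hf0), v.oz_inv hf0]
        omega
      have h1 : IsUnit (((φ.comp v.ring.subtype).codRestrict V.toSubring hV) ⟨f⁻¹, hinv⟩) := by
        refine IsUnit.of_mul_eq_one (⟨φ f, hf⟩ : V.toSubring) (Subtype.ext ?_)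
        change φ f⁻¹ * φ f = 1
        rw [← map_mul, inv_mul_cancel₀ hf0, map_one]
      obtain ⟨b, hb⟩ := (hloc.map_nonunit _ h1).exists_right_inv
      have h2 : f⁻¹ * (b : k) = 1 := congrArg Subtype.val hb
      have h3 : (b : k) = f := by
        rw [inv_mul_eq_one₀ hf0] at h2
        exact h2.symm
      apply hcon
      rw [← h3]
      exact b.2
  refine ⟨V, ?_, hB⟩
  rintro rfl
  obtain ⟨z, hz⟩ := v.exists_unif
  have hz0 : z ≠ 0 := by
    rintro rfl
    rw [AddValuation.map_zero] at hz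
    exact WithTop.top_ne_one hz
  have h1 : v.oz z = 1 := v.oz_eq (by rw [hz]; rfl)
  have h2 := (hB z⁻¹).2 trivial
  rw [v.nonneg_iff (inv_ne_zero hz0), v.oz_inv hz0, h1] at h2
  omega

theorem tAbv (hCst : CstStmt) : AbvStmt := by
  intro p _ Ω _ _ x hx K _ v
  have hac : IsAlgClosed (Cst p Ω) := hCst p Ω x hx
  obtain ⟨V, h1, h2⟩ := Abv_main v (algebraMap K Ω)
  exact ⟨V, h1, fun f => h2 f⟩

end MP7Z
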