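import Pool.Agent.Lib.MP_7f581e_Z.BR.Spec

/-! # Bel: the place of a level below a valuation ring -/

set_option autoImplicit false

namespace MP7Z

section

variable {p : ℕ} [Fact p.Prime] {Ω : Type} [Field Ω] [Algebra (ZMod p) Ω]

/-- constants lie in all valuation rings -/
theorem Bel_const (V : ValuationSubring Ω) {c : Ω} (hc : c ∈ Cst p Ω) : c ∈ V := by
  have h1 : IsIntegral (ZMod p) c := (mem_algebraicClosure_iff.1 hc).isIntegral
  have h2 : Algebra.IsIntegral ℤ (ZMod p) :=
    Algebra.isIntegral_of_surjective (ZMod.intCast_surjective)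
  have h3 : IsIntegral ℤ c := isIntegral_trans (A := ZMod p) c h1
  have h4 : IsIntegral V c := h3.tower_top
  obtain ⟨y, hy⟩ := IsIntegrallyClosed.isIntegral_iff.1 h4
  rw [← hy]
  exact y.2

/-- a valuation ring which contains a level is everything -/
theorem Bel_top {x : Ω} (hx : IsStage p x) (K : IntermediateField (Cst p Ω) Ω) (hxK : x ∈ K)
    (V : ValuationSubring Ω) (hV : V ≠ ⊤) : ∃ f ∈ K, f ∉ V := by
  by_contra hcon
  push Not at hcon
  apply hV
  rw [eq_top_iff]
  intro ω _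
  have hsep := hx.sep
  have h1 : IsIntegral (IntermediateField.adjoin (ZMod p) {x}) ω :=
    Algebra.IsIntegral.isIntegral ω
  have hle : IntermediateField.adjoin (ZMod p) {x} ≤ K.restrictScalars (ZMod p) := by
    rw [IntermediateField.adjoin_le_iff]
    rintro _ rfl
    exact hxK
  have hmem : ∀ a : IntermediateField.adjoin (ZMod p) {x},
      algebraMap (IntermediateField.adjoin (ZMod p) {x}) Ω a ∈ V.toSubring := fun a =>
    hcon _ (hle a.2)
  obtain ⟨P, hP, hP0⟩ := h1
  have h4 : IsIntegral V ω := by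
    refine ⟨P.map ((algebraMap (IntermediateField.adjoin (ZMod p) {x}) Ω).codRestrict
      V.toSubring hmem), hP.map _, ?_⟩
    rw [Polynomial.eval₂_map]
    exact hP0
  obtain ⟨y, hy⟩ := IsIntegrallyClosed.isIntegral_iff.1 h4
  rw [← hy]
  exact y.2

end

theorem tBel (hCst : CstStmt) (hLvl : LvlStmt) : BelStmt := by
  intro p _ Ω _ _ x hx K hK V hV
  have hac : IsAlgClosed (Cst p Ω) := hCst p Ω x hx
  have hcf : IsCurveField (Cst p Ω) K := ((hLvl p Ω x hx).1 K hK).1
  let W : ValuationSubring K := V.comap (algebraMap K Ω)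
  have hmem : ∀ f : K, f ∈ W ↔ (f : Ω) ∈ V := fun f => Iff.rfl
  have hW : W ≠ ⊤ := by
    intro htop
    obtain ⟨f, hf, hfV⟩ := Bel_top hx K hK.mem V hV
    apply hfV
    have h1 : (⟨f, hf⟩ : K) ∈ W := by rw [htop]; trivial
    exact (hmem _).1 h1
  have hC : ∀ c : Cst p Ω, algebraMap (Cst p Ω) K c ∈ W := fun c =>
    (hmem _).2 (Bel_const V c.2)
  obtain ⟨v, hv⟩ := exists_place_of_valuationSubring W hW hC
  have hbel : Below v V := fun f => by rw [← hv f, hmem]
  refine ⟨v, hbel, fun w hw => place_eq fun f hf => (hbel f).2 ((hw f).1 hf), fun f => ?_⟩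
  by_cases hf : f = 0
  · subst hf
    have h1 : V.valuation ((0 : K) : Ω) < 1 := by
      rw [ZeroMemClass.coe_zero, map_zero]
      exact zero_lt_one
    refine iff_of_true ?_ h1
    rw [AddValuation.map_zero]
    exact WithTop.coe_lt_top 0
  · have hf' : (f : Ω) ≠ 0 := fun h => hf (by exact_mod_cast h)
    have h1 : V.valuation (f : Ω) < 1 ↔ ¬ ((f⁻¹ : K) : Ω) ∈ V := by
      have h2 : V.valuation (f : Ω) ≠ 0 := (Valuation.ne_zero_iff _).2 hf'
      rw [← V.valuation_le_one_iff, not_le, IntermediateField.coe_inv, map_inv₀,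
        one_lt_inv₀ (zero_lt_iff.2 h2)]
    rw [h1, ← hbel f⁻¹, not_le]
    have h3 : v.ord f = (v.pord f : WithTop ℤ) := v.ord_eq_pord hf
    have h4 : v.ord f⁻¹ = (v.pord f⁻¹ : WithTop ℤ) := v.ord_eq_pord (inv_ne_zero hf)
    rw [h3, h4, v.pord_inv hf, ← WithTop.coe_zero, WithTop.coe_lt_coe, WithTop.coe_lt_coe]
    exact ⟨fun h => by omega, fun h => by omega⟩

end MP7Z
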