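import Pool.Agent.Lib.MP_7f581e_Z.BR.LevAux

/-!
# BR/Conj: conjugacy of valuation rings with the same trace on a level
-/

namespace MP7Z

namespace Conj_

open LevAux

theorem isOpen_of_value {K L : Type} [Field K] [Field L] [Algebra K L] [Algebra.IsIntegral K L]
    (f : L) (P : L → Prop) : IsOpen {γ : L ≃ₐ[K] L | P (γ f)} := by
  rw [isOpen_iff_forall_mem_open]
  intro γ₀ h₀
  have h1 : IsOpen ((fun γ : L ≃ₐ[K] L => γ₀⁻¹ * γ) ⁻¹'
      (MulAction.stabilizer (L ≃ₐ[K] L) f : Set (L ≃ₐ[K] L))) :=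
    (stabilizer_isOpen_of_isIntegral f).preimage (continuous_const_mul γ₀⁻¹)
  refine ⟨_, ?_, h1, ?_⟩
  · intro γ hγ
    have h2 : γ₀⁻¹ (γ f) = f := hγ
    have h3 : γ f = γ₀ f := by
      have h4 := congrArg γ₀ h2
      have h5 : γ₀ (γ₀⁻¹ (γ f)) = γ f := γ₀.apply_symm_apply _
      rw [h5] at h4
      exact h4
    change P (γ f)
    rw [h3]
    exact h₀
  · change (γ₀⁻¹ * γ₀) • f = f
    rw [inv_mul_cancel, one_smul]

end Conj_

open LevAux Conj_ in
/-- **Conj.** Conjugacy of valuation rings of `Ω` with the same trace on a level. -/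
theorem tConj (hCst : CstStmt) (hLvl : LvlStmt) (hBel : BelStmt) (hFin : FinStmt) : ConjStmt := by
  intro p _ Ω _ _ x hst K hK V V' hV hV' htr
  have hGal := isGalois_top hst hK.mem
  have hAC : IsAlgClosed (Cst p Ω) := hCst p Ω x hst
  have hKc : IsCurveField (Cst p Ω) K := ((hLvl p Ω x hst).1 K hK).1
  let t : Ω → Set (Ω ≃ₐ[K] Ω) := fun f => {γ | γ f ∈ V' ↔ f ∈ V}
  have hclosed : ∀ f, IsClosed (t f) := by
    intro f
    rw [← isOpen_compl_iff]
    exact isOpen_of_value f (fun y => ¬ (y ∈ V' ↔ f ∈ V))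
  have hfip : ∀ s : Finset Ω, (⋂ i ∈ s, t i).Nonempty := by
    intro s
    obtain ⟨N, h, hN, hs, hfin, hgal⟩ := exists_galois_level hst hK s
    have hNc : IsCurveField (Cst p Ω) N := ((hLvl p Ω x hst).1 N hN).1
    obtain ⟨w, hw, -, -⟩ := hBel p Ω x hst N hN V hV
    obtain ⟨w', hw', -, -⟩ := hBel p Ω x hst N hN V' hV'
    let := incAlg h
    have := tower_inc h
    have hres : w'.res K = w.res K := by
      apply place_eq
      intro f hf
      rw [Place.res_nonneg] at hf ⊢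
      rw [hw]
      rw [hw'] at hf
      exact (htr _ f.2).2 hf
    obtain ⟨σ, hσ⟩ := hFin (Cst p Ω) K N w' w hres
    obtain ⟨γ, hγ, hγσ⟩ := exists_lift hst hK.mem h σ
    refine ⟨overK γ hγ, ?_⟩
    rw [Set.mem_iInter₂]
    intro f hf
    change γ f ∈ V' ↔ f ∈ V
    have h1 := hγσ ⟨f, hs f hf⟩
    have h2 : γ f = ((σ ⟨f, hs f hf⟩ : N) : Ω) := h1
    rw [h2, ← hw' (σ ⟨f, hs f hf⟩)]
    have h3 : (f ∈ V) ↔ 0 ≤ w.ord (⟨f, hs f hf⟩ : N) := (hw ⟨f, hs f hf⟩).symm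
    rw [h3, hσ]
    rfl
  obtain ⟨γ, hγ⟩ := CompactSpace.iInter_nonempty hclosed hfip
  exact ⟨ofK γ, ofK_mem γ, fun f => Set.mem_iInter.1 hγ f⟩

end MP7Z
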