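import Pool.Agent.Lib.MP_7f581e_Z.BR.LevAux

/-!
# BR/Cyc: tame cyclicity of inertia
-/

namespace MP7Z

namespace Cyc_

section curve

variable {𝕜 N : Type} [Field 𝕜] [IsAlgClosed 𝕜] [Field N] [Algebra 𝕜 N] [IsCurveField 𝕜 N]

omit [IsAlgClosed 𝕜] [IsCurveField 𝕜 N] in
theorem ord_eq {w : Place 𝕜 N} {σ : N ≃ₐ[𝕜] N} [IsAlgClosed 𝕜]
    (h : w.comap (σ : N ≃+* N) = w) (f : N) : w.ord (σ f) = w.ord f := by
  have h1 : (w.comap (σ : N ≃+* N)).ord f = w.ord f := by rw [h]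
  exact h1

omit [IsCurveField 𝕜 N] in
theorem quot_ord {w : Place 𝕜 N} {σ : N ≃ₐ[𝕜] N} (h : w.comap (σ : N ≃+* N) = w) {f : N}
    (hf : f ≠ 0) : w.ord (σ f / f) = 0 := by
  have hσf : σ f ≠ 0 := (map_ne_zero_iff σ σ.injective).2 hf
  have h1 : w.pord (σ f / f) = 0 := by
    rw [w.pord_div hσf hf]
    have h2 : w.pord (σ f) = w.pord f := by
      unfold Place.pord
      rw [ord_eq h]
    rw [h2, sub_self]
  rw [w.ord_eq_pord (div_ne_zero hσf hf), h1]
  rfl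

/-- `f ↦ (value of σ f / f)`. -/
noncomputable def rU (w : Place 𝕜 N) (σ : N ≃ₐ[𝕜] N) (h : w.comap (σ : N ≃+* N) = w) :
    Nˣ →* 𝕜ˣ :=
  MonoidHom.toHomUnits
    { toFun := fun f => w.ev (σ f / f)
      map_one' := by
        rw [Units.val_one, map_one, div_one, w.ev_one]
      map_mul' := by
        intro f g
        rw [← w.ev_mul (quot_ord h f.ne_zero).ge (quot_ord h g.ne_zero).ge]
        congr 1
        rw [Units.val_mul, map_mul, mul_div_mul_comm] }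

theorem rU_val (w : Place 𝕜 N) (σ : N ≃ₐ[𝕜] N) (h : w.comap (σ : N ≃+* N) = w) (f : Nˣ) :
    ((rU w σ h f : 𝕜ˣ) : 𝕜) = w.ev (σ f / f) := rfl

theorem rU_unit (w : Place 𝕜 N) (σ : N ≃ₐ[𝕜] N) (h : w.comap (σ : N ≃+* N) = w) (u : Nˣ)
    (hu : w.pord (u : N) = 0) : rU w σ h u = 1 := by
  have hu0 : w.ord (u : N) = 0 := by
    rw [w.ord_eq_pord u.ne_zero, hu]
    rfl
  have hev : w.ev (u : N) ≠ 0 := by
    intro h0
    have h1 := (w.ev_eq_zero_iff hu0.ge).1 h0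
    rw [hu0] at h1
    exact lt_irrefl _ h1
  have h1 : w.ev (σ u) = w.ev (u : N) := by
    have h2 := w.ev_comap_alg σ (f := (u : N)) (by rw [h]; exact hu0.ge)
    rw [h] at h2
    exact h2
  have h2 : w.ev (σ u / u) * w.ev (u : N) = w.ev (σ u) := by
    rw [← w.ev_mul (quot_ord h u.ne_zero).ge hu0.ge, div_mul_cancel₀ _ u.ne_zero]
  rw [h1] at h2
  apply Units.ext
  rw [rU_val, Units.val_one]
  exact mul_right_cancel₀ hev (by rw [h2, one_mul])

theorem rU_one (w : Place 𝕜 N) (σ : N ≃ₐ[𝕜] N) (h : w.comap (σ : N ≃+* N) = w) (P : Nˣ)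
    (hP : w.pord (P : N) = 1) (hθ : rU w σ h P = 1) (f : Nˣ) : rU w σ h f = 1 := by
  have h1 : f = P ^ (w.pord (f : N)) * (P ^ (-(w.pord (f : N))) * f) := by
    rw [← mul_assoc, ← zpow_add, add_neg_cancel, zpow_zero, one_mul]
  have h2 : w.pord ((P ^ (-(w.pord (f : N))) * f : Nˣ) : N) = 0 := by
    rw [Units.val_mul, Units.val_zpow_eq_zpow_val, w.pord_mul (zpow_ne_zero _ P.ne_zero) f.ne_zero,
      w.pord_zpow P.ne_zero, hP]
    ring
  rw [h1, map_mul, map_zpow, hθ, one_zpow, one_mul]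
  exact rU_unit w σ h _ h2

omit [IsCurveField 𝕜 N] in
theorem comap_mul' {w : Place 𝕜 N} {σ τ : N ≃ₐ[𝕜] N} (h : w.comap (σ : N ≃+* N) = w)
    (h' : w.comap (τ : N ≃+* N) = w) : w.comap ((σ * τ : N ≃ₐ[𝕜] N) : N ≃+* N) = w := by
  have h1 : w.comap ((σ * τ : N ≃ₐ[𝕜] N) : N ≃+* N)
      = (w.comap (σ : N ≃+* N)).comap (τ : N ≃+* N) := by
    rw [← Place.comap_mul]
    rfl
  rw [h1, h, h']

theorem rU_mul {w : Place 𝕜 N} {σ τ : N ≃ₐ[𝕜] N} (h : w.comap (σ : N ≃+* N) = w)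
    (h' : w.comap (τ : N ≃+* N) = w) (f : Nˣ) :
    rU w (σ * τ) (comap_mul' h h') f = rU w σ h f * rU w τ h' f := by
  apply Units.ext
  rw [Units.val_mul, rU_val, rU_val, rU_val]
  have hτf : τ (f : N) ≠ 0 := (map_ne_zero_iff τ τ.injective).2 f.ne_zero
  have hσf : σ (f : N) ≠ 0 := (map_ne_zero_iff σ σ.injective).2 f.ne_zero
  have h1 : (σ * τ) (f : N) / f = (σ f / f) * σ (τ f / f) := by
    rw [map_div₀]
    change σ (τ f) / f = _
    field_simp
  have h2 : w.ev (σ (τ (f : N) / f)) = w.ev (τ (f : N) / f) := by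
    have h3 := w.ev_comap_alg σ (f := (τ (f : N) / f)) (by rw [h]; exact (quot_ord h' f.ne_zero).ge)
    rw [h] at h3
    exact h3
  rw [h1, w.ev_mul (quot_ord h f.ne_zero).ge (by rw [ord_eq h]; exact (quot_ord h' f.ne_zero).ge),
    h2]

omit [IsCurveField 𝕜 N] in
theorem comap_pow' {w : Place 𝕜 N} {σ : N ≃ₐ[𝕜] N} (h : w.comap (σ : N ≃+* N) = w) (i : ℕ) :
    w.comap ((σ ^ i : N ≃ₐ[𝕜] N) : N ≃+* N) = w := by
  induction i with
  | zero =>
    rw [pow_zero]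
    exact Place.comap_one w
  | succ i ih =>
    rw [pow_succ]
    exact comap_mul' ih h

theorem rU_pow {w : Place 𝕜 N} {σ : N ≃ₐ[𝕜] N} (h : w.comap (σ : N ≃+* N) = w) (f : Nˣ)
    (hf : rU w σ h f = 1) (i : ℕ) : rU w (σ ^ i) (comap_pow' h i) f = 1 := by
  induction i with
  | zero =>
    apply Units.ext
    rw [rU_val, pow_zero, Units.val_one]
    change w.ev ((f : N) / f) = 1
    rw [div_self f.ne_zero, w.ev_one]
  | succ i ih =>
    have h1 := rU_mul (comap_pow' h i) h f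
    rw [ih, hf, one_mul] at h1
    have h2 : rU w (σ ^ (i + 1)) (comap_pow' h (i + 1)) f
        = rU w (σ ^ i * σ) (comap_mul' (comap_pow' h i) h) f := by
      apply Units.ext
      rw [rU_val, rU_val, pow_succ]
    rw [h2, h1]

theorem ev_sum (w : Place 𝕜 N) (s : Finset ℕ) (F : ℕ → N) (hF : ∀ i ∈ s, 0 ≤ w.ord (F i)) :
    0 ≤ w.ord (∑ i ∈ s, F i) ∧ w.ev (∑ i ∈ s, F i) = ∑ i ∈ s, w.ev (F i) := by
  classical
  induction s using Finset.induction_on with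
  | empty =>
    rw [Finset.sum_empty, Finset.sum_empty, w.ev_zero, AddValuation.map_zero]
    exact ⟨le_top, rfl⟩
  | insert a s ha ih =>
    have h1 := ih fun i hi => hF i (Finset.mem_insert_of_mem hi)
    have h2 := hF a (Finset.mem_insert_self a s)
    rw [Finset.sum_insert ha, Finset.sum_insert ha, w.ev_add h2 h1.1, h1.2]
    exact ⟨le_trans (le_min h2 h1.1) (w.ord.map_add _ _), rfl⟩

/-- A stabilizing automorphism of order prime to the characteristic with trivial tame character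
is trivial. -/
theorem eq_one (w : Place 𝕜 N) (σ : N ≃ₐ[𝕜] N) (h : w.comap (σ : N ≃+* N) = w) (P : Nˣ)
    (hP : w.pord (P : N) = 1) (hθ : rU w σ h P = 1) (m : ℕ) (hm : (m : 𝕜) ≠ 0)
    (hσ : σ ^ m = 1) : σ = 1 := by
  by_contra hne
  have hex : ∃ y, σ y ≠ y := by
    by_contra hcon
    push Not at hcon
    exact hne (AlgEquiv.ext hcon)
  obtain ⟨y, hy⟩ := hex
  let T : N → N := fun z => ∑ i ∈ Finset.range m, (σ ^ i) z
  have hT : ∀ z, T z = ∑ i ∈ Finset.range m, (σ ^ i) z := fun _ => rfl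
  have hσT : ∀ z, σ (T z) = T z := by
    intro z
    rw [hT, map_sum]
    have h1 : ∀ i ∈ Finset.range m, σ ((σ ^ i) z) = (σ ^ (i + 1)) z := by
      intro i _
      rw [pow_succ']
      rfl
    rw [Finset.sum_congr rfl h1]
    have h2 := Finset.sum_range_succ (fun i => (σ ^ i) z) m
    have h3 := Finset.sum_range_succ' (fun i => (σ ^ i) z) m
    rw [h2] at h3
    rw [hσ, pow_zero] at h3
    exact (add_right_cancel h3).symm
  have hmN : (m : N) ≠ 0 := by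
    have h1 : (m : N) = algebraMap 𝕜 N (m : 𝕜) := (map_natCast _ m).symm
    rw [h1]
    exact (map_ne_zero _).2 hm
  have hpowT : ∀ i z, (σ ^ i) (T z) = T z := by
    intro i z
    induction i with
    | zero =>
      rw [pow_zero]
      rfl
    | succ i ih =>
      rw [pow_succ]
      change (σ ^ i) (σ (T z)) = T z
      rw [hσT, ih]
  have hpown : ∀ i, (σ ^ i) ((m : N)) = m := fun i => map_natCast _ m
  set y₁ : N := (m : N) * y - T y with hy₁
  have hTy₁ : T y₁ = 0 := by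
    have h1 : T y₁ = (m : N) * T y - ∑ _i ∈ Finset.range m, T y := by
      rw [hT, hT y, Finset.mul_sum, ← Finset.sum_sub_distrib]
      apply Finset.sum_congr rfl
      intro i _
      rw [hy₁, map_sub, map_mul, hpown, hpowT]
    rw [h1, Finset.sum_const, Finset.card_range, nsmul_eq_mul, sub_self]
  have hy₁0 : y₁ ≠ 0 := by
    intro h0
    have h1 : σ y₁ - y₁ = (m : N) * (σ y - y) := by
      rw [hy₁, map_sub, map_mul, hσT, map_natCast]
      ring
    rw [h0, map_zero, sub_zero] at h1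
    exact (mul_ne_zero hmN (sub_ne_zero.2 hy)) h1.symm
  have hval : ∀ i, w.ev ((σ ^ i) y₁ / y₁) = 1 := by
    intro i
    have h1 := rU_one w (σ ^ i) (comap_pow' h i) P hP (rU_pow h P hθ i) (Units.mk0 y₁ hy₁0)
    have h2 := congrArg (fun u : 𝕜ˣ => (u : 𝕜)) h1
    exact h2
  have hsum := (ev_sum w (Finset.range m) (fun i => (σ ^ i) y₁ / y₁)
    (fun i _ => (quot_ord (comap_pow' h i) hy₁0).ge)).2
  rw [← Finset.sum_div, ← hT, hTy₁, zero_div, w.ev_zero] at hsum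
  simp only [hval, Finset.sum_const, Finset.card_range, nsmul_eq_mul, mul_one] at hsum
  exact hm hsum.symm

end curve

end Cyc_

open LevAux Cyc_ in
/-- **Cyc.** Tame cyclicity. -/
theorem tCyc (hCst : CstStmt) (hLvl : LvlStmt) (hBel : BelStmt) : CycStmt := by
  intro p _ Ω _ _ x hst K hK V hV A _ _ hA ρ hρ
  have hAC : IsAlgClosed (Cst p Ω) := hCst p Ω x hst
  have hKc : IsCurveField (Cst p Ω) K := ((hLvl p Ω x hst).1 K hK).1
  obtain ⟨S, hS⟩ := hρ
  obtain ⟨N, h, hN, hSN, hfin, hgal⟩ := exists_galois_level hst hK S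
  have hNc : IsCurveField (Cst p Ω) N := ((hLvl p Ω x hst).1 N hN).1
  obtain ⟨w, hw, -, -⟩ := hBel p Ω x hst N hN V hV
  let aKN := incAlg h
  have tKN := tower_inc h
  obtain ⟨P, hP⟩ := w.exists_unif
  have hP0 : P ≠ 0 := by
    rintro rfl
    rw [AddValuation.map_zero] at hP
    exact WithTop.top_ne_one hP
  have hP1 : w.pord P = 1 := by
    rw [w.pord_eq_iff hP0]
    exact hP
  let Pu : Nˣ := Units.mk0 P hP0
  choose R hR using fun γ : (Fx p (K : Set Ω) ⊓ Dec p V : Subgroup (Ω ≃ₐ[ZMod p] Ω)) =>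
    exists_restrict hst h hgal γ.1 γ.2.1
  have hR' : ∀ (γ : (Fx p (K : Set Ω) ⊓ Dec p V : Subgroup (Ω ≃ₐ[ZMod p] Ω))) (f : N),
      ((R γ f : N) : Ω) = (γ : Ω ≃ₐ[ZMod p] Ω) (f : Ω) := hR
  have hRmul : ∀ γ δ, R (γ * δ) = R γ * R δ := by
    intro γ δ
    apply AlgEquiv.ext
    intro f
    apply Subtype.ext
    rw [hR']
    change (γ : Ω ≃ₐ[ZMod p] Ω) ((δ : Ω ≃ₐ[ZMod p] Ω) (f : Ω)) = ((R γ (R δ f) : N) : Ω)
    rw [hR', hR']
  let Rh : (Fx p (K : Set Ω) ⊓ Dec p V : Subgroup (Ω ≃ₐ[ZMod p] Ω)) →* (N ≃ₐ[K] N) :=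
    MonoidHom.mk' R hRmul
  let Q : (Fx p (K : Set Ω) ⊓ Dec p V : Subgroup (Ω ≃ₐ[ZMod p] Ω)) → (N ≃ₐ[Cst p Ω] N) :=
    fun γ => (R γ).restrictScalars (Cst p Ω)
  have hQmul : ∀ γ δ, Q (γ * δ) = Q γ * Q δ := by
    intro γ δ
    apply AlgEquiv.ext
    intro f
    change R (γ * δ) f = (R γ) ((R δ) f)
    rw [hRmul]
    rfl
  have hQw : ∀ γ, w.comap (Q γ : N ≃+* N) = w := by
    intro γ
    apply place_eq
    intro f hf
    have h1 : 0 ≤ w.ord (R γ f) := hf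
    have h2 := (hw _).1 h1
    rw [hR'] at h2
    exact (hw f).2 ((γ.2.2 (f : Ω)).1 h2)
  let θ : (Fx p (K : Set Ω) ⊓ Dec p V : Subgroup (Ω ≃ₐ[ZMod p] Ω)) →* (Cst p Ω)ˣ :=
    MonoidHom.mk' (fun γ => rU w (Q γ) (hQw γ) Pu) (by
      intro γ δ
      rw [← rU_mul (hQw γ) (hQw δ) Pu]
      apply Units.ext
      rw [rU_val, rU_val, hQmul])
  have hθR : ∀ γ δ, R γ = R δ → θ γ = θ δ := by
    intro γ δ hγδ
    apply Units.ext
    change w.ev (Q γ Pu / Pu) = w.ev (Q δ Pu / Pu)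
    have h1 : Q γ = Q δ := by
      change (R γ).restrictScalars (Cst p Ω) = (R δ).restrictScalars (Cst p Ω)
      rw [hγδ]
    rw [h1]
  -- the claim
  have hclaim : ∀ γ, θ γ = 1 → ρ γ = 1 := by
    intro γ hγ
    have hmc : (orderOf (ρ γ)).Coprime p := hA.coprime_dvd_left (orderOf_dvd_natCard (ρ γ))
    have hmpos : 0 < orderOf (ρ γ) := orderOf_pos (ρ γ)
    have hFin : Finite (N ≃ₐ[K] N) := inferInstance
    have hopos : 0 < orderOf (R γ) := orderOf_pos (R γ)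
    obtain ⟨a, m', hm', ho⟩ := Nat.exists_eq_pow_mul_and_not_dvd hopos.ne' p
      (Fact.out : p.Prime).ne_one
    have ht1 : (p ^ a) ^ (orderOf (ρ γ)).totient ≡ 1 [MOD orderOf (ρ γ)] :=
      Nat.ModEq.pow_totient (Nat.Coprime.pow_left a hmc.symm)
    set t := (p ^ a) ^ (orderOf (ρ γ)).totient with ht
    have hdvd : p ^ a ∣ t := by
      rw [ht]
      exact dvd_pow_self _ (Nat.totient_pos.2 hmpos).ne'
    have hρt : ρ (γ ^ t) = ρ γ := by
      rw [map_pow]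
      have h1 := (pow_eq_pow_iff_modEq (x := ρ γ)).2 ht1
      rw [pow_one] at h1
      exact h1
    have hRt : ∀ n : ℕ, R (γ ^ n) = R γ ^ n := fun n => map_pow Rh γ n
    have hRo : R (γ ^ t) ^ m' = 1 := by
      rw [hRt, ← pow_mul, ← orderOf_dvd_iff_pow_eq_one, ho]
      exact mul_dvd_mul_right hdvd m'
    have hQo : Q (γ ^ t) ^ m' = 1 := by
      have h1 : ∀ n : ℕ, ∀ f, (Q (γ ^ t) ^ n) f = (R (γ ^ t) ^ n) f := by
        intro n
        induction n with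
        | zero =>
          intro f
          rfl
        | succ n ih =>
          intro f
          rw [pow_succ, pow_succ]
          change (Q (γ ^ t) ^ n) (Q (γ ^ t) f) = (R (γ ^ t) ^ n) (R (γ ^ t) f)
          rw [ih]
          rfl
      apply AlgEquiv.ext
      intro f
      rw [h1, hRo]
      rfl
    have hθt : rU w (Q (γ ^ t)) (hQw (γ ^ t)) Pu = 1 := by
      change θ (γ ^ t) = 1
      rw [map_pow, hγ, one_pow]
    have hm0 : ((m' : ℕ) : Cst p Ω) ≠ 0 := by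
      intro h0
      apply hm'
      have h1 : algebraMap (ZMod p) (Cst p Ω) (m' : ZMod p) = 0 := by
        rw [map_natCast]
        exact h0
      have h2 : (m' : ZMod p) = 0 := (map_eq_zero _).1 h1
      exact (ZMod.natCast_eq_zero_iff m' p).1 h2
    have hQ1 := eq_one w (Q (γ ^ t)) (hQw (γ ^ t)) Pu hP1 hθt m' hm0 hQo
    rw [← hρt]
    apply hS
    intro s hs
    have h1 := hR' (γ ^ t) ⟨s, hSN s hs⟩
    have h2 : R (γ ^ t) ⟨s, hSN s hs⟩ = ⟨s, hSN s hs⟩ := by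
      change Q (γ ^ t) ⟨s, hSN s hs⟩ = ⟨s, hSN s hs⟩
      rw [hQ1]
      rfl
    rw [h2] at h1
    exact h1.symm
  -- the image of the tame character is finite, hence cyclic
  have hfinθ : Finite θ.range := by
    have hFin : Finite (N ≃ₐ[K] N) := inferInstance
    have hFin2 : Finite (Set.range R) := inferInstance
    let g : Set.range R → θ.range := fun s => ⟨θ s.2.choose, ⟨_, rfl⟩⟩
    apply Finite.of_surjective g
    rintro ⟨y, γ, rfl⟩
    refine ⟨⟨R γ, γ, rfl⟩, ?_⟩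
    apply Subtype.ext
    apply hθR
    exact (⟨γ, rfl⟩ : ∃ δ, R δ = R γ).choose_spec
  obtain ⟨⟨y, hy⟩, hgen⟩ := IsCyclic.exists_generator (α := θ.range)
  obtain ⟨g₀, hg₀⟩ := hy
  refine ⟨g₀, fun γ => ?_⟩
  obtain ⟨n, hn⟩ := Subgroup.mem_zpowers_iff.1 (hgen ⟨θ γ, γ, rfl⟩)
  have hn' : θ g₀ ^ n = θ γ := by
    have h1 := congrArg (fun z : θ.range => (z : (Cst p Ω)ˣ)) hn
    rw [hg₀]
    exact h1
  have h1 : θ (γ * g₀ ^ (-n)) = 1 := by
    rw [map_mul, map_zpow, ← hn', ← zpow_add, add_neg_cancel, zpow_zero]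
  have h2 := hclaim _ h1
  rw [map_mul, map_zpow, zpow_neg, mul_inv_eq_one] at h2
  have h3 : ρ γ ∈ Subgroup.zpowers (ρ g₀) := Subgroup.mem_zpowers_iff.2 ⟨n, h2.symm⟩
  rw [← mem_powers_iff_mem_zpowers] at h3
  obtain ⟨a, ha⟩ := h3
  exact ⟨a, ha.symm⟩

end MP7Z
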