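import Pool.Agent.Lib.MP_7f581e_Z.BR.Spec

/-!
# Package BR: conjugacy of places in finite Galois extensions of curve fields
-/

set_option autoImplicit false

namespace MP7Z

theorem Fin_pord_prod {𝕜 E : Type} [Field 𝕜] [IsAlgClosed 𝕜] [Field E] [Algebra 𝕜 E]
    (v : Place 𝕜 E) {ι : Type} (s : Finset ι) (f : ι → E) (hf : ∀ i ∈ s, f i ≠ 0) :
    v.pord (∏ i ∈ s, f i) = ∑ i ∈ s, v.pord (f i) := by
  classical
  induction s using Finset.induction_on with
  | empty => rw [Finset.prod_empty, Finset.sum_empty, v.pord_one]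
  | insert a s ha ih =>
    have h1 : ∀ i ∈ s, f i ≠ 0 := fun i hi => hf i (Finset.mem_insert_of_mem hi)
    rw [Finset.prod_insert ha, Finset.sum_insert ha,
      v.pord_mul (hf a (Finset.mem_insert_self _ _)) (Finset.prod_ne_zero_iff.2 h1), ih h1]

/-- a function that is a unit at the places of `T` and vanishes at the places of `T'` -/
theorem Fin_exists {𝕜 E : Type} [Field 𝕜] [IsAlgClosed 𝕜] [Field E] [Algebra 𝕜 E]
    [IsCurveField 𝕜 E] (T T' : Finset (Place 𝕜 E)) (h : ∀ u ∈ T, u ∉ T') (hT : T.Nonempty) :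
    ∃ f : E, f ≠ 0 ∧ (∀ u ∈ T, u.pord f = 0) ∧ ∀ u ∈ T', 0 < u.pord f := by
  classical
  choose F hF0 hF1 hF2 using fun u₀ : Place 𝕜 E =>
    places_approx' u₀ ((T ∪ T').erase u₀) (Finset.notMem_erase _ _)
  have hsum : ∀ u ∈ T, u.ord (∑ u₀ ∈ T, F u₀) = 0 := by
    intro u hu
    have h1 : u.ord (F u) = 0 := by
      rw [u.ord_eq_pord (hF0 u), hF1]
      rfl
    rw [u.ord_sum_of_lt hu (hF0 u), h1]
    intro i hi hiu
    rw [h1, u.ord_eq_pord (hF0 i)]
    have h2 := hF2 i u (Finset.mem_erase.2 ⟨Ne.symm hiu, Finset.mem_union_left _ hu⟩)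
    exact_mod_cast h2
  have hne : ∑ u₀ ∈ T, F u₀ ≠ 0 := by
    obtain ⟨u, hu⟩ := hT
    intro h0
    have h1 := hsum u hu
    rw [h0, AddValuation.map_zero] at h1
    exact WithTop.top_ne_zero h1
  refine ⟨∑ u₀ ∈ T, F u₀, hne, ?_, ?_⟩
  · intro u hu
    rw [u.pord_eq_iff hne, hsum u hu]
    rfl
  · intro u hu
    rw [u.lt_pord_iff hne]
    refine AddValuation.map_lt_sum' _ (WithTop.coe_lt_top _) fun i hi => ?_
    rw [u.ord_eq_pord (hF0 i)]
    have hiu : u ≠ i := by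
      rintro rfl
      exact h u hi hu
    have h2 := hF2 i u (Finset.mem_erase.2 ⟨hiu, Finset.mem_union_right _ hu⟩)
    exact_mod_cast h2

theorem tFin : FinStmt := by
  intro 𝕜 K N _ _ _ _ _ _ _ _ _ _ _ _ w w' hres
  classical
  by_contra hcon
  push Not at hcon
  let T : Finset (Place 𝕜 N) :=
    Finset.univ.image fun σ : N ≃ₐ[K] N => w.comap (σ : N ≃+* N)
  let T' : Finset (Place 𝕜 N) :=
    Finset.univ.image fun σ : N ≃ₐ[K] N => w'.comap (σ : N ≃+* N)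
  have hT : ∀ σ : N ≃ₐ[K] N, w.comap (σ : N ≃+* N) ∈ T := fun σ =>
    Finset.mem_image_of_mem _ (Finset.mem_univ σ)
  have hT' : ∀ σ : N ≃ₐ[K] N, w'.comap (σ : N ≃+* N) ∈ T' := fun σ =>
    Finset.mem_image_of_mem _ (Finset.mem_univ σ)
  obtain ⟨f, hf0, hf1, hf2⟩ := Fin_exists T T' (by
    intro u hu hu'
    obtain ⟨σ, -, rfl⟩ := Finset.mem_image.1 hu
    obtain ⟨τ, -, hτ⟩ := Finset.mem_image.1 hu'
    apply hcon (σ * τ⁻¹)
    have h1 : w'.comap (τ : N ≃+* N) = w.comap (σ : N ≃+* N) := hτ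
    have h2 : w' = (w'.comap (τ : N ≃+* N)).comap ((τ⁻¹ : N ≃ₐ[K] N) : N ≃+* N) := by
      ext g
      rw [Place.comap_ord, Place.comap_ord]
      change w'.ord g = w'.ord (τ (τ⁻¹ g))
      rw [← AlgEquiv.mul_apply, mul_inv_cancel, AlgEquiv.one_apply]
    rw [h2, h1]
    ext g
    rfl) ⟨_, hT 1⟩
  have hσf : ∀ σ : N ≃ₐ[K] N, σ f ≠ 0 := fun σ => (map_ne_zero σ).2 hf0
  have hnorm := Algebra.norm_eq_prod_automorphisms K f
  have h1 : w.pord (algebraMap K N (Algebra.norm K f)) = 0 := by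
    rw [hnorm, Fin_pord_prod _ _ _ fun σ _ => hσf σ]
    refine Finset.sum_eq_zero fun σ _ => ?_
    exact hf1 _ (hT σ)
  have h2 : 0 < w'.pord (algebraMap K N (Algebra.norm K f)) := by
    rw [hnorm, Fin_pord_prod _ _ _ fun σ _ => hσf σ]
    refine Finset.sum_pos (fun σ _ => ?_) Finset.univ_nonempty
    exact hf2 _ (hT' σ)
  rw [w.pord_algebraMap_eq (E := K)] at h1
  rw [w'.pord_algebraMap_eq (E := K), ← hres] at h2
  have h3 : (w.ram K : ℤ) ≠ 0 := by exact_mod_cast w.ram_pos.ne'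
  rw [(mul_eq_zero.1 h1).resolve_left h3, mul_zero] at h2
  exact lt_irrefl _ h2

end MP7Z
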