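import Pool.Agent.Lib.MP_7f581e_Z.BR.Spec

/-!
# Package BR: inertia groups at finite level
-/

set_option autoImplicit false

namespace MP7Z

theorem FinRam_comap_mul {𝕜 K N : Type} [Field 𝕜] [IsAlgClosed 𝕜] [Field K] [Field N]
    [Algebra 𝕜 N] [Algebra K N] (w : Place 𝕜 N) (σ τ : N ≃ₐ[K] N) :
    w.comap ((σ * τ : N ≃ₐ[K] N) : N ≃+* N) =
      (w.comap (σ : N ≃+* N)).comap (τ : N ≃+* N) := by
  ext g
  rfl

theorem tFinRam (hFin : FinStmt) : FinRamStmt := by
  intro 𝕜 K N _ _ _ _ _ _ _ _ _ _ _ _ w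
  classical
  set v := w.res K with hv
  obtain ⟨S, e, hS, hsum, hall⟩ := exists_places_over_aux (E := N) v
  have hcom : ∀ (σ : N ≃ₐ[K] N) (f : K),
      (σ : N ≃+* N) (algebraMap K N f) = algebraMap K N ((1 : K ≃+* K) f) := by
    intro σ f
    exact σ.commutes f
  have hcomap : ∀ σ : N ≃ₐ[K] N, (w.comap (σ : N ≃+* N)).res K = v ∧
      (w.comap (σ : N ≃+* N)).ram K = w.ram K := by
    intro σ
    have h1 := w.res_comap (E := K) (σ : N ≃+* N) 1 (hcom σ)
    rw [Place.comap_one] at h1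
    exact h1
  have hmem : ∀ σ : N ≃ₐ[K] N, w.comap (σ : N ≃+* N) ∈ S := by
    intro σ
    apply hall
    · intro x hx
      have h1 := (w.comap (σ : N ≃+* N)).res_nonneg (E := K) x
      rw [(hcomap σ).1] at h1
      exact h1.1 hx
    · intro x hx
      rw [(w.comap (σ : N ≃+* N)).ord_algebraMap_eq (E := K), (hcomap σ).1]
      exact nsmul_pos hx ((w.comap (σ : N ≃+* N)).ram_pos).ne'
  have hex : ∀ u ∈ S, ∃ σ : N ≃ₐ[K] N, w.comap (σ : N ≃+* N) = u := by
    intro u hu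
    have h1 := Place.res_eq u v (hS u hu).1 (hS u hu).2
    obtain ⟨σ, hσ⟩ := hFin 𝕜 K N w u (by rw [h1.1])
    exact ⟨σ, hσ.symm⟩
  have he : ∀ u ∈ S, e u = w.ram K := by
    intro u hu
    have h1 := Place.res_eq u v (hS u hu).1 (hS u hu).2
    obtain ⟨σ, rfl⟩ := hex u hu
    rw [← h1.2, (hcomap σ).2]
  -- the stabilizer
  set St : Finset (N ≃ₐ[K] N) := Finset.univ.filter fun σ => w.comap (σ : N ≃+* N) = w with hSt
  have hfib : ∀ u ∈ S, (Finset.univ.filter fun σ : N ≃ₐ[K] N =>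
      w.comap (σ : N ≃+* N) = u).card = St.card := by
    intro u hu
    obtain ⟨τ, rfl⟩ := hex u hu
    symm
    refine Finset.card_bij (fun σ _ => σ * τ) ?_ ?_ ?_
    · intro σ hσ
      rw [hSt, Finset.mem_filter] at hσ
      rw [Finset.mem_filter]
      refine ⟨Finset.mem_univ _, ?_⟩
      rw [FinRam_comap_mul, hσ.2]
    · intro σ _ σ' _ h
      exact mul_right_cancel h
    · intro ρ hρ
      rw [Finset.mem_filter] at hρ
      refine ⟨ρ * τ⁻¹, ?_, inv_mul_cancel_right ρ τ⟩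
      rw [hSt, Finset.mem_filter]
      refine ⟨Finset.mem_univ _, ?_⟩
      rw [FinRam_comap_mul, hρ.2, ← FinRam_comap_mul, mul_inv_cancel]
      ext g
      rfl
  have hcard := Finset.card_eq_sum_card_fiberwise (s := (Finset.univ : Finset (N ≃ₐ[K] N)))
    (t := S) (f := fun σ : N ≃ₐ[K] N => w.comap (σ : N ≃+* N)) (fun σ _ => hmem σ)
  rw [Finset.sum_congr rfl hfib, Finset.sum_const, Finset.card_univ, ← Nat.card_eq_fintype_card,
    IsGalois.card_aut_eq_finrank, ← hsum, Finset.sum_congr rfl he, Finset.sum_const, smul_eq_mul,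
    smul_eq_mul] at hcard
  have hpos : 0 < S.card := Finset.card_pos.2 ⟨_, hmem 1⟩
  have h2 := Nat.eq_of_mul_eq_mul_left hpos hcard
  rw [Nat.card_eq_fintype_card, Fintype.card_subtype, h2]

end MP7Z
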