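import Pool.Agent.Lib.MP_7f581e_Z.BR.Spec

/-!
# A Frobenius lift which preserves a level induces a Frobenius structure on it
-/

namespace MP7Z

theorem tFrbK (hLvl : LvlStmt) (hFrb : FrbStmt) : FrbKStmt := by
  intro p _ Ω _ _ x hx K hK a ha φ' hφ' hc hKφ hKφ'
  obtain ⟨_, hKt, hKs⟩ := (hLvl p Ω x hx).1 K hK
  let φ : K ≃+* K :=
    { toFun := fun f => ⟨φ' (f : Ω), hKφ _ f.2⟩
      invFun := fun f => ⟨φ'⁻¹ (f : Ω), hKφ' _ f.2⟩
      left_inv := fun f => Subtype.ext (φ'.symm_apply_apply (f : Ω))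
      right_inv := fun f => Subtype.ext (φ'.apply_symm_apply (f : Ω))
      map_mul' := fun f g => Subtype.ext (map_mul φ' (f : Ω) (g : Ω))
      map_add' := fun f g => Subtype.ext (map_add φ' (f : Ω) (g : Ω)) }
  have hφ : ∀ f : K, ((φ f : K) : Ω) = φ' (f : Ω) := fun f => rfl
  have hpow : ∀ (n : ℕ) (f : K), (((φ ^ n) f : K) : Ω) = (φ' ^ n) (f : Ω) := by
    intro n
    induction n with
    | zero => intro f; rfl
    | succ n ih =>
      intro f
      rw [pow_succ, pow_succ]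
      change (((φ ^ n) (φ f) : K) : Ω) = (φ' ^ n) (φ' (f : Ω))
      rw [ih, hφ]
  refine ⟨φ, hφ, ?_⟩
  refine { primePow := ?_, card := ?_, frob := ?_, fin := ?_, sep := ?_ }
  · exact ((Fact.out : p.Prime).isPrimePow).pow ha.ne'
  · have : CharP (Cst p Ω) p := charP_of_injective_algebraMap (algebraMap (ZMod p) (Cst p Ω)).injective p
    rw [Nat.cast_pow, CharP.cast_eq_zero, zero_pow ha.ne']
  · intro c
    apply Subtype.ext
    exact hc c c.2
  · intro f
    obtain ⟨n, hn, h⟩ := (hFrb p Ω x hx).2 φ' hφ' {(f : Ω)}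
    refine ⟨n, hn, ?_⟩
    apply Subtype.ext
    rw [hpow]
    exact h _ (Finset.mem_singleton_self _)
  · refine ⟨⟨x, hK.mem⟩, ?_, hKt, hKs⟩
    apply Subtype.ext
    rw [hφ]
    exact mem_Gx.1 hφ'

end MP7Z
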