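import Pool.Agent.Lib.MP_7f581e_Z.BR.Spec

/-!
# Galois correspondence for levels
-/

namespace MP7Z

section

variable {p : ℕ} [Fact p.Prime] {Ω : Type} [Field Ω] [Algebra (ZMod p) Ω]

theorem Gal_sep {x : Ω} (hx : IsStage p x) :
    Algebra.IsSeparable (IntermediateField.adjoin (Cst p Ω) {x}) Ω := by
  have := hx.sep
  have hle : IntermediateField.adjoin (ZMod p) {x} ≤
      (IntermediateField.adjoin (Cst p Ω) {x}).restrictScalars (ZMod p) := by
    rw [IntermediateField.adjoin_le_iff, Set.singleton_subset_iff]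
    exact IntermediateField.subset_adjoin (Cst p Ω) _ (Set.mem_singleton x)
  let i : IntermediateField.adjoin (ZMod p) {x} →+* IntermediateField.adjoin (Cst p Ω) {x} :=
    (IntermediateField.inclusion hle).toRingHom
  let _ : Algebra (IntermediateField.adjoin (ZMod p) {x})
    (IntermediateField.adjoin (Cst p Ω) {x}) := i.toAlgebra
  have : IsScalarTower (IntermediateField.adjoin (ZMod p) {x})
    (IntermediateField.adjoin (Cst p Ω) {x}) Ω := IsScalarTower.of_algebraMap_eq (fun _ => rfl)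
  exact Algebra.isSeparable_tower_top_of_isSeparable (IntermediateField.adjoin (ZMod p) {x})
    (IntermediateField.adjoin (Cst p Ω) {x}) Ω

theorem Gal_galois {x : Ω} (hx : IsStage p x) :
    IsGalois (IntermediateField.adjoin (Cst p Ω) {x}) Ω := by
  have := Gal_sep hx
  have := hx.sepClosed
  have : IsSepClosure (IntermediateField.adjoin (Cst p Ω) {x}) Ω :=
    ⟨inferInstance, inferInstance⟩
  exact IsSepClosure.isGalois

/-- Extension of scalars for automorphisms fixing a subfield. -/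
noncomputable def Gal_lift (K₀ : IntermediateField (Cst p Ω) Ω) (γ : Ω ≃ₐ[ZMod p] Ω)
    (h : ∀ f ∈ K₀, γ f = f) : Ω ≃ₐ[K₀] Ω :=
  { γ with commutes' := fun f => h f f.2 }

theorem Gal_lift_apply (K₀ : IntermediateField (Cst p Ω) Ω) (γ : Ω ≃ₐ[ZMod p] Ω)
    (h : ∀ f ∈ K₀, γ f = f) (f : Ω) : Gal_lift K₀ γ h f = γ f := rfl

/-- Restriction of scalars. -/
noncomputable def Gal_rs (K₀ : IntermediateField (Cst p Ω) Ω) :
    (Ω ≃ₐ[K₀] Ω) →* (Ω ≃ₐ[ZMod p] Ω) where
  toFun γ := { γ with
    commutes' := fun c => γ.commutes (algebraMap (Cst p Ω) K₀ (algebraMap (ZMod p) (Cst p Ω) c)) }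
  map_one' := rfl
  map_mul' := fun _ _ => rfl

theorem Gal_rs_apply (K₀ : IntermediateField (Cst p Ω) Ω) (γ : Ω ≃ₐ[K₀] Ω) (f : Ω) :
    Gal_rs K₀ γ f = γ f := rfl

/-- The automorphisms fixing `x` and the constants fix `𝔽(x)`. -/
theorem Gal_fix {x : Ω} {γ : Ω ≃ₐ[ZMod p] Ω} (h : γ ∈ Fx p (insert x (Cst p Ω : Set Ω))) :
    ∀ f ∈ IntermediateField.adjoin (Cst p Ω) {x}, γ f = f := by
  intro f hf
  induction hf using IntermediateField.adjoin_induction with
  | mem y hy =>
    rw [Set.mem_singleton_iff.1 hy]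
    exact h x (Set.mem_insert _ _)
  | algebraMap c => exact h _ (Set.mem_insert_of_mem _ c.2)
  | add a b _ _ ha hb => rw [map_add, ha, hb]
  | inv a _ ha => rw [map_inv₀, ha]
  | mul a b _ _ ha hb => rw [map_mul, ha, hb]

end

theorem tGal : GalStmt := by
  classical
  intro p _ Ω _ _ x hx H S hH hS
  let K₀ : IntermediateField (Cst p Ω) Ω := IntermediateField.adjoin (Cst p Ω) {x}
  have hxK₀ : x ∈ K₀ := IntermediateField.subset_adjoin (Cst p Ω) _ (Set.mem_singleton x)
  have : IsGalois K₀ Ω := Gal_galois hx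
  -- the subgroup over `K₀`
  let H' : Subgroup (Ω ≃ₐ[K₀] Ω) := H.comap (Gal_rs K₀)
  have hrs : ∀ γ ∈ H, ∃ γ' ∈ H', Gal_rs K₀ γ' = γ := fun γ hγ =>
    ⟨Gal_lift K₀ γ (Gal_fix (hH hγ)), hγ, rfl⟩
  have hfix : ∀ γ : Ω ≃ₐ[K₀] Ω, Gal_rs K₀ γ ∈ Fx p (insert x (Cst p Ω : Set Ω)) := by
    intro γ
    rw [mem_Fx]
    intro a ha
    rw [Gal_rs_apply]
    rcases ha with rfl | ha
    · exact γ.commutes (⟨a, hxK₀⟩ : K₀)
    · exact γ.commutes (algebraMap (Cst p Ω) K₀ ⟨a, ha⟩)
  let L : IntermediateField K₀ Ω := IntermediateField.adjoin K₀ (S : Set Ω)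
  have hL : FiniteDimensional K₀ L := by
    have : Algebra.IsSeparable K₀ Ω := Gal_sep hx
    exact IntermediateField.finiteDimensional_adjoin fun s _ => Algebra.IsIntegral.isIntegral s
  have hLH : L.fixingSubgroup ≤ H' := by
    intro γ hγ
    refine hS ?_
    rw [mem_Fx]
    intro a ha
    rcases ha with ha | ha
    · exact mem_Fx.1 (hfix γ) a ha
    · exact (IntermediateField.mem_fixingSubgroup_iff L γ).1 hγ a
        (IntermediateField.subset_adjoin K₀ _ ha)
  have hopen : IsOpen (H' : Set (Ω ≃ₐ[K₀] Ω)) :=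
    Subgroup.isOpen_mono hLH (IntermediateField.fixingSubgroup_isOpen L)
  have hclosed : IsClosed (H' : Set (Ω ≃ₐ[K₀] Ω)) := OpenSubgroup.isClosed ⟨H', hopen⟩
  let K' : IntermediateField K₀ Ω := IntermediateField.fixedField H'
  have hK'H : K'.fixingSubgroup = H' :=
    InfiniteGalois.fixingSubgroup_fixedField (⟨H', hclosed⟩ : ClosedSubgroup (Ω ≃ₐ[K₀] Ω))
  have hfin : FiniteDimensional K₀ K' := by
    rw [← InfiniteGalois.isOpen_iff_finite, hK'H]
    exact hopen
  have hmem : ∀ f : Ω, f ∈ K' ↔ ∀ γ ∈ H, γ f = f := by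
    intro f
    rw [IntermediateField.mem_fixedField_iff]
    constructor
    · intro h γ hγ
      obtain ⟨γ', hγ', rfl⟩ := hrs γ hγ
      exact h γ' hγ'
    · intro h γ' hγ'
      exact h _ hγ'
  refine ⟨K'.restrictScalars (Cst p Ω), ⟨?_, ?_⟩, ?_, hmem, ?_⟩
  · exact K'.algebraMap_mem ⟨x, hxK₀⟩
  · have hfg : K'.FG := by
      apply IntermediateField.fg_of_fg_toSubalgebra
      rw [← Subalgebra.fg_top]
      have : Algebra.FiniteType K₀ K' := inferInstance
      exact this.out
    obtain ⟨T, hT, hTK⟩ := IntermediateField.fg_def.1 hfg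
    rw [← hTK, IntermediateField.adjoin_adjoin_left]
    exact IntermediateField.fg_adjoin_of_finite ((Set.finite_singleton x).union hT)
  · apply le_antisymm
    · intro γ hγ
      have h0 : γ ∈ Fx p (insert x (Cst p Ω : Set Ω)) := by
        rw [mem_Fx]
        intro a ha
        rcases ha with rfl | ha
        · exact mem_Fx.1 hγ a (K'.algebraMap_mem ⟨a, hxK₀⟩)
        · exact mem_Fx.1 hγ a ((K'.restrictScalars (Cst p Ω)).algebraMap_mem ⟨a, ha⟩)
      have h1 : Gal_lift K₀ γ (Gal_fix h0) ∈ K'.fixingSubgroup := by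
        rw [IntermediateField.mem_fixingSubgroup_iff]
        intro f hf
        exact mem_Fx.1 hγ f hf
      rw [hK'H] at h1
      exact h1
    · intro γ hγ
      rw [mem_Fx]
      intro f hf
      exact (hmem f).1 hf γ hγ
  · intro τ hτ f
    change f ∈ K' ↔ τ f ∈ K'
    rw [hmem, hmem]
    constructor
    · intro h γ hγ
      have h1 := h (τ⁻¹ * γ * τ) (by
        rw [hτ]
        convert hγ using 1
        group)
      change τ.symm (γ (τ f)) = f at h1
      rw [AlgEquiv.symm_apply_eq] at h1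
      exact h1
    · intro h γ hγ
      have h1 := h (τ * γ * τ⁻¹) ((hτ γ).1 hγ)
      change τ (γ (τ.symm (τ f))) = τ f at h1
      rw [AlgEquiv.symm_apply_apply] at h1
      exact τ.injective h1

end MP7Z
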