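import Pool.Agent.Lib.MP_7f581e_Z.BR.Spec

/-!
# Kummer elements of order prime to `ℓ` are moved by inertia
-/

namespace MP7Z.KumRM

open Polynomial

variable {p : ℕ} [Fact p.Prime] {Ω : Type} [Field Ω] [Algebra (ZMod p) Ω]

theorem isGalois {x : Ω} (hst : IsStage p x) {K : IntermediateField (Cst p Ω) Ω}
    (hx : x ∈ K) : IsGalois K Ω := by
  have hle : IntermediateField.adjoin (ZMod p) {x} ≤ K.restrictScalars (ZMod p) := by
    rw [IntermediateField.adjoin_simple_le_iff]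
    exact hx
  have h2 := hst.sep
  have h1 : Algebra.IsSeparable K Ω := by
    let : Algebra (IntermediateField.adjoin (ZMod p) {x}) K :=
      (IntermediateField.inclusion hle).toRingHom.toAlgebra
    have : IsScalarTower (IntermediateField.adjoin (ZMod p) {x}) K Ω :=
      IsScalarTower.of_algebraMap_eq (fun _ => rfl)
    exact Algebra.isSeparable_tower_top_of_isSeparable (IntermediateField.adjoin (ZMod p) {x}) K Ω
  have h3 : IsSepClosure K Ω := ⟨hst.sepClosed, h1⟩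
  infer_instance

theorem pord_eq_zero [IsAlgClosed (Cst p Ω)] {K : IntermediateField (Cst p Ω) Ω}
    {v : Place (Cst p Ω) K} {V : ValuationSubring Ω} (hv : Below v V) {f : K} (hf : f ≠ 0)
    (h : V.valuation (f : Ω) = 1) : v.pord f = 0 := by
  have h1 : 0 ≤ v.ord f := (hv f).2 ((V.valuation_le_one_iff _).1 h.le)
  have h2 : 0 ≤ v.ord f⁻¹ := (hv f⁻¹).2 ((V.valuation_le_one_iff _).1 (by
    rw [IntermediateField.coe_inv, map_inv₀, h, inv_one]))
  rw [v.ord_eq_pord hf] at h1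
  rw [v.ord_eq_pord (inv_ne_zero hf), v.pord_inv hf] at h2
  have h1' : 0 ≤ v.pord f := by exact_mod_cast h1
  have h2' : 0 ≤ -v.pord f := by exact_mod_cast h2
  omega

theorem distinct [IsAlgClosed (Cst p Ω)] {K : IntermediateField (Cst p Ω) Ω}
    {v : Place (Cst p Ω) K} {V : ValuationSubring Ω} (hv : Below v V) {ℓ : ℕ} (hℓ : ℓ.Prime)
    {z : K} (hz : z ≠ 0) (hnd : ¬ (ℓ : ℤ) ∣ v.pord z) {Z : Ω} (hZ : Z ^ ℓ = (z : Ω))
    {a b : K} (ha : a ≠ 0) (hb : b ≠ 0) {i j : ℕ} (hi : i < ℓ) (hj : j < ℓ)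
    (h : V.valuation ((a : Ω) * Z ^ i) = V.valuation ((b : Ω) * Z ^ j)) : i = j := by
  have hz' : (z : Ω) ≠ 0 := fun h => hz (Subtype.ext h)
  have ha' : (a : Ω) ≠ 0 := fun h => ha (Subtype.ext h)
  have hb' : (b : Ω) ≠ 0 := fun h => hb (Subtype.ext h)
  have hpow : ∀ (c : Ω) (k : ℕ), (c * Z ^ k) ^ ℓ = c ^ ℓ * (z : Ω) ^ k := by
    intro c k
    rw [mul_pow, ← pow_mul, mul_comm k ℓ, pow_mul, hZ]
  have h1 : V.valuation (((a ^ ℓ * z ^ i / (b ^ ℓ * z ^ j) : K)) : Ω) = 1 := by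
    have h2 : (((a ^ ℓ * z ^ i / (b ^ ℓ * z ^ j) : K)) : Ω) =
        ((a : Ω) * Z ^ i) ^ ℓ / ((b : Ω) * Z ^ j) ^ ℓ := by
      rw [hpow, hpow]
      push_cast
      rfl
    have hne : V.valuation (((b : Ω) * Z ^ j) ^ ℓ) ≠ 0 := by
      rw [Valuation.ne_zero_iff, hpow]
      exact mul_ne_zero (pow_ne_zero _ hb') (pow_ne_zero _ hz')
    rw [h2, map_div₀, map_pow, h, ← map_pow]
    exact div_self hne
  have h3 := pord_eq_zero hv (div_ne_zero (mul_ne_zero (pow_ne_zero _ ha) (pow_ne_zero _ hz))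
    (mul_ne_zero (pow_ne_zero _ hb) (pow_ne_zero _ hz))) h1
  rw [v.pord_div (mul_ne_zero (pow_ne_zero _ ha) (pow_ne_zero _ hz))
    (mul_ne_zero (pow_ne_zero _ hb) (pow_ne_zero _ hz)), v.pord_mul (pow_ne_zero _ ha)
    (pow_ne_zero _ hz), v.pord_mul (pow_ne_zero _ hb) (pow_ne_zero _ hz), v.pord_pow ha,
    v.pord_pow hb, v.pord_pow hz, v.pord_pow hz] at h3
  have h4 : (ℓ : ℤ) ∣ ((i : ℤ) - j) * v.pord z := ⟨v.pord b - v.pord a, by linarith⟩
  have h5 := (Int.Prime.dvd_mul' hℓ h4).resolve_right hnd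
  obtain ⟨k, hk⟩ := h5
  have h6 : k = 0 := by
    have hlt1 : (ℓ : ℤ) * k < ℓ := by rw [← hk]; omega
    have hlt2 : -(ℓ : ℤ) < (ℓ : ℤ) * k := by rw [← hk]; omega
    have hpos : (0 : ℤ) < ℓ := by exact_mod_cast hℓ.pos
    have h7 : k < 1 := by nlinarith
    have h8 : -1 < k := by nlinarith
    omega
  rw [h6] at hk
  omega

theorem terms_mem [IsAlgClosed (Cst p Ω)] {K : IntermediateField (Cst p Ω) Ω}
    {v : Place (Cst p Ω) K} {V : ValuationSubring Ω} (hv : Below v V) {ℓ : ℕ} (hℓ : ℓ.Prime)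
    {z : K} (hz : z ≠ 0) (hnd : ¬ (ℓ : ℤ) ∣ v.pord z) {Z : Ω} (hZ : Z ^ ℓ = (z : Ω))
    (a : ℕ → K) (h : ∑ i ∈ Finset.range ℓ, (a i : Ω) * Z ^ i ∈ V) :
    ∀ i ∈ Finset.range ℓ, (a i : Ω) * Z ^ i ∈ V := by
  classical
  have hz' : (z : Ω) ≠ 0 := fun h => hz (Subtype.ext h)
  have hZ0 : Z ≠ 0 := by
    rintro rfl
    rw [zero_pow hℓ.ne_zero] at hZ
    exact hz' hZ.symm
  set s := (Finset.range ℓ).filter (fun i => a i ≠ 0) with hs
  have hsum : ∑ i ∈ Finset.range ℓ, (a i : Ω) * Z ^ i = ∑ i ∈ s, (a i : Ω) * Z ^ i := by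
    rw [hs, Finset.sum_filter]
    refine Finset.sum_congr rfl fun i _ => ?_
    by_cases hai : a i = 0
    · rw [if_neg (not_not.2 hai), hai]
      simp
    · rw [if_pos hai]
  rcases s.eq_empty_or_nonempty with hse | hsn
  · intro i hi
    have hai : a i = 0 := by
      by_contra hne
      have : i ∈ s := Finset.mem_filter.2 ⟨hi, hne⟩
      rw [hse] at this
      exact absurd this (Finset.notMem_empty i)
    rw [hai]
    simp only [ZeroMemClass.coe_zero, zero_mul]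
    exact V.zero_mem
  · obtain ⟨i0, hi0, hmax⟩ := Finset.exists_max_image s
      (fun i => V.valuation ((a i : Ω) * Z ^ i)) hsn
    have hi0' := Finset.mem_filter.1 hi0
    have hval : V.valuation (∑ i ∈ s, (a i : Ω) * Z ^ i) = V.valuation ((a i0 : Ω) * Z ^ i0) := by
      rw [← Finset.add_sum_erase s _ hi0]
      apply Valuation.map_add_eq_of_lt_left
      apply Valuation.map_sum_lt
      · rw [Valuation.ne_zero_iff]
        exact mul_ne_zero (fun h => hi0'.2 (Subtype.ext h)) (pow_ne_zero _ hZ0)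
      · intro i hi
        have hi' := Finset.mem_erase.1 hi
        have hi'' := Finset.mem_filter.1 hi'.2
        refine lt_of_le_of_ne (hmax i hi'.2) ?_
        intro heq
        exact hi'.1 (distinct hv hℓ hz hnd hZ hi''.2 hi0'.2 (Finset.mem_range.1 hi''.1)
          (Finset.mem_range.1 hi0'.1) heq)
    rw [hsum, ← V.valuation_le_one_iff, hval] at h
    intro i hi
    by_cases hai : a i = 0
    · rw [hai]
      simp only [ZeroMemClass.coe_zero, zero_mul]
      exact V.zero_mem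
    · rw [← V.valuation_le_one_iff]
      exact (hmax i (Finset.mem_filter.2 ⟨hi, hai⟩)).trans h

theorem pow_mem_iff {V : ValuationSubring Ω} {y : Ω} {n : ℕ} (hn : n ≠ 0) :
    y ^ n ∈ V ↔ y ∈ V := by
  rw [← V.valuation_le_one_iff, ← V.valuation_le_one_iff, map_pow]
  exact pow_le_one_iff hn

theorem term_iff {K : IntermediateField (Cst p Ω) Ω}
    {v : Place (Cst p Ω) K} {V : ValuationSubring Ω} (hv : Below v V) {ℓ : ℕ} (hℓ : ℓ.Prime)
    {z : K} {Z : Ω} (hZ : Z ^ ℓ = (z : Ω)) (a : K) (i : ℕ) :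
    (a : Ω) * Z ^ i ∈ V ↔ 0 ≤ v.ord (a ^ ℓ * z ^ i) := by
  rw [hv, ← pow_mem_iff hℓ.ne_zero]
  have : (((a ^ ℓ * z ^ i : K)) : Ω) = ((a : Ω) * Z ^ i) ^ ℓ := by
    rw [mul_pow, ← pow_mul, mul_comm i ℓ, pow_mul, hZ]
    push_cast
    rfl
  rw [this]

theorem trace_imp [IsAlgClosed (Cst p Ω)] {K : IntermediateField (Cst p Ω) Ω}
    {v : Place (Cst p Ω) K} {V V' : ValuationSubring Ω} (hv : Below v V) (hv' : Below v V')
    {ℓ : ℕ} (hℓ : ℓ.Prime) {z : K} (hz : z ≠ 0) (hnd : ¬ (ℓ : ℤ) ∣ v.pord z) {Z : Ω}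
    (hZ : Z ^ ℓ = (z : Ω)) (a : ℕ → K) (h : ∑ i ∈ Finset.range ℓ, (a i : Ω) * Z ^ i ∈ V) :
    ∑ i ∈ Finset.range ℓ, (a i : Ω) * Z ^ i ∈ V' := by
  have h1 := terms_mem hv hℓ hz hnd hZ a h
  apply sum_mem
  intro i hi
  rw [term_iff hv' hℓ hZ, ← term_iff hv hℓ hZ]
  exact h1 i hi

theorem exists_sum {K : IntermediateField (Cst p Ω) Ω} {ℓ : ℕ} (hℓ : ℓ.Prime) {z : K} {Z : Ω}
    (hZ : Z ^ ℓ = (z : Ω)) {f : Ω} (hf : f ∈ IntermediateField.adjoin K {Z}) :
    ∃ a : ℕ → K, f = ∑ i ∈ Finset.range ℓ, (a i : Ω) * Z ^ i := by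
  have hm : (X ^ ℓ - C z : K[X]).Monic := monic_X_pow_sub_C z hℓ.ne_zero
  have hroot : aeval Z (X ^ ℓ - C z : K[X]) = 0 := by
    rw [map_sub, map_pow, aeval_X, aeval_C, hZ]
    exact sub_self _
  have halg : IsAlgebraic K Z := ⟨X ^ ℓ - C z, hm.ne_zero, hroot⟩
  have h1 : f ∈ (IntermediateField.adjoin K {Z}).toSubalgebra := hf
  rw [IntermediateField.adjoin_simple_toSubalgebra_of_isAlgebraic halg,
    Algebra.adjoin_singleton_eq_range_aeval] at h1
  obtain ⟨P, hP⟩ := h1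
  have h2 : aeval Z (P %ₘ (X ^ ℓ - C z)) = f := by
    rw [← hP, ← modByMonic_add_div P (X ^ ℓ - C z)]
    simp only [AlgHom.toRingHom_eq_coe, RingHom.coe_coe, map_add, map_mul, hroot, zero_mul, add_zero]
    rw [modByMonic_add_div P (X ^ ℓ - C z)]
  have h3 : (P %ₘ (X ^ ℓ - C z)).natDegree < ℓ := by
    have := natDegree_modByMonic_lt P hm (by
      intro h
      have h4 := congrArg natDegree h
      rw [natDegree_X_pow_sub_C, natDegree_one] at h4
      exact hℓ.ne_zero h4)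
    rwa [natDegree_X_pow_sub_C] at this
  refine ⟨fun i => (P %ₘ (X ^ ℓ - C z)).coeff i, ?_⟩
  rw [← h2, aeval_eq_sum_range' h3]
  refine Finset.sum_congr rfl fun i _ => ?_
  rw [Algebra.smul_def]
  rfl

end MP7Z.KumRM

namespace MP7Z

open KumRM Polynomial

theorem tKumR (hCst : CstStmt) (hConj : ConjStmt) : KumRStmt := by
  intro p _ Ω _ _ x hst K hK V hVt v hv ℓ hℓ hℓp z hz hnd Z hZ ζ hζ
  have hac : IsAlgClosed (Cst p Ω) := hCst p Ω x hst
  have hgal : IsGalois K Ω := isGalois hst hK.mem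
  have hz' : (z : Ω) ≠ 0 := fun h => hz (Subtype.ext h)
  -- the root of unity is a constant
  have hζc : ζ ∈ Cst p Ω := by
    rw [mem_algebraicClosure_iff]
    refine ⟨X ^ ℓ - 1, (monic_X_pow_sub_C (1 : ZMod p) hℓ.ne_zero).ne_zero, ?_⟩
    simp [hζ]
  have hζK : ζ ∈ K := K.algebraMap_mem ⟨ζ, hζc⟩
  -- the minimal polynomial of Z
  have hirr : Irreducible (X ^ ℓ - C z : K[X]) := by
    apply X_pow_sub_C_irreducible_of_prime hℓ
    intro b hb
    apply hnd
    have hb0 : b ≠ 0 := by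
      rintro rfl
      rw [zero_pow hℓ.ne_zero] at hb
      exact hz hb.symm
    rw [← hb, v.pord_pow hb0]
    exact ⟨_, rfl⟩
  have hm : (X ^ ℓ - C z : K[X]).Monic := monic_X_pow_sub_C z hℓ.ne_zero
  have hmin : X ^ ℓ - C z = minpoly K Z := by
    apply minpoly.eq_of_irreducible_of_monic hirr _ hm
    rw [map_sub, map_pow, aeval_X, aeval_C, hZ]
    exact sub_self _
  obtain ⟨σ, hσ⟩ := minpoly.exists_algEquiv_of_root' (K := K) (x := ζ * Z) (y := Z)
    (Algebra.IsAlgebraic.isAlgebraic _) (by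
      rw [← hmin, map_sub, map_pow, aeval_X, aeval_C, mul_pow, hζ, one_mul, hZ]
      exact sub_self _)
  let γ : Ω ≃ₐ[ZMod p] Ω := σ.restrictScalars (ZMod p)
  have hγK : ∀ f ∈ K, γ f = f := fun f hf => σ.commutes ⟨f, hf⟩
  have hγZ : γ Z = ζ * Z := hσ
  have hγK' : ∀ f ∈ K, γ.symm f = f := fun f hf => by
    rw [AlgEquiv.symm_apply_eq, hγK f hf]
  let V' : ValuationSubring Ω := V.comap (γ.symm : Ω →+* Ω)
  have hV' : ∀ f, f ∈ V' ↔ γ.symm f ∈ V := fun f => Iff.rfl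
  have hV't : V' ≠ ⊤ := by
    intro h
    apply hVt
    ext f
    simp only [ValuationSubring.mem_top, iff_true]
    have h1 : γ f ∈ V' := by rw [h]; trivial
    rwa [hV', AlgEquiv.symm_apply_apply] at h1
  have hv' : Below v V' := by
    intro f
    rw [hV', hγK' _ f.2]
    exact hv f
  let K' : IntermediateField (Cst p Ω) Ω :=
    (IntermediateField.adjoin K {Z}).restrictScalars (Cst p Ω)
  have hKK' : ∀ f ∈ K, f ∈ K' := fun f hf =>
    (IntermediateField.adjoin K {Z}).algebraMap_mem ⟨f, hf⟩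
  have hZK' : Z ∈ K' := IntermediateField.mem_adjoin_simple_self K Z
  have hK' : IsLevel p x K' := by
    refine ⟨hKK' x hK.mem, ?_⟩
    classical
    obtain ⟨t, ht⟩ := hK.fg
    refine ⟨t ∪ {Z}, ?_⟩
    change _ = (IntermediateField.adjoin K {Z}).restrictScalars (Cst p Ω)
    rw [IntermediateField.restrictScalars_adjoin]
    apply le_antisymm
    · apply IntermediateField.adjoin_le_iff.2
      intro y hy
      rw [Finset.coe_union, Finset.coe_singleton] at hy
      rcases hy with hy | hy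
      · apply IntermediateField.subset_adjoin
        left
        rw [← ht]
        exact IntermediateField.subset_adjoin _ _ hy
      · exact IntermediateField.subset_adjoin _ _ (Or.inr hy)
    · apply IntermediateField.adjoin_le_iff.2
      intro y hy
      rcases hy with hy | hy
      · have h1 : (K : IntermediateField (Cst p Ω) Ω) ≤
            IntermediateField.adjoin (Cst p Ω) ((t ∪ {Z} : Finset Ω) : Set Ω) := by
          rw [← ht]
          apply IntermediateField.adjoin.mono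
          rw [Finset.coe_union]
          exact Set.subset_union_left
        exact h1 hy
      · apply IntermediateField.subset_adjoin
        rw [Finset.coe_union, Finset.coe_singleton]
        exact Or.inr hy
  have htr : ∀ f ∈ K', f ∈ V' ↔ f ∈ V := by
    intro f hf
    obtain ⟨a, rfl⟩ := exists_sum hℓ hZ hf
    exact ⟨trace_imp hv' hv hℓ hz hnd hZ a, trace_imp hv hv' hℓ hz hnd hZ a⟩
  obtain ⟨γ', hγ', hγ'V⟩ := hConj p Ω x hst K' hK' V' V hV't hVt htr
  refine ⟨γ' * γ, ⟨?_, ?_⟩, ?_⟩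
  · intro f hf
    change γ' (γ f) = f
    rw [hγK f hf]
    exact hγ' f (hKK' f hf)
  · intro f
    change γ' (γ f) ∈ V ↔ f ∈ V
    rw [hγ'V, hV', AlgEquiv.symm_apply_apply]
  · change γ' (γ Z) = ζ * Z
    rw [hγZ, map_mul, hγ' ζ (hKK' ζ hζK), hγ' Z hZK']

end MP7Z
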