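import Pool.Agent.Lib.MP_7f581e_Z.BR.Spec

/-!
# Task BR/KumU: Kummer elements with order divisible by `n` are fixed by inertia
-/

namespace MP7Z

theorem tKumU (hCst : CstStmt) (hLvl : LvlStmt) (_hBel : BelStmt) (hRes : ResStmt) : KumUStmt := by
  intro p _ Ω _ _ x hx K hK V hV v hv n hn z hz hdvd Z hZ γ hγ
  have : IsAlgClosed (Cst p Ω) := hCst p Ω x hx
  have : IsCurveField (Cst p Ω) K := ((hLvl p Ω x hx).1 K hK).1
  obtain ⟨-, hC1, -, hact⟩ := hRes p Ω x hx V hV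
  obtain ⟨hγK, hγV⟩ := hγ
  obtain ⟨π, hπ⟩ := v.exists_unif
  have hπ0 : π ≠ 0 := by
    rintro rfl
    rw [AddValuation.map_zero] at hπ
    exact WithTop.top_ne_one hπ
  have hπ1 : v.pord π = 1 := (v.pord_eq_iff hπ0 1).2 hπ
  obtain ⟨k, hk⟩ := hdvd
  have hval : ∀ f : K, f ≠ 0 → v.pord f = 0 → V.valuation (f : Ω) = 1 := by
    intro f hf h
    have h1 : (f : Ω) ∈ V := (hv f).1 (by rw [v.ord_eq_pord hf, h]; rfl)
    have h2 : ((f⁻¹ : K) : Ω) ∈ V := (hv f⁻¹).1 (by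
      rw [v.ord_eq_pord (inv_ne_zero hf), v.pord_inv hf, h]; rfl)
    rw [← V.valuation_le_one_iff] at h1 h2
    have h3 : ((f⁻¹ : K) : Ω) = (f : Ω)⁻¹ := rfl
    have hf' : (f : Ω) ≠ 0 := fun h => hf (Subtype.ext h)
    rw [h3, map_inv₀] at h2
    have h0 : V.valuation (f : Ω) ≠ 0 := (Valuation.ne_zero_iff _).2 hf'
    exact le_antisymm h1 ((inv_le_one₀ (zero_lt_iff.2 h0)).1 h2)
  have hπΩ : (π : Ω) ≠ 0 := fun h => hπ0 (Subtype.ext h)
  have hpk : ((π ^ k : K) : Ω) = (π : Ω) ^ k := by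
    exact map_zpow₀ (algebraMap K Ω) π k
  have hγπ : γ ((π : Ω) ^ k) = (π : Ω) ^ k := by
    rw [← hpk]; exact hγK _ (π ^ k).2
  set y : Ω := Z / (π : Ω) ^ k with hy
  have hZy : Z = y * (π : Ω) ^ k := by
    rw [hy, div_mul_cancel₀ _ (zpow_ne_zero _ hπΩ)]
  set g : K := z * (π ^ k)⁻¹ ^ n with hg
  have hpk0 : π ^ k ≠ 0 := zpow_ne_zero _ hπ0
  have hg0 : g ≠ 0 := mul_ne_zero hz (pow_ne_zero _ (inv_ne_zero hpk0))
  have hgord : v.pord g = 0 := by
    rw [hg, v.pord_mul hz (pow_ne_zero _ (inv_ne_zero hpk0)), v.pord_pow (inv_ne_zero hpk0),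
      v.pord_inv hpk0, v.pord_zpow hπ0, hπ1, hk]
    ring
  have hyn : y ^ n = (g : Ω) := by
    rw [hy, div_pow, hZ, hg]
    have : ((z * (π ^ k)⁻¹ ^ n : K) : Ω) = (z : Ω) * (((π ^ k : K) : Ω)⁻¹) ^ n := rfl
    rw [this, hpk, inv_pow, div_eq_mul_inv]
  have hy1 : V.valuation y = 1 := by
    have h1 : V.valuation y ^ n = 1 := by rw [← map_pow, hyn, hval g hg0 hgord]
    exact (pow_eq_one_iff_of_nonneg zero_le (n := n) hn.ne').1 h1
  have hyV : y ∈ V := by rw [← V.valuation_le_one_iff, hy1]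
  have hy0 : y ≠ 0 := by
    intro h
    rw [h, map_zero] at hy1
    exact zero_ne_one hy1
  have h1 := hact 1 γ hγV (fun c hc => by
    rw [pow_one]
    exact hγK c (K.algebraMap_mem ⟨c, hc⟩)) y hyV
  rw [pow_one] at h1
  have h2 : γ y = y := by
    set ξ : Ω := γ y / y with hξ
    have hξn : ξ ^ n = 1 := by
      rw [hξ, div_pow, ← map_pow, hyn, hγK _ g.2]
      exact div_self (fun h => hg0 (Subtype.ext h))
    have hξC : ξ ∈ Cst p Ω := by
      rw [mem_algebraicClosure_iff]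
      have : IsIntegral (ZMod p) ξ := by
        apply IsIntegral.of_pow hn
        rw [hξn]
        exact isIntegral_one
      exact this.isAlgebraic
    have h3 : V.valuation (ξ - 1) < 1 := by
      have h4 : ξ - 1 = (γ y - y) / y := by
        rw [hξ, sub_div, div_self hy0]
      rw [h4, map_div₀, hy1, div_one]
      exact h1
    have h5 : ξ = 1 := by
      by_contra hne
      exact h3.ne (hC1 (ξ - 1) ((Cst p Ω).sub_mem hξC (Cst p Ω).one_mem) (sub_ne_zero.2 hne))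
    rw [hξ, div_eq_one_iff_eq hy0] at h5
    exact h5
  rw [hZy, map_mul, h2, hγπ]

end MP7Z
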