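import Pool.Agent.Lib.MP_7f581e_Z.BR.Spec

/-!
# Levels are function fields of curves
-/

namespace MP7Z

section

variable {p : ℕ} [Fact p.Prime] {Ω : Type} [Field Ω] [Algebra (ZMod p) Ω]

theorem Lvl_transc {x : Ω} (hx : Transcendental (ZMod p) x) : Transcendental (Cst p Ω) x := by
  intro h
  exact hx (h.restrictScalars (ZMod p))

theorem Lvl_transc_K {x : Ω} (hx : Transcendental (ZMod p) x)
    (K : IntermediateField (Cst p Ω) Ω) (hK : x ∈ K) :
    Transcendental (Cst p Ω) (⟨x, hK⟩ : K) := by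
  intro h
  exact Lvl_transc hx (h.algebraMap (A := Ω))

theorem Lvl_sep {x : Ω} (hs : Algebra.IsSeparable (IntermediateField.adjoin (ZMod p) {x}) Ω)
    (K : IntermediateField (Cst p Ω) Ω) (hK : x ∈ K) :
    Algebra.IsSeparable (IntermediateField.adjoin (Cst p Ω) {(⟨x, hK⟩ : K)}) K := by
  set L := IntermediateField.adjoin (Cst p Ω) {(⟨x, hK⟩ : K)} with hL
  let φ : L →ₐ[ZMod p] Ω :=
    ((K.val.comp L.val).restrictScalars (ZMod p))
  have hle : IntermediateField.adjoin (ZMod p) {x} ≤ φ.fieldRange := by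
    rw [IntermediateField.adjoin_le_iff, Set.singleton_subset_iff]
    exact ⟨⟨⟨x, hK⟩, IntermediateField.mem_adjoin_simple_self _ _⟩, rfl⟩
  let j : IntermediateField.adjoin (ZMod p) {x} →ₐ[ZMod p] L :=
    (AlgEquiv.ofInjectiveField φ).symm.toAlgHom.comp (IntermediateField.inclusion hle)
  have hj : ∀ z, φ (j z) = (z : Ω) := by
    intro z
    have h1 : AlgEquiv.ofInjectiveField φ ((AlgEquiv.ofInjectiveField φ).symm
      (IntermediateField.inclusion hle z)) = IntermediateField.inclusion hle z :=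
      AlgEquiv.apply_symm_apply _ _
    exact congrArg Subtype.val h1
  let i1 : Algebra (IntermediateField.adjoin (ZMod p) {x}) L := j.toRingHom.toAlgebra
  have h1 : IsScalarTower (IntermediateField.adjoin (ZMod p) {x}) L Ω :=
    IsScalarTower.of_algebraMap_eq fun z => (hj z).symm
  have h2 : IsScalarTower L K Ω := IsScalarTower.of_algebraMap_eq fun z => rfl
  have h3 : Algebra.IsSeparable L Ω :=
    Algebra.isSeparable_tower_top_of_isSeparable (IntermediateField.adjoin (ZMod p) {x}) L Ω
  exact Algebra.isSeparable_tower_bot_of_isSeparable L K Ω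

end

theorem tLvl : LvlStmt := by
  intro p _ Ω _ _ x hS
  refine ⟨fun K hK => ?_, fun S => ?_⟩
  · have h1 := Lvl_transc_K hS.transc K hK.mem
    have h2 := Lvl_sep hS.sep K hK.mem
    refine ⟨⟨⟨x, hK.mem⟩, h1, ?_⟩, h1, h2⟩
    have h3 : Algebra.EssFiniteType (Cst p Ω) K := IntermediateField.essFiniteType_iff.2 hK.fg
    have h4 : Algebra.EssFiniteType
        (IntermediateField.adjoin (Cst p Ω) {(⟨x, hK.mem⟩ : K)}) K :=
      Algebra.EssFiniteType.of_comp (Cst p Ω) _ K
    have h5 : Algebra.IsAlgebraic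
        (IntermediateField.adjoin (Cst p Ω) {(⟨x, hK.mem⟩ : K)}) K := h2.isAlgebraic
    exact Algebra.finite_of_essFiniteType_of_isAlgebraic
  · classical
    refine ⟨IntermediateField.adjoin (Cst p Ω) (insert x S : Finset Ω), ⟨?_, ?_⟩, ?_⟩
    · exact IntermediateField.subset_adjoin _ _ (Finset.mem_coe.2 (Finset.mem_insert_self _ _))
    · exact IntermediateField.fg_adjoin_finset _
    · intro s hs
      exact IntermediateField.subset_adjoin _ _ (Finset.mem_coe.2 (Finset.mem_insert_of_mem hs))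

end MP7Z
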