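import Pool.Agent.Lib.MP_7f581e_Z.BR.LevAux

/-!
# BR/Ram: ramification indices between levels
-/

namespace MP7Z

namespace Ram_

open LevAux

variable {p : ℕ} [Fact p.Prime] {Ω : Type} [Field Ω] [Algebra (ZMod p) Ω] {x : Ω}

/-- A stabilizing automorphism of a finite level is induced by an element of the decomposition
group. -/
theorem exists_dec (hConj : ConjStmt) (hst : IsStage p x) {K N : IntermediateField (Cst p Ω) Ω}
    [IsAlgClosed (Cst p Ω)] (hK : IsLevel p x K) (hN : IsLevel p x N) (h : K ≤ N)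
    {V : ValuationSubring Ω} (hV : V ≠ ⊤) {w : Place (Cst p Ω) N} (hw : Below w V)
    (σ : @AlgEquiv K N N _ _ _ (incAlg h) (incAlg h))
    (hσ : ∀ f : N, 0 ≤ w.ord (@DFunLike.coe _ _ _ _ σ f : N) ↔ 0 ≤ w.ord f) :
    ∃ γ ∈ Fx p (K : Set Ω) ⊓ Dec p V, ∀ f : N, γ (f : Ω) = ((@DFunLike.coe _ _ _ _ σ f : N) : Ω) := by
  obtain ⟨γ, hγ, hγσ⟩ := exists_lift hst hK.mem h σ
  let V'' : ValuationSubring Ω := V.comap (γ.toRingEquiv : Ω →+* Ω)
  have hV'' : ∀ f, f ∈ V'' ↔ γ f ∈ V := fun f => Iff.rfl
  have hne : V'' ≠ ⊤ := by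
    intro htop
    apply hV
    rw [eq_top_iff]
    intro f _
    have h1 : γ.symm f ∈ V'' := by
      rw [htop]
      trivial
    rw [hV'', AlgEquiv.apply_symm_apply] at h1
    exact h1
  obtain ⟨δ, hδ, hδV⟩ := hConj p Ω x hst N hN V V'' hV hne (by
    intro f hf
    rw [hV'']
    have h1 : γ f = ((@DFunLike.coe _ _ _ _ σ (⟨f, hf⟩ : N) : N) : Ω) := hγσ ⟨f, hf⟩
    rw [h1, ← hw, hσ]
    exact (hw ⟨f, hf⟩).symm)
  refine ⟨γ * δ, ⟨?_, ?_⟩, ?_⟩
  · refine (Fx p (K : Set Ω)).mul_mem hγ ?_
    intro a ha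
    exact hδ a (h ha)
  · intro f
    change γ (δ f) ∈ V ↔ f ∈ V
    rw [← hV'']
    exact hδV f
  · intro f
    change γ (δ f) = _
    rw [hδ f f.2]
    exact hγσ f

end Ram_

open LevAux Ram_ in
/-- **Ram.** Ramification indices between levels. -/
theorem tRam (hCst : CstStmt) (hLvl : LvlStmt) (hBel : BelStmt) (hConj : ConjStmt)
    (hFR : FinRamStmt) : RamStmt := by
  intro p _ Ω _ _ x hst K K' hKK hK hK' V hV v v' hv hv'
  have hAC : IsAlgClosed (Cst p Ω) := hCst p Ω x hst
  have hKc : IsCurveField (Cst p Ω) K := ((hLvl p Ω x hst).1 K hK).1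
  have hKc' : IsCurveField (Cst p Ω) K' := ((hLvl p Ω x hst).1 K' hK').1
  have hfinKK := finite_of_level hst hK hK' hKK
  have hres := res_below hst hKK hfinKK hv hv'
  let aKK := incAlg hKK
  have tKK := tower_inc hKK
  refine ⟨⟨v'.ram K, v'.ram_pos, fun f => ?_⟩, ?_⟩
  · have h1 := v'.pord_algebraMap_eq (E := K) f
    rw [hres] at h1
    exact h1
  · intro hin f
    obtain ⟨T, hT⟩ := hK'.fg
    obtain ⟨N, h, hN, hTN, hfin, hgal⟩ := exists_galois_level hst hK T
    have hK'N : K' ≤ N := by
      rw [← hT, IntermediateField.adjoin_le_iff]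
      exact hTN
    have hNc : IsCurveField (Cst p Ω) N := ((hLvl p Ω x hst).1 N hN).1
    obtain ⟨w, hw, -, -⟩ := hBel p Ω x hst N hN V hV
    have hfin' := finite_of_level hst hK' hN hK'N
    have hresK := res_below hst h hfin hv hw
    have hresK' := res_below hst hK'N hfin' hv' hw
    let aKN := incAlg h
    have tKN := tower_inc h
    let aK'N := incAlg hK'N
    have tK'N := tower_inc hK'N
    have t3 : IsScalarTower K K' N := tower_three hKK hK'N
    have hgal' : IsGalois K' N := IsGalois.tower_top_of_isGalois K K' N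
    have c1 := hFR (Cst p Ω) K N w
    have c2 := hFR (Cst p Ω) K' N w
    let F : {σ : N ≃ₐ[K'] N // w.comap (σ : N ≃+* N) = w} →
        {σ : N ≃ₐ[K] N // w.comap (σ : N ≃+* N) = w} :=
      fun σ => ⟨σ.1.restrictScalars K, σ.2⟩
    have hF : Function.Bijective F := by
      constructor
      · intro σ τ hστ
        apply Subtype.ext
        apply AlgEquiv.ext
        intro a
        have h1 := congrArg (fun s : {σ : N ≃ₐ[K] N // w.comap (σ : N ≃+* N) = w} => s.1 a) hστ
        exact h1
      · intro σ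
        obtain ⟨γ, hγ, hγσ⟩ := exists_dec hConj hst hK hN h hV hw σ.1 (by
          intro g
          have h1 : (w.comap (σ.1 : N ≃+* N)).ord g = w.ord g := by rw [σ.2]
          rw [← h1]
          rfl)
        have hγK' := hin γ hγ
        let τ : N ≃ₐ[K'] N :=
          { (σ.1 : N ≃+* N) with
            commutes' := by
              intro a
              apply Subtype.ext
              have h1 := hγσ (algebraMap K' N a)
              have h2 : γ (((algebraMap K' N a : N)) : Ω) = (a : Ω) := hγK' a a.2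
              rw [h2] at h1
              exact h1.symm }
        refine ⟨⟨τ, ?_⟩, ?_⟩
        · have h1 : (τ : N ≃+* N) = (σ.1 : N ≃+* N) := by
            ext a
            rfl
          rw [h1]
          exact σ.2
        · apply Subtype.ext
          apply AlgEquiv.ext
          intro a
          rfl
    have hcard := Nat.card_congr (Equiv.ofBijective F hF)
    rw [c1, c2] at hcard
    have e1 := w.pord_algebraMap_eq (E := K) f
    have e2 := w.pord_algebraMap_eq (E := K') (⟨(f : Ω), hKK f.2⟩ : K')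
    rw [hresK] at e1
    rw [hresK', hcard] at e2
    have e3 : (algebraMap K' N (⟨(f : Ω), hKK f.2⟩ : K')) = algebraMap K N f := rfl
    rw [e3, e1] at e2
    have hpos : (0 : ℤ) < (w.ram K : ℤ) := by exact_mod_cast w.ram_pos (E := K)
    exact (mul_left_cancel₀ hpos.ne' e2).symm

end MP7Z
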