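import Pool.Agent.Lib.MP_7f581e_Z.BR.Cst
import Pool.Agent.Lib.MP_7f581e_Z.BR.Lvl
import Pool.Agent.Lib.MP_7f581e_Z.BR.Bel
import Pool.Agent.Lib.MP_7f581e_Z.BR.Abv
import Pool.Agent.Lib.MP_7f581e_Z.BR.Fin
import Pool.Agent.Lib.MP_7f581e_Z.BR.FinRam
import Pool.Agent.Lib.MP_7f581e_Z.BR.Conj
import Pool.Agent.Lib.MP_7f581e_Z.BR.ResT
import Pool.Agent.Lib.MP_7f581e_Z.BR.KumU
import Pool.Agent.Lib.MP_7f581e_Z.BR.KumR
import Pool.Agent.Lib.MP_7f581e_Z.BR.Cyc
import Pool.Agent.Lib.MP_7f581e_Z.BR.Frb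
import Pool.Agent.Lib.MP_7f581e_Z.BR.FrbK
import Pool.Agent.Lib.MP_7f581e_Z.BR.Spl
import Pool.Agent.Lib.MP_7f581e_Z.BR.BC
import Pool.Agent.Lib.MP_7f581e_Z.BR.Gal
import Pool.Agent.Lib.MP_7f581e_Z.BR.Ram

/-! # Package BR, complete: all statements of `BR/Spec.lean` -/

namespace MP7Z

theorem br_cst : CstStmt := tCst
theorem br_lvl : LvlStmt := tLvl
theorem br_bel : BelStmt := tBel br_cst br_lvl
theorem br_abv : AbvStmt := tAbv br_cst
theorem br_res : ResStmt := tRes br_cst br_lvl br_bel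
theorem br_fin : FinStmt := tFin
theorem br_finRam : FinRamStmt := tFinRam br_fin
theorem br_conj : ConjStmt := tConj br_cst br_lvl br_bel br_fin
theorem br_kumU : KumUStmt := tKumU br_cst br_lvl br_bel br_res
theorem br_kumR : KumRStmt := tKumR br_cst br_conj
theorem br_cyc : CycStmt := tCyc br_cst br_lvl br_bel
theorem br_bc : BCStmt := tBC br_cst br_lvl br_bel br_abv br_conj br_res
theorem br_frb : FrbStmt := tFrb
theorem br_frbK : FrbKStmt := tFrbK br_lvl br_frb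
theorem br_spl : SplStmt := tSpl
theorem br_gal : GalStmt := tGal
theorem br_ram : RamStmt := tRam br_cst br_lvl br_bel br_conj br_finRam

end MP7Z
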