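import Pool.Agent.Lib.MP_7f581e_Z.BR.Spec

/-!
# The constants are algebraically closed
-/

namespace MP7Z

theorem tCst : CstStmt := by
  intro p _ Ω _ _ x hst
  have hsc := hst.sepClosed
  have hperf : PerfectField (Cst p Ω) := Algebra.IsAlgebraic.perfectField (K := ZMod p)
  apply IsAlgClosed.of_exists_root
  intro P _ hPi
  have hsep : P.Separable := PerfectField.separable_of_irreducible hPi
  obtain ⟨a, ha⟩ := IsSepClosed.exists_aeval_eq_zero Ω P hPi.degree_pos.ne' hsep
  have h1 : IsAlgebraic (Cst p Ω) a := ⟨P, hPi.ne_zero, ha⟩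
  have h2 : IsAlgebraic (ZMod p) a := h1.restrictScalars (ZMod p)
  refine ⟨⟨a, mem_algebraicClosure_iff.2 h2⟩, ?_⟩
  have h3 : algebraMap (Cst p Ω) Ω (P.eval ⟨a, mem_algebraicClosure_iff.2 h2⟩) = 0 := by
    rw [← Polynomial.aeval_algebraMap_apply_eq_algebraMap_eval]
    exact ha
  exact (map_eq_zero_iff _ (algebraMap (Cst p Ω) Ω).injective).1 h3

end MP7Z
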