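import Pool.Agent.Lib.MP_7f581e_Z.BR.Spec

/-!
# BR/Frb: existence of a Frobenius element in the absolute Galois group of `𝔽_p(x)`
-/

namespace MP7Z

open IntermediateField

open Polynomial in
/-- An endomorphism of `k` extends to `k(f)`, fixing the transcendental element `f`. -/
theorem Frb_ext {k L : Type} [Field k] [Field L] [Algebra k L] (σ : k →+* k) {f : L}
    (hf : Transcendental k f) :
    ∃ g : adjoin k {f} →+* L, g (AdjoinSimple.gen k f) = f ∧
      ∀ c : k, g (algebraMap k (adjoin k {f}) c) = algebraMap k L (σ c) := by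
  set e := RatFunc.algEquivOfTranscendental f hf with he
  have hy : nonZeroDivisors k[X] ≤ Submonoid.comap (mapRingHom σ) (nonZeroDivisors k[X]) := by
    intro q hq
    rw [mem_nonZeroDivisors_iff_ne_zero] at hq
    rw [Submonoid.mem_comap, mem_nonZeroDivisors_iff_ne_zero]
    intro h0
    exact hq ((Polynomial.map_eq_zero_iff σ.injective).1 h0)
  set m : RatFunc k →+* RatFunc k := IsLocalization.map (RatFunc k) (mapRingHom σ) hy with hm
  have hma : ∀ q : k[X], m (algebraMap k[X] (RatFunc k) q) =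
      algebraMap k[X] (RatFunc k) (q.map σ) := fun q => IsLocalization.map_eq hy q
  refine ⟨(algebraMap (adjoin k {f}) L).comp ((e : RatFunc k →+* adjoin k {f}).comp
    (m.comp (e.symm : adjoin k {f} →+* RatFunc k))), ?_, ?_⟩
  · change algebraMap (adjoin k {f}) L (e (m (e.symm (AdjoinSimple.gen k f)))) = f
    rw [he, RatFunc.algEquivOfTranscendental_symm_gen, ← RatFunc.algebraMap_X, hma, map_X,
      RatFunc.algEquivOfTranscendental_algebraMap, aeval_X, AdjoinSimple.algebraMap_gen]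
  · intro c
    change algebraMap (adjoin k {f}) L (e (m (e.symm (algebraMap k (adjoin k {f}) c)))) =
      algebraMap k L (σ c)
    rw [AlgEquiv.commutes, IsScalarTower.algebraMap_apply k k[X] (RatFunc k), hma,
      Polynomial.algebraMap_eq, map_C, he, RatFunc.algEquivOfTranscendental_algebraMap, aeval_C,
      ← IsScalarTower.algebraMap_apply]

section

variable {p : ℕ} [Fact p.Prime] {Ω : Type} [Field Ω] [Algebra (ZMod p) Ω] {x : Ω}

theorem Frb_fix (φ : Ω →ₐ[ZMod p] Ω) (hφ : φ x = x) (a : Ω)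
    (ha : a ∈ adjoin (ZMod p) {x}) : φ a = a := by
  induction ha using adjoin_induction with
  | mem y hy => rw [Set.mem_singleton_iff.1 hy, hφ]
  | algebraMap r => exact φ.commutes r
  | add y z _ _ hy hz => rw [map_add, hy, hz]
  | inv y _ hy => rw [map_inv₀, hy]
  | mul y z _ _ hy hz => rw [map_mul, hy, hz]

/-- An endomorphism fixing `x` as an endomorphism over `𝔽_p(x)`. -/
def Frb_hom (φ : Ω →ₐ[ZMod p] Ω) (hφ : φ x = x) : Ω →ₐ[adjoin (ZMod p) {x}] Ω :=
  { (φ : Ω →+* Ω) with commutes' := fun a => Frb_fix φ hφ a a.2 }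

theorem Frb_hom_apply (φ : Ω →ₐ[ZMod p] Ω) (hφ : φ x = x) (a : Ω) : Frb_hom φ hφ a = φ a := rfl

theorem Frb_pow_mem {φ : Ω ≃ₐ[ZMod p] Ω} (hφ : φ ∈ Gx p x) (i : ℕ) : (φ ^ i) x = x :=
  mem_Gx.1 (pow_mem hφ i)

theorem Frb_fin_one (hs : Algebra.IsAlgebraic (adjoin (ZMod p) {x}) Ω) {φ : Ω ≃ₐ[ZMod p] Ω}
    (hφ : φ ∈ Gx p x) (s : Ω) : ∃ n : ℕ, 0 < n ∧ (φ ^ n) s = s := by
  set P := minpoly (adjoin (ZMod p) {x}) s with hP
  have hint : IsIntegral (adjoin (ZMod p) {x}) s := (hs.isAlgebraic s).isIntegral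
  have hroot : ∀ i : ℕ, (φ ^ i) s ∈ P.rootSet Ω := by
    intro i
    rw [Polynomial.mem_rootSet]
    refine ⟨minpoly.ne_zero hint, ?_⟩
    have h1 := Polynomial.aeval_algHom_apply
      (Frb_hom ((φ ^ i : Ω ≃ₐ[ZMod p] Ω) : Ω →ₐ[ZMod p] Ω) (Frb_pow_mem hφ i)) s P
    rw [minpoly.aeval, map_zero] at h1
    exact h1
  have hfin : Finite (P.rootSet Ω) := (Polynomial.rootSet_finite P Ω).to_subtype
  obtain ⟨i, j, hij, h⟩ := Finite.exists_ne_map_eq_of_infinite
    (fun i : ℕ => (⟨(φ ^ i) s, hroot i⟩ : P.rootSet Ω))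
  have h' : (φ ^ i) s = (φ ^ j) s := congrArg Subtype.val h
  wlog hlt : i < j generalizing i j
  · exact this j i hij.symm h.symm h'.symm (lt_of_le_of_ne (not_lt.1 hlt) hij.symm)
  refine ⟨j - i, by omega, ?_⟩
  apply (φ ^ i).injective
  rw [h', ← AlgEquiv.mul_apply, ← pow_add, Nat.add_sub_cancel' hlt.le]

theorem Frb_pow_dvd {φ : Ω ≃ₐ[ZMod p] Ω} {n m : ℕ} {s : Ω} (h : (φ ^ n) s = s) (hnm : n ∣ m) :
    (φ ^ m) s = s := by
  obtain ⟨k, rfl⟩ := hnm
  induction k with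
  | zero => rfl
  | succ k ih => rw [Nat.mul_succ, pow_add, AlgEquiv.mul_apply, h, ih]

theorem Frb_fin (hs : Algebra.IsAlgebraic (adjoin (ZMod p) {x}) Ω) {φ : Ω ≃ₐ[ZMod p] Ω}
    (hφ : φ ∈ Gx p x) (S : Finset Ω) : ∃ n : ℕ, 0 < n ∧ ∀ s ∈ S, (φ ^ n) s = s := by
  choose n hn0 hn using Frb_fin_one hs hφ
  exact ⟨∏ s ∈ S, n s, Finset.prod_pos fun s _ => hn0 s,
    fun s hsS => Frb_pow_dvd (hn s) (Finset.dvd_prod_of_mem n hsS)⟩

theorem Frb_charP : CharP (Cst p Ω) p :=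
  charP_of_injective_algebraMap (algebraMap (ZMod p) (Cst p Ω)).injective p

theorem Frb_transc (hx : Transcendental (ZMod p) x) : Transcendental (Cst p Ω) x := by
  intro h
  exact hx (h.restrictScalars (ZMod p))

/-- The Frobenius on the constants extends to `𝔽(x)`, fixing `x`. -/
theorem Frb_exists_g (hx : Transcendental (ZMod p) x) :
    ∃ g : adjoin (Cst p Ω) {x} →ₐ[ZMod p] Ω, g (AdjoinSimple.gen (Cst p Ω) x) = x ∧
      ∀ c : Cst p Ω, g (algebraMap (Cst p Ω) (adjoin (Cst p Ω) {x}) c) = (c : Ω) ^ p := by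
  have := Frb_charP (p := p) (Ω := Ω)
  have : ExpChar (Cst p Ω) p := expChar_prime _ p
  obtain ⟨g₀, h1, h2⟩ := Frb_ext (frobenius (Cst p Ω) p) (Frb_transc hx)
  refine ⟨{ g₀ with commutes' := fun r => ?_ }, h1, h2⟩
  exact RingHom.congr_fun (Subsingleton.elim
      (g₀.comp (algebraMap (ZMod p) (adjoin (Cst p Ω) {x}))) (algebraMap (ZMod p) Ω)) r

theorem Frb_sep (hs : Algebra.IsSeparable (adjoin (ZMod p) {x}) Ω) :
    Algebra.IsSeparable (adjoin (Cst p Ω) {x}) Ω := by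
  have hle : adjoin (ZMod p) {x} ≤ (adjoin (Cst p Ω) {x}).restrictScalars (ZMod p) := by
    rw [adjoin_le_iff]
    intro y hy
    rw [Set.mem_singleton_iff.1 hy]
    exact (mem_adjoin_simple_self (Cst p Ω) x : x ∈ adjoin (Cst p Ω) {x})
  let _ : Algebra (adjoin (ZMod p) {x}) (adjoin (Cst p Ω) {x}) :=
    (inclusion hle).toRingHom.toAlgebra
  have : IsScalarTower (adjoin (ZMod p) {x}) (adjoin (Cst p Ω) {x}) Ω :=
    IsScalarTower.of_algebraMap_eq fun a => rfl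
  exact Algebra.isSeparable_tower_top_of_isSeparable (adjoin (ZMod p) {x}) _ _

end

theorem tFrb : FrbStmt := by
  intro p _ Ω _ _ x hx
  have hsep := hx.sep
  have := hx.sepClosed
  have halg : Algebra.IsAlgebraic (adjoin (ZMod p) {x}) Ω := inferInstance
  refine ⟨?_, fun φ hφ S => Frb_fin halg hφ S⟩
  obtain ⟨g, hg1, hg2⟩ := Frb_exists_g hx.transc
  have := Frb_sep hx.sep
  obtain ⟨φ₀, hφ₀⟩ := IsSepClosed.surjective_domRestrict_of_isSeparable
    (K := ZMod p) (adjoin (Cst p Ω) {x}) (E := Ω) (M := Ω) g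
  have hr : ∀ a : adjoin (Cst p Ω) {x}, φ₀ (a : Ω) = g a := fun a => by
    rw [← hφ₀]
    rfl
  have hφx : φ₀ x = x := (hr (AdjoinSimple.gen (Cst p Ω) x)).trans hg1
  have hbij : Function.Bijective φ₀ :=
    Algebra.IsAlgebraic.algHom_bijective (Frb_hom φ₀ hφx)
  refine ⟨AlgEquiv.ofBijective φ₀ hbij, mem_Gx.2 hφx, ?_⟩
  intro c hc
  change φ₀ c = c ^ p
  exact (hr (algebraMap (Cst p Ω) (adjoin (Cst p Ω) {x}) ⟨c, hc⟩)).trans (hg2 ⟨c, hc⟩)

end MP7Z
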