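import Pool.Agent.Lib.MP_7f581e_Z.Crv.Frob

/-!
# Restriction of places in finite extensions of curve fields
-/

namespace MP7Z

variable {𝕜 E E' : Type} [Field 𝕜] [IsAlgClosed 𝕜] [Field E] [Algebra 𝕜 E] [IsCurveField 𝕜 E]
  [Field E'] [Algebra 𝕜 E'] [Algebra E E'] [IsScalarTower 𝕜 E E'] [Module.Finite E E']


omit [IsCurveField 𝕜 E] in
theorem exists_ord_neg_of_finite (w : Place 𝕜 E') : ∃ f : E, w.ord (algebraMap E E' f) < 0 := by
  by_contra hcon
  push Not at hcon
  obtain ⟨z, hz⟩ := w.exists_unif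
  have hz0 : z ≠ 0 := by
    rintro rfl
    rw [AddValuation.map_zero] at hz
    exact WithTop.top_ne_one hz
  have hi : IsIntegral E z⁻¹ := Algebra.IsIntegral.isIntegral z⁻¹
  let φ : E →+* w.ring := (algebraMap E E').codRestrict w.ring.toSubring (fun x => hcon x)
  have h1 : IsIntegral w.ring z⁻¹ := by
    exact hi.map_of_comp_eq φ (RingHom.id E') (by ext x; rfl)
  obtain ⟨y, hy⟩ := (IsIntegrallyClosed.isIntegral_iff (R := w.ring) (K := E')).1 h1
  have h2 : 0 ≤ w.ord z⁻¹ := by
    rw [← hy]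
    exact y.2
  have h3 : w.oz z = 1 := w.oz_eq (by rw [hz]; rfl)
  rw [w.nonneg_iff (inv_ne_zero hz0), w.oz_inv hz0, h3] at h2
  omega

theorem exists_res (w : Place 𝕜 E') : ∃ v : Place 𝕜 E,
    ∀ f : E, 0 ≤ v.ord f ↔ 0 ≤ w.ord (algebraMap E E' f) := by
  let W : ValuationSubring E :=
    (AddValuation.toValuation (w.ord.comap (algebraMap E E'))).valuationSubring
  have hW : ∀ f : E, f ∈ W ↔ 0 ≤ w.ord (algebraMap E E' f) := fun f => Iff.rfl
  have hne : W ≠ ⊤ := by
    intro h
    obtain ⟨f, hf⟩ := exists_ord_neg_of_finite (E := E) w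
    have : f ∈ W := by rw [h]; trivial
    rw [hW] at this
    exact absurd this (not_le.2 hf)
  obtain ⟨v, hv⟩ := exists_place_of_valuationSubring W hne (by
    intro c
    rw [hW, ← IsScalarTower.algebraMap_apply 𝕜 E E']
    exact w.const c)
  exact ⟨v, fun f => by rw [← hv, hW]⟩

/-- The restriction of a place to a subfield over which the field is finite. -/
noncomputable def Place.res (E : Type) [Field E] [Algebra 𝕜 E] [IsCurveField 𝕜 E] [Algebra E E']
    [IsScalarTower 𝕜 E E'] [Module.Finite E E'] (w : Place 𝕜 E') : Place 𝕜 E :=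
  (exists_res (E := E) w).choose

theorem Place.res_nonneg (w : Place 𝕜 E') (f : E) :
    0 ≤ (w.res E).ord f ↔ 0 ≤ w.ord (algebraMap E E' f) :=
  (exists_res (E := E) w).choose_spec f

theorem exists_ram (w : Place 𝕜 E') : ∃ e : ℕ, 0 < e ∧
    ∀ f : E, w.ord (algebraMap E E' f) = e • (w.res E).ord f := by
  set v := w.res E with hv
  obtain ⟨z, hz⟩ := v.exists_unif
  have hz0 : z ≠ 0 := by
    rintro rfl
    rw [AddValuation.map_zero] at hz
    exact WithTop.top_ne_one hz
  have hz1 : v.pord z = 1 := v.oz_eq (by rw [hz]; rfl)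
  have hinj : ∀ f : E, f ≠ 0 → algebraMap E E' f ≠ 0 := fun f hf => (map_ne_zero _).2 hf
  have hunit : ∀ f : E, f ≠ 0 → v.pord f = 0 → w.pord (algebraMap E E' f) = 0 := by
    intro f hf h
    have h1 := (w.res_nonneg (E := E) f).1 (by rw [← hv, v.ord_eq_pord hf, h]; rfl)
    have h2 := (w.res_nonneg (E := E) f⁻¹).1 (by
      rw [← hv, v.ord_eq_pord (inv_ne_zero hf), v.pord_inv hf, h]; rfl)
    rw [w.ord_eq_pord (hinj f hf)] at h1
    rw [map_inv₀, w.ord_eq_pord (inv_ne_zero (hinj f hf)), w.pord_inv (hinj f hf)] at h2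
    have h1' : 0 ≤ w.pord (algebraMap E E' f) := by exact_mod_cast h1
    have h2' : 0 ≤ -w.pord (algebraMap E E' f) := by exact_mod_cast h2
    omega
  have hpos : 0 < w.pord (algebraMap E E' z) := by
    have h1 : ¬ 0 ≤ w.ord (algebraMap E E' z⁻¹) := by
      rw [← w.res_nonneg (E := E), ← hv, v.ord_eq_pord (inv_ne_zero hz0), v.pord_inv hz0, hz1]
      intro h
      have : (0 : ℤ) ≤ -1 := by exact_mod_cast h
      omega
    rw [map_inv₀, w.ord_eq_pord (inv_ne_zero (hinj z hz0)), w.pord_inv (hinj z hz0)] at h1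
    by_contra h2
    apply h1
    have : (0 : ℤ) ≤ -w.pord (algebraMap E E' z) := by omega
    exact_mod_cast this
  refine ⟨(w.pord (algebraMap E E' z)).toNat, by omega, fun f => ?_⟩
  have he : (((w.pord (algebraMap E E' z)).toNat : ℕ) : ℤ) = w.pord (algebraMap E E' z) :=
    Int.toNat_of_nonneg hpos.le
  by_cases hf : f = 0
  · subst hf
    rw [map_zero, AddValuation.map_zero, AddValuation.map_zero]
    obtain ⟨m, hm⟩ := Nat.exists_eq_succ_of_ne_zero (n := (w.pord (algebraMap E E' z)).toNat)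
      (by omega)
    rw [hm, succ_nsmul, WithTop.add_top]
  · have h1 : f = (f * z ^ (-(v.pord f))) * z ^ (v.pord f) := by
      rw [mul_assoc, ← zpow_add₀ hz0, neg_add_cancel, zpow_zero, mul_one]
    have hg0 : f * z ^ (-(v.pord f)) ≠ 0 := mul_ne_zero hf (zpow_ne_zero _ hz0)
    have hg1 : v.pord (f * z ^ (-(v.pord f))) = 0 := by
      rw [v.pord_mul hf (zpow_ne_zero _ hz0), v.pord_zpow hz0, hz1]; ring
    have h2 : w.pord (algebraMap E E' f) = v.pord f * w.pord (algebraMap E E' z) := by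
      conv_lhs => rw [h1]
      rw [map_mul, map_zpow₀, w.pord_mul (hinj _ hg0) (zpow_ne_zero _ (hinj _ hz0)),
        hunit _ hg0 hg1, w.pord_zpow (hinj _ hz0), zero_add]
    rw [w.ord_eq_pord (hinj f hf), v.ord_eq_pord hf, ← WithTop.coe_nsmul, nsmul_eq_mul, he, h2,
      mul_comm]

/-- The ramification index of a place over a subfield. -/
noncomputable def Place.ram (E : Type) [Field E] [Algebra 𝕜 E] [IsCurveField 𝕜 E] [Algebra E E']
    [IsScalarTower 𝕜 E E'] [Module.Finite E E'] (w : Place 𝕜 E') : ℕ :=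
  (exists_ram (E := E) w).choose

theorem Place.ram_pos (w : Place 𝕜 E') : 0 < w.ram E := (exists_ram (E := E) w).choose_spec.1

theorem Place.ord_algebraMap_eq (w : Place 𝕜 E') (f : E) :
    w.ord (algebraMap E E' f) = w.ram E • (w.res E).ord f :=
  (exists_ram (E := E) w).choose_spec.2 f

theorem Place.pord_algebraMap_eq (w : Place 𝕜 E') (f : E) :
    w.pord (algebraMap E E' f) = w.ram E * (w.res E).pord f := by
  by_cases hf : f = 0
  · subst hf
    have h1 : ∀ {F : Type} [Field F] [Algebra 𝕜 F] (u : Place 𝕜 F), u.pord (0 : F) = 0 := by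
      intro F _ _ u
      unfold Place.pord
      rw [AddValuation.map_zero]; rfl
    rw [map_zero, h1, h1, mul_zero]
  · have h := w.ord_algebraMap_eq (E := E) f
    rw [w.ord_eq_pord ((map_ne_zero _).2 hf), (w.res E).ord_eq_pord hf, ← WithTop.coe_nsmul,
      nsmul_eq_mul, WithTop.coe_inj] at h
    exact h

/-- Uniqueness of the restriction. -/
theorem Place.res_eq (w : Place 𝕜 E') (v : Place 𝕜 E) {e : ℕ} (he : 0 < e)
    (h : ∀ f : E, w.ord (algebraMap E E' f) = e • v.ord f) : w.res E = v ∧ w.ram E = e := by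
  have hv : w.res E = v := by
    apply place_eq
    intro f hf
    rw [w.res_nonneg (E := E), h] at hf
    by_cases hf0 : f = 0
    · subst hf0
      rw [AddValuation.map_zero]; exact le_top
    · rw [v.ord_eq_pord hf0, ← WithTop.coe_nsmul, nsmul_eq_mul] at hf
      have h1 : (0 : ℤ) ≤ (e : ℤ) * v.pord f := by exact_mod_cast hf
      rw [v.ord_eq_pord hf0]
      have h2 : 0 ≤ v.pord f := by
        by_contra h3
        push Not at h3
        have : (e : ℤ) * v.pord f < 0 := mul_neg_of_pos_of_neg (by exact_mod_cast he) h3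
        omega
      exact_mod_cast h2
  refine ⟨hv, ?_⟩
  obtain ⟨z, hz⟩ := v.exists_unif
  have h1 := h z
  rw [w.ord_algebraMap_eq (E := E) z, hv, hz] at h1
  have h2 : ((1 : ℤ) : WithTop ℤ) = (1 : WithTop ℤ) := rfl
  rw [← h2, ← WithTop.coe_nsmul, ← WithTop.coe_nsmul, WithTop.coe_inj] at h1
  simpa using h1

/-- Restriction and automorphisms. -/
theorem Place.res_comap (w : Place 𝕜 E') (σ' : E' ≃+* E') (σ : E ≃+* E)
    (h : ∀ f, σ' (algebraMap E E' f) = algebraMap E E' (σ f)) :
    (w.comap σ').res E = (w.res E).comap σ ∧ (w.comap σ').ram E = w.ram E := by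
  apply Place.res_eq _ _ w.ram_pos
  intro f
  rw [Place.comap_ord, h, w.ord_algebraMap_eq (E := E), Place.comap_ord]

end MP7Z
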